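import Pool.Agent.Work.MP_c4d05f_lc.Defs

/-!
# Havens (block `Hav`): definitions

`Reach G A a b` (file `MP_c4d05f_lc/Defs.lean`): there is a walk from `a` to `b` whose vertices
other than `a` are in `A`.
-/

set_option autoImplicit false

namespace Pool.Agent.Work.MP_c4d05f_lc.Hav

open Pool.Agent.Work.MP_c4d05f_lc (Reach)

variable {V : Type}

/-- `u 0, …, u (n-1)` is an induced path of `G` with `n` different vertices. -/
def IndSeq (G : SimpleGraph V) (n : ℕ) (u : ℕ → V) : Prop :=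
  ∀ i j, i < j → j < n → u i ≠ u j ∧ (G.Adj (u i) (u j) ↔ j = i + 1)

/-- `u` and `v` are different and not adjacent. -/
def Apart (G : SimpleGraph V) (u v : V) : Prop := u ≠ v ∧ ¬ G.Adj u v

/-- The sets `A` and `B` are anticomplete (in particular disjoint). -/
def Anti (G : SimpleGraph V) (A B : Set V) : Prop := ∀ u ∈ A, ∀ v ∈ B, Apart G u v

/-- `u` and `v` have at most one common neighbour. -/
def OneCN (G : SimpleGraph V) (u v : V) : Prop :=
  ∀ a b, G.Adj u a → G.Adj v a → G.Adj u b → G.Adj v b → a = b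

/-- `G` has no `K₄`. -/
def NoK4 (G : SimpleGraph V) : Prop :=
  ∀ a b c d, G.Adj a b → G.Adj a c → G.Adj a d → G.Adj b c → G.Adj b d → ¬ G.Adj c d

/-- `Near G A a n b`: there is a walk from `a` to `b` with at most `n` steps whose vertices other
than the first are in `A`. -/
def Near (G : SimpleGraph V) (A : Set V) (a : V) : ℕ → V → Prop
  | 0, b => b = a
  | n + 1, b => Near G A a n b ∨ ∃ c, Near G A a n c ∧ G.Adj c b ∧ b ∈ A

/-- The set `A` is connected (or empty). -/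
def Conn (G : SimpleGraph V) (A : Set V) : Prop := ∀ a ∈ A, ∀ b ∈ A, Reach G A a b

/-- `G` has an induced `S_{l,l,l}` with centre `z` and legs `p i 1, …, p i l` (`i < 3`). -/
def HasS (G : SimpleGraph V) (l : ℕ) : Prop :=
  ∃ (z : V) (p : ℕ → ℕ → V), (∀ i < 3, IndSeq G (l + 1) (p i) ∧ p i 0 = z) ∧
    ∀ i j, i < j → j < 3 → ∀ a b, 1 ≤ a → a ≤ l → 1 ≤ b → b ≤ l → Apart G (p i a) (p j b)

/-- `G` has an induced net with legs of length `l`: triangle `p 0 0, p 1 0, p 2 0` and legs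
`p i 1, …, p i l` (`i < 3`). -/
def HasL (G : SimpleGraph V) (l : ℕ) : Prop :=
  ∃ p : ℕ → ℕ → V, (∀ i < 3, IndSeq G (l + 1) (p i)) ∧
    ∀ i j, i < j → j < 3 → ∀ a b, a ≤ l → b ≤ l →
      p i a ≠ p j b ∧ (G.Adj (p i a) (p j b) ↔ a = 0 ∧ b = 0)

/-- `Y` contains `X` and at most `n` more elements. -/
def Ext (X : Finset V) (n : ℕ) (Y : Finset V) : Prop := X ⊆ Y ∧ Y.card ≤ X.card + n

/-- A graph with white vertices `W` (the others are black), sets `D x` (the closure of a vertex)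
and a haven `β` of order `k`. -/
structure HS (V : Type) (k : ℕ) where
  /-- the graph -/
  G : SimpleGraph V
  /-- the white vertices -/
  W : Set V
  /-- what is known when `x` is known -/
  D : V → Set V
  /-- the haven -/
  β : Finset V → Set V
  self_mem : ∀ x, x ∈ D x
  black : ∀ x u v, u ∈ D x → u ∉ W → G.Adj u v → v ∈ D x
  white : ∀ x u v, u ∈ D x → u ∈ W → v ∉ D x → v ∈ W → OneCN G u v
  indep : ∀ u ∈ W, ∀ v ∈ W, ¬ G.Adj u v
  noK4 : NoK4 G
  nonempty : ∀ X : Finset V, X.card ≤ k → (β X).Nonempty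
  alive : ∀ X : Finset V, X.card ≤ k → ∀ v ∈ β X, ∀ x ∈ X, v ∉ D x
  conn : ∀ X : Finset V, X.card ≤ k → Conn G (β X)
  closed : ∀ X : Finset V, X.card ≤ k → ∀ u ∈ β X, ∀ v, G.Adj u v → (∀ x ∈ X, v ∉ D x) → v ∈ β X
  mono : ∀ X Y : Finset V, X ⊆ Y → Y.card ≤ k → β Y ⊆ β X

variable {k : ℕ}

/-- `v` is dead at `X`: it is in `D(X)`. -/
def HS.Dead (H : HS V k) (X : Finset V) (v : V) : Prop := ∃ x ∈ X, v ∈ H.D x

/-- `v` is detached at `X`: it is not in `β(X)` and has no neighbour in `β(X)`. -/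
def HS.Det (H : HS V k) (X : Finset V) (v : V) : Prop :=
  v ∉ H.β X ∧ ∀ u ∈ H.β X, ¬ H.G.Adj v u

/-- `v` is detached at some set of at most `m` vertices. -/
def HS.Small (H : HS V k) (m : ℕ) (v : V) : Prop := ∃ X : Finset V, X.card ≤ m ∧ H.Det X v

end Pool.Agent.Work.MP_c4d05f_lc.Hav
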