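import Pool.Agent.Work.MP_c4d05f_lc.N.Hav.Nr

/-!
# Extraction of arms (module `Tarm`, size S-M)

The function `f` is a certificate that `y` is at distance at least `l` from `h`.
-/

set_option autoImplicit false

namespace Pool.Agent.Work.MP_c4d05f_lc.Hav

open Pool.Agent.Work.MP_c4d05f_lc (Reach)

variable {V : Type} {G : SimpleGraph V}

/-- **Extraction.** Proof: take the geodesic `u 0 = h, …, u m = y` (`reach_iff_near`, `geod`). By
induction `f (u i) ≤ i` (the vertices `u i`, `i ≥ 1`, are in `U`), so `l ≤ f y = f (u m) ≤ m`; take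
`p = u`. -/
theorem arm_cert {U : Set V} {h y : V} {l : ℕ} (f : V → ℕ) (hr : Reach G U h y) (f0 : f h = 0)
    (fy : l ≤ f y)
    (hf : ∀ x x', (x ∈ U ∨ x = h) → x' ∈ U → G.Adj x x' → f x' ≤ f x + 1) :
    ∃ p : ℕ → V, IndSeq G (l + 1) p ∧ p 0 = h ∧ ∀ i, 1 ≤ i → i ≤ l → p i ∈ U := by
  obtain ⟨n, hn⟩ := reach_iff_near.1 hr
  obtain ⟨m, -, u, hu, u0, um, hU, -⟩ := geod hn
  have hfu : ∀ i, i ≤ m → f (u i) ≤ i := by
    intro i
    induction i with
    | zero =>
      intro _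
      rw [u0, f0]
    | succ i ih =>
      intro hi
      have h1 := ih (by omega)
      have h2 : u i ∈ U ∨ u i = h := by
        rcases Nat.eq_zero_or_pos i with h3 | h3
        · right
          rw [h3, u0]
        · left
          exact hU i h3 (by omega)
      have h4 := hf (u i) (u (i + 1)) h2 (hU (i + 1) (by omega) hi) (hu.adj (by omega))
      omega
  have hm := hfu m le_rfl
  rw [um] at hm
  exact ⟨u, hu.mono (by omega), u0, fun i h1 h2 => hU i h1 (by omega)⟩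

/-- **An arm to a far vertex.** `h` is attached to the connected set `B ⊆ A`, `h ∉ A`, and `y ∈ B`
is at distance more than `l` from `h` in `A`. Proof: `arm_cert` with `U = B` and
`f x` = the least `n ≤ l` with `Near G A h n x` (and `l` if there is none). -/
theorem arm_far {A B : Set V} {h y : V} {l : ℕ} (hBA : B ⊆ A) (hB : Conn G B)
    (hat : ∃ u ∈ B, G.Adj h u) (hy : y ∈ B) (hfar : ¬ Near G A h l y) :
    ∃ p : ℕ → V, IndSeq G (l + 1) p ∧ p 0 = h ∧ ∀ i, 1 ≤ i → i ≤ l → p i ∈ B := by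
  obtain ⟨u, huB, hhu⟩ := hat
  have hr : Reach G B h y := by
    obtain ⟨n, hn⟩ := reach_iff_near.1 (hB u huB y hy)
    exact reach_iff_near.2 ⟨_, near_trans (near_step (near_self h 0) hhu huB) hn⟩
  have hne : ∀ x, ({n | n = l ∨ Near G A h n x} : Set ℕ).Nonempty := fun x => ⟨l, Or.inl rfl⟩
  refine arm_cert (fun x => sInf {n | n = l ∨ Near G A h n x}) hr ?_ ?_ ?_
  · exact Nat.le_zero.1 (Nat.sInf_le (Or.inr (near_self h 0)))
  · rcases Nat.sInf_mem (hne y) with h1 | h1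
    · exact le_of_eq h1.symm
    · by_contra hcon
      exact hfar (near_mono (not_le.1 hcon).le h1)
  · intro x x' _ hx' hxx
    rcases Nat.sInf_mem (hne x) with h1 | h1
    · have h2 : sInf {n | n = l ∨ Near G A h n x'} ≤ l := Nat.sInf_le (Or.inl rfl)
      show sInf {n | n = l ∨ Near G A h n x'} ≤ sInf {n | n = l ∨ Near G A h n x} + 1
      rw [h1]
      omega
    · exact Nat.sInf_le (Or.inr (near_step h1 hxx (hBA hx')))

/-- An induced `S_{l,l,l}` from three anticomplete sets that can be reached from `z`. -/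
theorem hasS_of_sets {l : ℕ} (z : V) (U : ℕ → Set V) (y : ℕ → V) (f : ℕ → V → ℕ)
    (anti : ∀ i j, i < j → j < 3 → Anti G (U i) (U j))
    (reach : ∀ i < 3, Reach G (U i) z (y i)) (f0 : ∀ i < 3, f i z = 0)
    (fy : ∀ i < 3, l ≤ f i (y i))
    (hf : ∀ i < 3, ∀ x x', (x ∈ U i ∨ x = z) → x' ∈ U i → G.Adj x x' → f i x' ≤ f i x + 1) :
    HasS G l := by
  have h1 : ∀ i, ∃ q : ℕ → V, i < 3 → IndSeq G (l + 1) q ∧ q 0 = z ∧
      ∀ a, 1 ≤ a → a ≤ l → q a ∈ U i := by
    intro i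
    by_cases hi : i < 3
    · obtain ⟨q, hq⟩ := arm_cert (f i) (reach i hi) (f0 i hi) (fy i hi) (hf i hi)
      exact ⟨q, fun _ => hq⟩
    · exact ⟨fun _ => z, fun h => absurd h hi⟩
  choose p hp using h1
  refine ⟨z, p, fun i hi => ⟨(hp i hi).1, (hp i hi).2.1⟩, ?_⟩
  intro i j hij hj a b ha hal hb hbl
  exact anti i j hij hj _ ((hp i (by omega)).2.2 a ha hal) _ ((hp j hj).2.2 b hb hbl)

/-- An induced net from a triangle `z 0, z 1, z 2` and three anticomplete sets. -/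
theorem hasL_of_sets {l : ℕ} (z : ℕ → V) (U : ℕ → Set V) (y : ℕ → V) (f : ℕ → V → ℕ)
    (tri : ∀ i j, i < j → j < 3 → G.Adj (z i) (z j))
    (anti : ∀ i j, i < j → j < 3 → Anti G (U i) (U j))
    (antiz : ∀ i j, i ≠ j → i < 3 → j < 3 → ∀ x ∈ U j, Apart G (z i) x)
    (reach : ∀ i < 3, Reach G (U i) (z i) (y i)) (f0 : ∀ i < 3, f i (z i) = 0)
    (fy : ∀ i < 3, l ≤ f i (y i))
    (hf : ∀ i < 3, ∀ x x', (x ∈ U i ∨ x = z i) → x' ∈ U i → G.Adj x x' → f i x' ≤ f i x + 1) :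
    HasL G l := by
  have h1 : ∀ i, ∃ q : ℕ → V, i < 3 → IndSeq G (l + 1) q ∧ q 0 = z i ∧
      ∀ a, 1 ≤ a → a ≤ l → q a ∈ U i := by
    intro i
    by_cases hi : i < 3
    · obtain ⟨q, hq⟩ := arm_cert (f i) (reach i hi) (f0 i hi) (fy i hi) (hf i hi)
      exact ⟨q, fun _ => hq⟩
    · exact ⟨fun _ => z i, fun h => absurd h hi⟩
  choose p hp using h1
  refine ⟨p, fun i hi => (hp i hi).1, ?_⟩
  intro i j hij hj a b hal hbl
  have hi : i < 3 := by omega
  rcases Nat.eq_zero_or_pos a with ha | ha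
  · rcases Nat.eq_zero_or_pos b with hb | hb
    · rw [ha, hb, (hp i hi).2.1, (hp j hj).2.1]
      exact ⟨(tri i j hij hj).ne, iff_of_true (tri i j hij hj) ⟨rfl, rfl⟩⟩
    · have h2 := antiz i j hij.ne hi hj _ ((hp j hj).2.2 b hb hbl)
      rw [ha, (hp i hi).2.1]
      exact ⟨h2.1, iff_of_false h2.2 fun h3 => absurd h3.2 (by omega)⟩
  · rcases Nat.eq_zero_or_pos b with hb | hb
    · have h2 := (antiz j i hij.ne' hj hi _ ((hp i hi).2.2 a ha hal)).symm
      rw [hb, (hp j hj).2.1]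
      exact ⟨h2.1, iff_of_false h2.2 fun h3 => absurd h3.1 (by omega)⟩
    · have h2 := anti i j hij hj _ ((hp i hi).2.2 a ha hal) _ ((hp j hj).2.2 b hb hbl)
      exact ⟨h2.1, iff_of_false h2.2 fun h3 => absurd h3.1 (by omega)⟩

end Pool.Agent.Work.MP_c4d05f_lc.Hav
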