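import Pool.Agent.Work.MP_c4d05f_lc.N.Hav.Bas

/-!
# An arm at a vertex with a free window (module `Win`, size M, pure graph theory)

`a 1, …, a L` is a part of an induced path, `h` is not on it, `h` is adjacent to some `a j`, and the
window `a w, …, a (w+l-1)` has no neighbour of `h`. Then there is a path of `l` vertices of the
path of which exactly the first one is adjacent to `h`.

PROOF. If `j < w`: let `j₀ < w` be the largest index `≥ 1` below `w` with `h ~ a j₀`; then
`a j₀, a (j₀+1), …, a (j₀+l-1)` is as wanted (`j₀ + l - 1 < w + l - 1`, the vertices after `j₀` are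
before `w` or in the window). If `j ≥ w + l`: let `j₀ ≥ w + l` be the least index with `h ~ a j₀`;
then `a j₀, a (j₀-1), …, a (j₀-l+1)` is as wanted (`j₀ - l + 1 ≥ w + 1`). The result is given with `h` in front:
`r 0 = h` and `r (i+1)` the vertices above (`IndSeq.cons`, `IndSeq.rev`, `IndSeq.shift`).
-/

set_option autoImplicit false

namespace Pool.Agent.Work.MP_c4d05f_lc.Hav

/-- **Arm at a vertex with a free window.** -/
theorem window_arm (l L : ℕ) (V : Type) (G : SimpleGraph V) (a : ℕ → V) (h : V)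
    (ha : IndSeq G (L + 1) a) (hne : ∀ j, 1 ≤ j → j ≤ L → h ≠ a j)
    (hadj : ∃ j, 1 ≤ j ∧ j ≤ L ∧ G.Adj h (a j)) (w : ℕ) (hw : 1 ≤ w) (hwL : w + l ≤ L + 1)
    (hwin : ∀ j, w ≤ j → j < w + l → ¬ G.Adj h (a j)) :
    ∃ r : ℕ → V, IndSeq G (l + 1) r ∧ r 0 = h ∧
      ∀ i, 1 ≤ i → i ≤ l → ∃ j, 1 ≤ j ∧ j ≤ L ∧ r i = a j := by
  classical
  rcases Nat.eq_zero_or_pos l with hl | hl
  · subst hl
    exact ⟨fun _ => h, fun i j hij hj => absurd hj (by omega), rfl, fun i h1 h2 => absurd h1 (by omega)⟩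
  obtain ⟨j, hj1, hjL, hj⟩ := hadj
  rcases Nat.lt_or_ge j w with hjw | hjw
  · set P : ℕ → Prop := fun i => 1 ≤ i ∧ G.Adj h (a i) with hP
    have hs : P (Nat.findGreatest P (w - 1)) :=
      Nat.findGreatest_spec (P := P) (m := j) (n := w - 1) (by omega) ⟨hj1, hj⟩
    have hle : Nat.findGreatest P (w - 1) ≤ w - 1 := Nat.findGreatest_le _
    have hmax : ∀ i, Nat.findGreatest P (w - 1) < i → i ≤ w - 1 → ¬ P i :=
      fun i h1 h2 => Nat.findGreatest_is_greatest h1 h2
    generalize Nat.findGreatest P (w - 1) = s at hs hle hmax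
    have hseq : IndSeq G l (fun i => a (s + i)) := IndSeq.shift s (ha.mono (by omega))
    refine ⟨_, hseq.cons h (fun _ => ?_) (fun i h1 h2 => ⟨hne _ (by omega) (by omega), fun h3 => ?_⟩), rfl, ?_⟩
    · exact hs.2
    · rcases Nat.lt_or_ge (s + i) w with h4 | h4
      · exact hmax (s + i) (by omega) (by omega) ⟨by omega, h3⟩
      · exact hwin (s + i) h4 (by omega) h3
    · intro i h1 h2
      have hs1 := hs.1
      refine ⟨s + (i - 1), by omega, by omega, ?_⟩
      beta_reduce
      rw [if_neg (by omega)]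
  · have hjw2 : w + l ≤ j := by
      by_contra hcon
      exact hwin j hjw (by omega) hj
    have hex : ∃ i, w + l ≤ i ∧ i ≤ L ∧ G.Adj h (a i) := ⟨j, hjw2, hjL, hj⟩
    have hs := Nat.find_spec hex
    have hmin : ∀ i, i < Nat.find hex → ¬ (w + l ≤ i ∧ i ≤ L ∧ G.Adj h (a i)) :=
      fun i hi => Nat.find_min hex hi
    generalize Nat.find hex = s at hs hmin
    have hseq : IndSeq G l (fun i => a (s - i)) :=
      (IndSeq.rev (ha.mono (by omega : s + 1 ≤ L + 1))).mono (by omega)
    refine ⟨_, hseq.cons h (fun _ => ?_) (fun i h1 h2 => ⟨hne _ (by omega) (by omega), fun h3 => ?_⟩), rfl, ?_⟩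
    · exact hs.2.2
    · rcases Nat.lt_or_ge (s - i) (w + l) with h4 | h4
      · exact hwin (s - i) (by omega) h4 h3
      · exact hmin (s - i) (by omega) ⟨h4, by omega, h3⟩
    · intro i h1 h2
      refine ⟨s - (i - 1), by omega, by omega, ?_⟩
      beta_reduce
      rw [if_neg (by omega)]

end Pool.Agent.Work.MP_c4d05f_lc.Hav
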