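import Pool.Agent.Work.MP_c4d05f_lc.N.Hav.Stg
import Pool.Agent.Work.MP_c4d05f_lc.N.Hav.Win

/-!
# Exceptional pairs (module `ExcArr`, size M)

PROOF. `h = tl (f 0) p`. `h` is on the path of at most one of the stages `f 1, …, f 4` (the paths are
disjoint, `apart_arm`). So there are three indices among `1, …, 4` such that `h` is not on the path;
for them the second alternative of `Exc` holds, and `Arrow` gives a neighbour of `h` on the path
(its first alternative is excluded). `window_arm` gives three arms `r`, which start at `h` and are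
anticomplete otherwise (`apart_arm`, `Apart.symm`): `HasS` by definition.
-/

set_option autoImplicit false

namespace Pool.Agent.Work.MP_c4d05f_lc.Hav

/-- **Exceptional pairs.** -/
theorem exc_arrow (l : ℕ) (V : Type) (k : ℕ) (H : HS V k) (N L Δ p : ℕ)
    (S : Stages H N L Δ) (f : ℕ → ℕ) (hf : StrictMono f) (hN : f 4 < N)
    (harr : ∀ i, 1 ≤ i → i ≤ 4 → S.Arrow (f 0) (f i) p)
    (hexc : ∀ i, 1 ≤ i → i ≤ 4 → S.Exc l (S.tl (f 0) p) (f i)) : HasS H.G l := by
  classical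
  have hfN : ∀ i ≤ 4, f i < N := fun i hi => lt_of_le_of_lt (hf.monotone hi) hN
  obtain ⟨g, hg, hgm⟩ : ∃ g : ℕ → ℕ, (∀ i < 3, 1 ≤ g i ∧ g i ≤ 4 ∧
      ¬ ∃ j, 1 ≤ j ∧ j ≤ L ∧ S.tl (f 0) p = S.a (f (g i)) j) ∧ ∀ i j, i < j → j < 3 → g i < g j := by
    have hon : ∀ i i', 1 ≤ i → i < i' → i' ≤ 4 →
        (∃ j, 1 ≤ j ∧ j ≤ L ∧ S.tl (f 0) p = S.a (f i) j) →
        ¬ ∃ j, 1 ≤ j ∧ j ≤ L ∧ S.tl (f 0) p = S.a (f i') j := by
      rintro i i' h1 h2 h3 ⟨j, hj1, hj2, hj3⟩ ⟨j', hj1', hj2', hj3'⟩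
      have h4 := S.apart_arm (hf h2) (hfN i' h3) hj1 hj2 hj1' hj2'
      exact h4.1 (hj3.symm.trans hj3')
    by_cases h1 : ∃ j, 1 ≤ j ∧ j ≤ L ∧ S.tl (f 0) p = S.a (f 1) j
    · refine ⟨fun i => i + 2, fun i hi => ?_, fun i j hij _ => by
        show i + 2 < j + 2
        omega⟩
      beta_reduce
      exact ⟨by omega, by omega, hon 1 (i + 2) le_rfl (by omega) (by omega) h1⟩
    by_cases h2 : ∃ j, 1 ≤ j ∧ j ≤ L ∧ S.tl (f 0) p = S.a (f 2) j
    · refine ⟨fun i => if i = 0 then 1 else i + 2, fun i hi => ?_, fun i j hij hj => ?_⟩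
      · beta_reduce
        by_cases h0 : i = 0
        · rw [if_pos h0]
          exact ⟨le_rfl, by norm_num, h1⟩
        · rw [if_neg h0]
          exact ⟨by omega, by omega, hon 2 (i + 2) (by norm_num) (by omega) (by omega) h2⟩
      · beta_reduce
        split_ifs <;> omega
    by_cases h3 : ∃ j, 1 ≤ j ∧ j ≤ L ∧ S.tl (f 0) p = S.a (f 3) j
    · refine ⟨fun i => if i = 2 then 4 else i + 1, fun i hi => ?_, fun i j hij hj => ?_⟩
      · beta_reduce
        by_cases h0 : i = 2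
        · rw [if_pos h0]
          exact ⟨by norm_num, le_rfl, hon 3 4 (by norm_num) (by norm_num) le_rfl h3⟩
        · rw [if_neg h0]
          refine ⟨by omega, by omega, ?_⟩
          rcases (by omega : i = 0 ∨ i = 1) with h | h
          · subst h
            exact h1
          · subst h
            exact h2
      · beta_reduce
        split_ifs <;> omega
    refine ⟨fun i => i + 1, fun i hi => ?_, fun i j hij _ => by
      show i + 1 < j + 1
      omega⟩
    beta_reduce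
    refine ⟨by omega, by omega, ?_⟩
    rcases (by omega : i = 0 ∨ i = 1 ∨ i = 2) with h | h | h
    · subst h
      exact h1
    · subst h
      exact h2
    · subst h
      exact h3
  have harm : ∀ i, ∃ r : ℕ → V, i < 3 → IndSeq H.G (l + 1) r ∧ r 0 = S.tl (f 0) p ∧
      ∀ a, 1 ≤ a → a ≤ l → ∃ j, 1 ≤ j ∧ j ≤ L ∧ r a = S.a (f (g i)) j := by
    intro i
    by_cases hi : i < 3
    · obtain ⟨h1, h2, h3⟩ := hg i hi
      have hadj : ∃ j, 1 ≤ j ∧ j ≤ L ∧ H.G.Adj (S.tl (f 0) p) (S.a (f (g i)) j) := by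
        rcases harr (g i) h1 h2 with h4 | ⟨j, hj1, hj2, hj3⟩
        · exact absurd h4 h3
        · exact ⟨j, by omega, hj2, hj3⟩
      rcases hexc (g i) h1 h2 with h5 | ⟨w, hw1, hw2, hw3⟩
      · exact absurd h5 h3
      · obtain ⟨r, hr⟩ := window_arm l L V H.G (S.a (f (g i))) (S.tl (f 0) p)
          (S.ind _ (hfN _ h2)) (fun j hj1 hj2 he => h3 ⟨j, hj1, hj2, he⟩) hadj w hw1 hw2 hw3
        exact ⟨r, fun _ => hr⟩
    · exact ⟨S.a 0, fun h => absurd h hi⟩
  choose r hr using harm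
  refine ⟨S.tl (f 0) p, r, fun i hi => ⟨(hr i hi).1, (hr i hi).2.1⟩, ?_⟩
  intro i j hij hj a b ha hal hb hbl
  obtain ⟨j1, h1, h2, h3⟩ := (hr i (hij.trans hj)).2.2 a ha hal
  obtain ⟨j2, h4, h5, h6⟩ := (hr j hj).2.2 b hb hbl
  rw [h3, h6]
  exact S.apart_arm (hf (hgm i j hij hj)) (hfN _ (hg j hj).2.1) h1 h2 h4 h5

end Pool.Agent.Work.MP_c4d05f_lc.Hav
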