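import Pool.Agent.Work.MP_c4d05f_lc.N.Hav.Bas

/-!
# Too many common neighbours (module `Pig`, size S-M, pigeonhole only)

PROOF. In each of the `(l+1)^2` windows `{w * l + 1, …, w * l + l}`, `w < (l+1)^2`, each of the `l + 1`
hubs has a neighbour `a j`; the window has `l` elements, so two hubs `h i`, `h i'`, `i < i'`, have the
same `a j` (`Finset.exists_ne_map_eq_of_card_lt_of_maps_to`). The number of pairs `i < i' ≤ l` is less
than `(l+1)^2`, so two windows give the same pair: two common neighbours `a j`, `a j'` of `h i` and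
`h i'` with `j ≠ j'` (in different windows), so `a j ≠ a j'`: contradiction to `OneCN`.
-/

set_option autoImplicit false

namespace Pool.Agent.Work.MP_c4d05f_lc.Hav

/-- **Too many common neighbours.** -/
theorem pig (l : ℕ) (V : Type) (G : SimpleGraph V) (a h : ℕ → V)
    (ha : ∀ j j', 1 ≤ j → j < j' → j' ≤ l * (l + 1) ^ 2 → a j ≠ a j')
    (hh : ∀ i i', i < i' → i' ≤ l → OneCN G (h i) (h i'))
    (hwin : ∀ i ≤ l, ∀ w < (l + 1) ^ 2, ∃ j, w * l + 1 ≤ j ∧ j ≤ w * l + l ∧ G.Adj (h i) (a j)) :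
    False := by
  classical
  -- the choice of the neighbours
  have hex : ∀ i w : ℕ, ∃ j, i ≤ l → w < (l + 1) ^ 2 →
      w * l + 1 ≤ j ∧ j ≤ w * l + l ∧ G.Adj (h i) (a j) := by
    intro i w
    by_cases hi : i ≤ l
    · by_cases hw : w < (l + 1) ^ 2
      · obtain ⟨j, hj⟩ := hwin i hi w hw
        exact ⟨j, fun _ _ => hj⟩
      · exact ⟨0, fun _ h1 => absurd h1 hw⟩
    · exact ⟨0, fun h1 _ => absurd h1 hi⟩
  choose J hJ using hex
  -- two hubs with the same neighbour in the window `w`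
  have hpair : ∀ w : ℕ, ∃ p : ℕ × ℕ, w < (l + 1) ^ 2 →
      p.1 < p.2 ∧ p.2 ≤ l ∧ J p.1 w = J p.2 w := by
    intro w
    by_cases hw : w < (l + 1) ^ 2
    · obtain ⟨i, hi, i', hi', hne, heq⟩ := Finset.exists_ne_map_eq_of_card_lt_of_maps_to
        (s := Finset.range (l + 1)) (t := Finset.Icc (w * l + 1) (w * l + l)) (f := fun i => J i w)
        (by rw [Nat.card_Icc, Finset.card_range]; omega)
        (fun i hi => by
          have hi' := Finset.mem_range.1 (Finset.mem_coe.1 hi)
          have h1 := hJ i w (by omega) hw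
          exact Finset.mem_coe.2 (Finset.mem_Icc.2 ⟨h1.1, h1.2.1⟩))
      rw [Finset.mem_range] at hi hi'
      rcases lt_or_gt_of_ne hne with hlt | hlt
      · exact ⟨(i, i'), fun _ => ⟨hlt, by show i' ≤ l; omega, heq⟩⟩
      · exact ⟨(i', i), fun _ => ⟨hlt, by show i ≤ l; omega, heq.symm⟩⟩
    · exact ⟨(0, 0), fun h1 => absurd h1 hw⟩
  choose P hP using hpair
  -- two windows with the same pair
  obtain ⟨w, hw, w', hw', hne, heq⟩ := Finset.exists_ne_map_eq_of_card_lt_of_maps_to
    (s := Finset.range ((l + 1) ^ 2)) (t := (Finset.range l ×ˢ Finset.range (l + 1))) (f := P)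
    (by
      rw [Finset.card_product, Finset.card_range, Finset.card_range, Finset.card_range, pow_two]
      exact Nat.mul_lt_mul_of_pos_right (Nat.lt_succ_self l) (Nat.succ_pos l))
    (fun w hw => by
      have h1 := hP w (Finset.mem_range.1 (Finset.mem_coe.1 hw))
      refine Finset.mem_coe.2 (Finset.mem_product.2 ⟨Finset.mem_range.2 ?_, Finset.mem_range.2 ?_⟩) <;>
        omega)
  rw [Finset.mem_range] at hw hw'
  obtain ⟨h1, h2, h3⟩ := hP w hw
  obtain ⟨h1', h2', h3'⟩ := hP w' hw'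
  rw [← heq] at h1' h2' h3'
  set i := (P w).1 with hi
  set i' := (P w).2 with hi'
  have k1 := hJ i w (by omega) hw
  have k2 := hJ i' w (by omega) hw
  have k1' := hJ i w' (by omega) hw'
  have k2' := hJ i' w' (by omega) hw'
  rw [← h3] at k2
  rw [← h3'] at k2'
  have hb : ∀ v : ℕ, v < (l + 1) ^ 2 → v * l + l ≤ l * (l + 1) ^ 2 := by
    intro v hv
    have h4 : (v + 1) * l ≤ (l + 1) ^ 2 * l := Nat.mul_le_mul_right l hv
    nlinarith
  have hsep : ∀ v v' : ℕ, v < v' → v * l + l ≤ v' * l := by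
    intro v v' hv
    have h4 : (v + 1) * l ≤ v' * l := Nat.mul_le_mul_right l hv
    nlinarith
  have hA : a (J i w) ≠ a (J i w') := by
    rcases lt_or_gt_of_ne hne with hlt | hlt
    · have h5 := hsep w w' hlt
      have h6 := hb w' hw'
      exact ha _ _ (by omega) (by omega) (by omega)
    · have h5 := hsep w' w hlt
      have h6 := hb w hw
      exact (ha _ _ (by omega) (by omega) (by omega)).symm
  exact hA (hh i i' h1 h2 _ _ k1.2.2 k2.2.2 k1'.2.2 k2'.2.2)

end Pool.Agent.Work.MP_c4d05f_lc.Hav
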