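import Pool.Agent.Work.MP_c4d05f_lc.N.Hav.Stg
import Pool.Agent.Work.MP_c4d05f_lc.N.Hav.Pig

/-!
# No exceptional pairs (module `NonExc`, size M)

PROOF. `h i = tl (f i) p` for `i ≤ l` and `b = f (l + 2)`, `L = l * (l+1)^2`.
Let `i < i' ≤ l + 1` (so there is `i'' = l + 2` after `i'`). Since `(i, l+2)` is not exceptional,
`h i` has a neighbour in the window `a b 1, …, a b l` (`1 + l ≤ L + 1`; here `1 ≤ l`), which is in
`β (X b)` (`a_mem`), so `h i` is not detached at `X b`, hence not at `Y (f i')` (`YX_mono`,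
`HS.Det.mono` in contrapositive form). `Arrow (f i) (f i') p` and `¬ Exc` give
a neighbour `a (f i') j`, `j ≥ 2`, of `h i` (the first alternative of `Arrow` is the first
alternative of `Exc`); it is detached at `Y (f i')` (`a_det`), so `h i ∉ β (Y (f i'))`. By
`HS.att_white` `h i` is dead at `Y (f i')` and white. In particular (with `i' = l + 1`) all `h i`,
`i ≤ l`, are white. For `i < i' ≤ l`: `h i' = tl (f i') p ∈ β (Y (f i'))` is not dead at `Y (f i')`
(`HS.not_dead`), so `HS.oneCN` gives `OneCN (h i) (h i')`. Finally `pig` with `a = a b` and the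
windows (`¬ Exc` for the pairs `(i, l+2)`: window `w * l + 1`).
-/

set_option autoImplicit false

namespace Pool.Agent.Work.MP_c4d05f_lc.Hav

/-- **No exceptional pairs.** -/
theorem nonexc_arrow (l : ℕ) (hl : 1 ≤ l) (V : Type) (k : ℕ) (H : HS V k) (N Δ p : ℕ)
    (S : Stages H N (l * (l + 1) ^ 2) Δ) (hp : p ≤ Δ) (f : ℕ → ℕ) (hf : StrictMono f)
    (hN : f (l + 2) < N) (harr : ∀ i j, i < j → j ≤ l + 2 → S.Arrow (f i) (f j) p)
    (hexc : ∀ i j, i < j → j ≤ l + 2 → ¬ S.Exc l (S.tl (f i) p) (f j)) : False := by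
  have hfb : ∀ i, i < l + 2 → f i < f (l + 2) := fun i hi => hf hi
  -- windows
  have hwin : ∀ i, i < l + 2 → ∀ w, w < (l + 1) ^ 2 → ∃ j, w * l + 1 ≤ j ∧ j ≤ w * l + l ∧
      H.G.Adj (S.tl (f i) p) (S.a (f (l + 2)) j) := by
    intro i hi w hw
    by_contra hcon
    push Not at hcon
    refine hexc i (l + 2) hi le_rfl (Or.inr ⟨w * l + 1, by omega, ?_, fun j h1 h2 =>
      hcon j h1 (by omega)⟩)
    have h4 : (w + 1) * l ≤ (l + 1) ^ 2 * l := Nat.mul_le_mul_right l hw
    nlinarith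
  -- dead and white
  have hdead : ∀ i i', i < i' → i' ≤ l + 1 →
      H.Dead (S.Y (f i')) (S.tl (f i) p) ∧ S.tl (f i) p ∈ H.W := by
    intro i i' hii hi'
    have hcY : (S.Y (f i')).card ≤ k := S.cardY _ ((hfb i' (by omega)).trans hN)
    have h1 : ¬ H.Det (S.Y (f i')) (S.tl (f i) p) := by
      intro hdet
      have h2 := hdet.mono (S.YX_mono (hfb i' (by omega)) hN.le) (S.cardX _ hN.le)
      obtain ⟨j, hj1, hj2, hj3⟩ := hwin i (by omega) 0 (by positivity)
      have hjL : j ≤ l * (l + 1) ^ 2 := by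
        have : l ≤ l * (l + 1) ^ 2 := Nat.le_mul_of_pos_right l (by positivity)
        omega
      exact h2.2 _ (S.a_mem _ hN j (by omega) hjL).1 hj3
    have h2 : S.tl (f i) p ∉ H.β (S.Y (f i')) := by
      intro hmem
      rcases harr i i' hii (by omega) with h3 | ⟨j, hj2, hjL, hadj⟩
      · exact hexc i i' hii (by omega) (Or.inl h3)
      · exact (S.a_det _ ((hfb i' (by omega)).trans hN) j hj2 hjL).2 _ hmem hadj.symm
    obtain ⟨h3, h4, -⟩ := H.att_white hcY h1 h2
    exact ⟨h3, h4⟩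
  refine pig l V H.G (S.a (f (l + 2))) (fun i => S.tl (f i) p) ?_ ?_ ?_
  · intro j j' _ hjj' hj'
    exact (S.ind _ hN j j' hjj' (by omega)).1
  · intro i i' hii hi'
    have hd := hdead i i' hii (by omega)
    have hw := (hdead i' (l + 1) (by omega) le_rfl).2
    have hb : f i' < N := (hfb i' (by omega)).trans hN
    have hnd : ¬ H.Dead (S.Y (f i')) (S.tl (f i') p) :=
      H.not_dead (S.cardY _ hb) (S.tl_mem _ hb p hp)
    exact (H.oneCN hd.1 hd.2 hnd hw).2
  · intro i hi w hw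
    exact hwin i (by omega) w hw

end Pool.Agent.Work.MP_c4d05f_lc.Hav
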