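import Pool.Agent.Work.MP_c4d05f_lc.N.Hav.NoArr
import Pool.Agent.Work.MP_c4d05f_lc.N.Hav.ExcArr
import Pool.Agent.Work.MP_c4d05f_lc.N.Hav.NonExc

/-!
# Many stages give a spider (assembly)

PROOF. `n` from `no_arrow l Δ`, `M = n + 5 + (l + 3)`, `N` from `ram2` with the colour type
`Option (Fin (Δ+1)) × Bool`: the colour of `i < j` is `(some p, e)` for some `p ≤ Δ` with
`Arrow i j p` if there is one, `e` = truth value of `Exc l (tl i p) j`, and `(none, false)` if
there is no arrow. The three cases are `no_arrow`, `exc_arrow`, `nonexc_arrow`.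
-/

set_option autoImplicit false

namespace Pool.Agent.Work.MP_c4d05f_lc.Hav

/-- **Many stages.** -/
theorem stages_hasS (l Δ : ℕ) (hl : 1 ≤ l) : ∃ N : ℕ, ∀ (V : Type) (k : ℕ) (H : HS V k),
    Stages H N (l * (l + 1) ^ 2) Δ → HasS H.G l := by
  classical
  obtain ⟨n, hn⟩ := no_arrow l Δ hl
  obtain ⟨N, hN⟩ := ram2 (Option (Fin (Δ + 1)) × Bool) (n + 5 + (l + 3))
  refine ⟨N, fun V k H S => ?_⟩
  have hL : l ≤ l * (l + 1) ^ 2 := Nat.le_mul_of_pos_right l (by positivity)
  let col : ℕ → ℕ → Option (Fin (Δ + 1)) × Bool := fun i j =>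
    if h : ∃ p, p ≤ Δ ∧ S.Arrow i j p then
      (some ⟨h.choose, Nat.lt_succ_of_le h.choose_spec.1⟩,
        decide (S.Exc l (S.tl i h.choose) j))
    else (none, false)
  obtain ⟨f, ⟨a1, a2⟩, hf, hfN, hcol⟩ := hN col
  rcases a1 with _ | p
  · -- no arrows
    refine hn V k H N _ S f hL hf (fun i hi => hfN i (by omega)) fun i j hij hj q hq harr => ?_
    have h1 := hcol i j hij (by omega)
    have h2 : ∃ p, p ≤ Δ ∧ S.Arrow (f i) (f j) p := ⟨q, hq, harr⟩
    simp only [col] at h1
    rw [dif_pos h2] at h1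
    simp at h1
  · have key : ∀ i j, i < j → j < n + 5 + (l + 3) →
        S.Arrow (f i) (f j) p ∧ (S.Exc l (S.tl (f i) p) (f j) ↔ a2 = true) := by
      intro i j hij hj
      have h1 := hcol i j hij hj
      by_cases h2 : ∃ p, p ≤ Δ ∧ S.Arrow (f i) (f j) p
      · simp only [col] at h1
        rw [dif_pos h2] at h1
        have h3 := congrArg Prod.fst h1
        have h4 := congrArg Prod.snd h1
        simp only [Option.some.injEq] at h3
        have h5 : h2.choose = (p : ℕ) := congrArg Fin.val h3
        refine ⟨?_, ?_⟩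
        · have := h2.choose_spec.2
          rwa [h5] at this
        · have h6 : decide (S.Exc l (S.tl (f i) h2.choose) (f j)) = a2 := h4
          rw [h5] at h6
          rw [← h6, decide_eq_true_iff]
      · simp only [col] at h1
        rw [dif_neg h2] at h1
        simp at h1
    have hp : (p : ℕ) ≤ Δ := Nat.le_of_lt_succ p.2
    rcases a2 with _ | _
    · exact (nonexc_arrow l hl V k H N Δ p S hp f hf (hfN _ (by omega))
        (fun i j hij hj => (key i j hij (by omega)).1)
        (fun i j hij hj h => by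
          have := (key i j hij (by omega)).2.1 h
          simp at this)).elim
    · exact exc_arrow l V k H N _ Δ p S f hf (hfN _ (by omega))
        (fun i h1 h2 => (key 0 i (by omega) (by omega)).1)
        (fun i h1 h2 => (key 0 i (by omega) (by omega)).2.2 rfl)

end Pool.Agent.Work.MP_c4d05f_lc.Hav
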