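import Pool.Agent.Work.MP_c4d05f_lc.N.Hav.StgEx
import Pool.Agent.Work.MP_c4d05f_lc.N.Hav.StgS

/-!
# Long vertices exist
-/

set_option autoImplicit false

namespace Pool.Agent.Work.MP_c4d05f_lc.Hav

/-- **Long vertices exist**: some ball of radius `L` is detached by a bounded number of vertices. -/
theorem exists_long (l L m : ℕ) (hl : 1 ≤ l) : ∃ K : ℕ, ∀ (V : Type) (k : ℕ)
    (H : HS V k) (X : Finset V), ¬ HasS H.G l → X.card + K ≤ k → (∀ u ∈ H.β X, H.Small m u) →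
    ∃ (Y Z : Finset V) (v : V), X ⊆ Y ∧ Y ⊆ Z ∧ Z.card ≤ X.card + K ∧ v ∈ H.β Y ∧
      ∀ u, Near H.G (H.β Y) v L u → H.Det Z u := by
  obtain ⟨N, hN⟩ := stages_hasS l (L + l) hl
  obtain ⟨K, hK⟩ := stages_exist l L m (l * (l + 1) ^ 2) N hl
    (Nat.mul_pos hl (by positivity))
  refine ⟨K, fun V k H X hS hX hsm => ?_⟩
  by_contra hcon
  push Not at hcon
  obtain ⟨S⟩ := hK V k H X hS hX hsm hcon
  exact hS (hN V k H S)

end Pool.Agent.Work.MP_c4d05f_lc.Hav
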