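import Pool.Agent.Work.MP_c4d05f_lc.N.Hav.Nr

/-!
# The way out of a long ball (module `Out`, size M-L)

PROOF. Let `ball = {x | Near (β X) v L x}`, `A = β X \ ball`, `z₀ ∈ β Z` (`H.nonempty`),
`E = {x | Reach G A z₀ x}`. `β Z ⊆ β X` is connected and disjoint from the ball (whose members are
detached at `Z`), so `β Z ⊆ E ⊆ A` (`z₀ ∈ A`). `geod_set` in the connected set `β X` from `v` to `E`:
`x 0 = v, …, x d ∈ E`, `x i ∉ E` for `i < d`; `v ∉ E` (it is in the ball), so `d ≥ 1`;
`e = x (d-1) ∉ E` is adjacent to `e' = x d ∈ E`, and `e ∈ β X`, so `e` is in the ball (otherwise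
`e ∈ A` and `e ∈ E`). `e` has exact level `L`: if `Near (β X) v j e` with `j < L`, then
`Near … (j+1) e'`, so `e'` is in the ball, but `e' ∈ A`. Let `p` be the geodesic from `v` to `e`
(`geod`): exactly `L` steps, `p 0 = v`, `p L = e`, `p i` has exact level `i`. For `i < L` and
`q ∈ E`: `q` is not in the ball, so `p i ≠ q` and `p i` is not adjacent to `q` (`near_step` would give
`Near … (i+1) q`).

Choice of `Q`: among the sets `Q ⊆ E` with `e' ∈ Q`, `Conn Q`, for which there is `Y` with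
`Y.card ≤ c + m` and all `q ∈ Q` detached at `Y`, take one with the largest number of elements
(`V` is finite; `{e'}` is such a set, since `e'` is `Small m`). Suppose `Y'.card < c` and all `q ∈ Q`
are detached at `Y'`. `HS.common` for `Y'` and `Z` gives `u ∈ β Y' ∩ β Z`, so `u ∈ E`, `u ∉ Q`.
On a walk from `e'` to `u` inside `E` (from `E` being a connected component: `reach_symm` and
transitivity, all vertices of these walks are in `E`) there is an edge from `q ∈ Q` to
`x ∈ E \ Q`. `Q ∪ {x}` is connected, `x` is `Small m` (`X_x`), and all members of `Q ∪ {x}` are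
detached at `Y' ∪ X_x` (`card ≤ (c - 1) + m ≤ k`; `HS.Det.mono`): contradiction to the maximality.
-/

set_option autoImplicit false

namespace Pool.Agent.Work.MP_c4d05f_lc.Hav

open Pool.Agent.Work.MP_c4d05f_lc (Reach Step)

private theorem cross {V : Type} {G : SimpleGraph V} {A Q : Set V} {s e u : V}
    (hs : Reach G A s e) (he : e ∈ Q) (h : Reach G A e u) (hu : u ∉ Q) :
    ∃ q ∈ Q, ∃ x, Reach G A s x ∧ x ∉ Q ∧ G.Adj q x := by
  unfold Reach at h
  induction h with
  | refl => exact absurd he hu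
  | tail h1 h2 ih =>
    rename_i b w
    by_cases hb : b ∈ Q
    · exact ⟨b, hb, w, (Relation.ReflTransGen.trans hs h1).tail h2, hu, h2.1⟩
    · exact ih hb

/-- **The way out of a long ball.** -/
theorem way_out (L m c : ℕ) (V : Type) [Finite V] (k : ℕ) (H : HS V k) (X Z : Finset V) (v : V)
    (hXZ : X ⊆ Z) (hZ : Z.card + c + m ≤ k) (hsm : ∀ u ∈ H.β X, H.Small m u)
    (hv : v ∈ H.β X) (hlong : ∀ u, Near H.G (H.β X) v L u → H.Det Z u) :
    ∃ (p : ℕ → V) (Q : Set V) (Y : Finset V), IndSeq H.G (L + 1) p ∧ (∀ i ≤ L, p i ∈ H.β X) ∧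
      Q ⊆ H.β X ∧ Conn H.G Q ∧ (∃ q ∈ Q, H.G.Adj (p L) q) ∧
      (∀ i < L, ∀ q ∈ Q, Apart H.G (p i) q) ∧ p L ∉ Q ∧ Y.card ≤ c + m ∧
      (∀ q ∈ Q, H.Det Y q) ∧ ∀ Y' : Finset V, Y'.card < c → ∃ q ∈ Q, ¬ H.Det Y' q := by
  classical
  have hXk : X.card ≤ k := (Finset.card_le_card hXZ).trans (by omega)
  set A : Set V := {x | x ∈ H.β X ∧ ¬ Near H.G (H.β X) v L x} with hA
  obtain ⟨z₀, hz₀⟩ := H.nonempty Z (by omega)
  have hZX : H.β Z ⊆ H.β X := H.mono X Z hXZ (by omega)
  have hZA : H.β Z ⊆ A := fun u hu => ⟨hZX hu, fun h => (hlong u h).1 hu⟩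
  have hz₀A : z₀ ∈ A := hZA hz₀
  set E : Set V := {x | Reach H.G A z₀ x} with hE
  have hEA : E ⊆ A := by
    intro x hx
    obtain ⟨n, hn⟩ := reach_iff_near.1 (show Reach H.G A z₀ x from hx)
    rcases near_mem hn with h | h
    · rw [h]
      exact hz₀A
    · exact h
  have hZE : H.β Z ⊆ E := fun u hu => reach_mono_set hZA (H.conn Z (by omega) z₀ hz₀ u hu)
  obtain ⟨d, x, hx, hx0, hxd, hxm, hxE, -⟩ := geod_set (H.conn X hXk) hv (B := E)
    ⟨z₀, hZE hz₀, hZX hz₀⟩
  have hd : d ≠ 0 := by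
    rintro rfl
    rw [hx0] at hxd
    exact (hEA hxd).2 (near_self v L)
  have hee : H.G.Adj (x (d - 1)) (x d) := by
    have := hx.adj (i := d - 1) (by omega)
    rwa [show d - 1 + 1 = d from by omega] at this
  have heE : x (d - 1) ∉ E := hxE _ (by omega)
  have heX : x (d - 1) ∈ H.β X := hxm _ (by omega)
  have hball : Near H.G (H.β X) v L (x (d - 1)) := by
    by_contra hcon
    exact heE (Relation.ReflTransGen.tail (show Reach H.G A z₀ (x d) from hxd)
      ⟨hee.symm, heX, hcon⟩)
  have hlev : ∀ j < L, ¬ Near H.G (H.β X) v j (x (d - 1)) := by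
    intro j hj hcon
    exact (hEA hxd).2 (near_mono (by omega) (near_step hcon hee (hEA hxd).1))
  obtain ⟨m', hm', p, hp, hp0, hpm, hpA, hpl⟩ := geod hball
  have hmL : m' = L := by
    by_contra hcon
    refine hlev m' (by omega) ?_
    have := (hpl m' le_rfl).1
    rwa [hpm] at this
  subst hmL
  have hpX : ∀ i ≤ m', p i ∈ H.β X := by
    intro i hi
    rcases Nat.eq_zero_or_pos i with h | h
    · rw [h, hp0]
      exact hv
    · exact hpA i h hi
  have hapart : ∀ i < m', ∀ q ∈ E, Apart H.G (p i) q := by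
    intro i hi q hq
    have h1 := (hpl i (by omega)).1
    refine ⟨fun h => ?_, fun h => ?_⟩
    · exact (hEA hq).2 (h ▸ near_mono (by omega) h1)
    · exact (hEA hq).2 (near_mono (by omega) (near_step h1 h (hEA hq).1))
  let S : Set (Set V) := {Q | Q ⊆ E ∧ x d ∈ Q ∧ Conn H.G Q ∧
    ∃ Y : Finset V, Y.card ≤ c + m ∧ ∀ q ∈ Q, H.Det Y q}
  have hSne : S.Nonempty := by
    obtain ⟨Y, hY1, hY2⟩ := hsm (x d) (hEA hxd).1
    refine ⟨{x d}, ?_, rfl, ?_, Y, by omega, ?_⟩
    · intro q hq
      rw [Set.mem_singleton_iff.1 hq]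
      exact hxd
    · intro a ha b hb
      rw [Set.mem_singleton_iff.1 ha, Set.mem_singleton_iff.1 hb]
      exact Relation.ReflTransGen.refl
    · intro q hq
      rw [Set.mem_singleton_iff.1 hq]
      exact hY2
  obtain ⟨Q, ⟨hQE, heQ, hQc, Y, hY, hQY⟩, hQmax⟩ := (Set.toFinite S).exists_maximal hSne
  refine ⟨p, Q, Y, hp, hpX, fun q hq => (hEA (hQE hq)).1, hQc, ⟨x d, heQ, ?_⟩,
    fun i hi q hq => hapart i hi q (hQE hq), ?_, hY, hQY, ?_⟩
  · rw [hpm]
    exact hee
  · rw [hpm]
    exact fun h => heE (hQE h)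
  · intro Y' hY'
    by_contra hcon
    push Not at hcon
    obtain ⟨u, hu1, hu2⟩ := H.common (Y := Y') (Z := Z) (by omega)
    have huQ : u ∉ Q := fun h => (hcon u h).1 hu1
    have hreach : Reach H.G A (x d) u :=
      Relation.ReflTransGen.trans (reach_symm hz₀A hxd) (hZE hu2)
    obtain ⟨q, hq, w, hw, hwQ, hqw⟩ := cross hxd heQ hreach huQ
    obtain ⟨Xw, hXw1, hXw2⟩ := hsm w (hEA hw).1
    have hcard : (Y' ∪ Xw).card ≤ c + m := by
      have := Finset.card_union_le Y' Xw
      omega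
    have hmem : insert w Q ∈ S := by
      refine ⟨Set.insert_subset hw hQE, Set.mem_insert_of_mem _ heQ, ?_, Y' ∪ Xw, hcard, ?_⟩
      · intro a ha b hb
        rcases Set.mem_insert_iff.1 ha with ha' | ha'
        · rcases Set.mem_insert_iff.1 hb with hb' | hb'
          · rw [ha', hb']
            exact Relation.ReflTransGen.refl
          · rw [ha']
            refine Relation.ReflTransGen.head (b := q) ⟨hqw.symm, Set.mem_insert_of_mem _ hq⟩ ?_
            exact reach_mono_set (Set.subset_insert _ _) (hQc q hq b hb')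
        · rcases Set.mem_insert_iff.1 hb with hb' | hb'
          · rw [hb']
            refine Relation.ReflTransGen.tail (b := q) ?_ ⟨hqw, Set.mem_insert _ _⟩
            exact reach_mono_set (Set.subset_insert _ _) (hQc a ha' q hq)
          · exact reach_mono_set (Set.subset_insert _ _) (hQc a ha' b hb')
      · intro a ha
        rcases Set.mem_insert_iff.1 ha with rfl | ha
        · exact hXw2.mono Finset.subset_union_right (by omega)
        · exact (hcon a ha).mono Finset.subset_union_left (by omega)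
    exact hwQ (hQmax hmem (Set.subset_insert _ _) (Set.mem_insert _ _))

end Pool.Agent.Work.MP_c4d05f_lc.Hav
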