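import Pool.Agent.Work.MP_c4d05f_lc.N.Hav.Greedy
import Pool.Agent.Work.MP_c4d05f_lc.N.Hav.Long
import Pool.Agent.Work.MP_c4d05f_lc.N.Hav.Out

/-!
# Many anticomplete arms with robust ends (module `Many`, size M-L)

`p i 0, …, p i (A-1)` is the arm number `i`, `p i A` its end, `Q i` a connected set adjacent to the
end.

PROOF. `s, m` from `greedy l`, `K₁` from `exists_long l A m`, `c = s + n * A * m + z + 1`,
`T = K₁ + (c + m) + (A + 1) * m`, `K = s + n * T + c + m + z` (anything large enough).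
`X₀` from `greedy` (`card ≤ s`): every `u ∈ β X` with `X₀ ⊆ X`, `X.card ≤ k` is `Small m`
(`HS.not_dead`, `HS.Dead.mono`). Build for `i < n`, with `Ext X₀ (i * T) (X i)`: `exists_long` at `X i`
gives `Y ⊆ Z`, `v` with `Z.card ≤ (X i).card + K₁`; `way_out A m c` at `Y ⊆ Z` gives `p i`, `Q i` and
`Y'` (`card ≤ c + m`) at which all of `Q i` is detached; `HS.kill` of `p i 0, …, p i A` gives, starting
from `Z ∪ Y'`, the set `X (i+1)` with `card ≤ (X i).card + T`; all of `Q i` and `p i j`, `j ≤ A`, are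
detached at `X (i+1)`. For `i < i'` the sets of the stage `i'` are in `β Y ⊆ β (X i') ⊆ β (X (i+1))`, so
they are anticomplete to those of the stage `i` (`HS.Det.apart`).
Finally `X` is obtained from `X₀` by `HS.kill` of the `n * A` vertices `p i j`, `j < A`
(`t ↦ p (t / A) (t % A)`): `X.card ≤ s + n * A * m`. If `Ext X z Z` then `Z.card < c`, so some
`q ∈ Q i` is not detached at `Z`. `X.card + z ≤ K ≤ k`.
-/

set_option autoImplicit false

namespace Pool.Agent.Work.MP_c4d05f_lc.Hav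

/-- one arm -/
private structure ManyArm {V : Type} {k : ℕ} (H : HS V k) (A c : ℕ) (X₀ X : Finset V) (p : ℕ → V)
    (Q : Set V) : Prop where
  ind : IndSeq H.G (A + 1) p
  mem : ∀ j ≤ A, p j ∈ H.β X₀
  conn : Conn H.G Q
  adj : ∃ q ∈ Q, H.G.Adj (p A) q
  apart : ∀ j < A, ∀ q ∈ Q, Apart H.G (p j) q
  notin : p A ∉ Q
  robust : ∀ Y' : Finset V, Y'.card < c → ∃ q ∈ Q, ¬ H.Det Y' q
  detQ : ∀ q ∈ Q, H.Det X q
  detp : ∀ j ≤ A, H.Det X (p j)

private theorem ManyArm.mono {V : Type} {k : ℕ} {H : HS V k} {A c : ℕ} {X₀ X X' : Finset V}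
    {p : ℕ → V} {Q : Set V} (h : ManyArm H A c X₀ X p Q) (hX : X ⊆ X') (hk : X'.card ≤ k) :
    ManyArm H A c X₀ X' p Q :=
  ⟨h.ind, h.mem, h.conn, h.adj, h.apart, h.notin, h.robust,
    fun q hq => (h.detQ q hq).mono hX hk, fun j hj => (h.detp j hj).mono hX hk⟩

private theorem many_stage {l A m K₁ c s k : ℕ} {V : Type} [Finite V] (H : HS V k)
    (hlong : ∀ (V : Type) (k : ℕ) (H : HS V k) (X : Finset V), ¬ HasS H.G l →
      X.card + K₁ ≤ k → (∀ u ∈ H.β X, H.Small m u) →
      ∃ (Y Z : Finset V) (v : V), X ⊆ Y ∧ Y ⊆ Z ∧ Z.card ≤ X.card + K₁ ∧ v ∈ H.β Y ∧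
        ∀ u, Near H.G (H.β Y) v A u → H.Det Z u)
    (hS : ¬ HasS H.G l) (X₀ : Finset V) (hX₀ : X₀.card ≤ s)
    (hsm : ∀ u ∈ H.β X₀, H.Small m u) (n : ℕ)
    (hk : s + n * (K₁ + (c + m) + (A + 1) * m) ≤ k) :
    ∃ (X : Finset V) (p : ℕ → ℕ → V) (Q : ℕ → Set V),
      Ext X₀ (n * (K₁ + (c + m) + (A + 1) * m)) X ∧
      (∀ i < n, ManyArm H A c X₀ X (p i) (Q i)) ∧
      ∀ i i', i < i' → i' < n →
        Anti H.G (Q i ∪ {x | ∃ j ≤ A, x = p i j}) (Q i' ∪ {x | ∃ j ≤ A, x = p i' j}) := by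
  classical
  induction n with
  | zero =>
    have hV : ∃ _v : V, True := by
      obtain ⟨v, -⟩ := H.nonempty X₀ (by omega)
      exact ⟨v, trivial⟩
    obtain ⟨v, -⟩ := hV
    exact ⟨X₀, fun _ _ => v, fun _ => ∅, Ext.refl _ _, fun i hi => absurd hi (by omega),
      fun i i' _ hi' => absurd hi' (by omega)⟩
  | succ n ih =>
    have hmul : (n + 1) * (K₁ + (c + m) + (A + 1) * m)
        = n * (K₁ + (c + m) + (A + 1) * m) + (K₁ + (c + m) + (A + 1) * m) := by ring
    rw [hmul] at hk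
    obtain ⟨X, p, Q, hX, harm, hanti⟩ := ih (by omega)
    generalize hN : n * (K₁ + (c + m) + (A + 1) * m) = N at *
    have hXc := hX.2
    have hsmX : ∀ u ∈ H.β X, H.Small m u := fun u hu =>
      hsm u (H.mono X₀ X hX.1 (by omega) hu)
    obtain ⟨Y, Z, v, hXY, hYZ, hZc, hv, hdet⟩ := hlong V k H X hS (by omega) hsmX
    have hYc : Y.card ≤ Z.card := Finset.card_le_card hYZ
    have hsmY : ∀ u ∈ H.β Y, H.Small m u := fun u hu =>
      hsmX u (H.mono X Y hXY (by omega) hu)
    obtain ⟨p', Q', Y', hind, hmem, hQ', hconn, hadj, hap, hnot, hY'c, hdQ, hrob⟩ :=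
      way_out A m c V k H Y Z v hYZ (by omega) hsmY hv hdet
    have hUc : (Z ∪ Y').card ≤ Z.card + Y'.card := Finset.card_union_le _ _
    obtain ⟨X', hX', hdp⟩ := H.kill (A + 1) (X := Z ∪ Y') (m := m) (by omega) p'
      (fun i hi => hsmY _ (hmem i (by omega)))
    have hX'c := hX'.2
    have hX'k : X'.card ≤ k := by omega
    have hZX' : Z ⊆ X' := Finset.subset_union_left.trans hX'.1
    have hYX' : Y' ⊆ X' := Finset.subset_union_right.trans hX'.1
    have hXX' : X ⊆ X' := hXY.trans (hYZ.trans hZX')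
    have hβ : ∀ u ∈ H.β Y, u ∈ H.β X := fun u hu => H.mono X Y hXY (by omega) hu
    have hnew : ManyArm H A c X₀ X' p' Q' := by
      refine ⟨hind, fun j hj => ?_, hconn, hadj, hap, hnot, hrob, fun q hq => ?_, fun j hj => ?_⟩
      · exact H.mono X₀ X hX.1 (by omega) (hβ _ (hmem j hj))
      · exact (hdQ q hq).mono hYX' hX'k
      · exact hdp j (by omega)
    refine ⟨X', fun j => if j = n then p' else p j, fun j => if j = n then Q' else Q j, ?_, ?_, ?_⟩
    · rw [hmul]
      refine ⟨hX.1.trans hXX', ?_⟩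
      omega
    · intro i hi
      by_cases hin : i = n
      · simp only [hin, if_true]
        exact hnew
      · simp only [hin, if_false]
        exact (harm i (by omega)).mono hXX' hX'k
    · intro i i' hii' hi'
      have hin : i ≠ n := by omega
      by_cases hi'n : i' = n
      · simp only [hi'n, if_true, hin, if_false]
        have ha := harm i (by omega)
        intro u hu w hw
        have hud : H.Det X u := by
          rcases hu with hu | ⟨j, hj, rfl⟩
          · exact ha.detQ u hu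
          · exact ha.detp j hj
        have hwb : w ∈ H.β X := by
          rcases hw with hw | ⟨j, hj, rfl⟩
          · exact hβ w (hQ' hw)
          · exact hβ _ (hmem j hj)
        exact hud.apart hwb
      · simp only [hi'n, hin, if_false]
        exact hanti i i' hii' (by omega)

/-- **Many anticomplete arms with robust ends.** -/
theorem many (l A n z : ℕ) (hl : 1 ≤ l) : ∃ K : ℕ, ∀ (V : Type) [Finite V] (k : ℕ) (H : HS V k),
    K ≤ k → ¬ HasS H.G l →
    ∃ (X : Finset V) (p : ℕ → ℕ → V) (Q : ℕ → Set V), X.card + z ≤ k ∧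
      (∀ i < n, IndSeq H.G (A + 1) (p i) ∧ Conn H.G (Q i) ∧ (∃ q ∈ Q i, H.G.Adj (p i A) q) ∧
        (∀ j < A, ∀ q ∈ Q i, Apart H.G (p i j) q) ∧ p i A ∉ Q i ∧
        (∀ j < A, H.Det X (p i j)) ∧ ∀ Z, Ext X z Z → ∃ q ∈ Q i, ¬ H.Det Z q) ∧
      ∀ i i', i < i' → i' < n →
        Anti H.G (Q i ∪ {x | ∃ j ≤ A, x = p i j}) (Q i' ∪ {x | ∃ j ≤ A, x = p i' j}) := by
  obtain ⟨s, m, hg⟩ := greedy l
  obtain ⟨K₁, hlong⟩ := exists_long l A m hl
  obtain ⟨c, hc⟩ : ∃ c, c = s + n * A * m + z + 1 := ⟨_, rfl⟩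
  refine ⟨s + n * (K₁ + (c + m) + (A + 1) * m) + c + m + z, fun V _ k H hK hS => ?_⟩
  obtain ⟨X₀, hX₀c, hX₀⟩ := hg V k H (by omega) hS
  have hsm : ∀ u ∈ H.β X₀, H.Small m u := fun u hu => hX₀ u (H.not_dead (by omega) hu)
  obtain ⟨X₁, p, Q, -, harm, hanti⟩ := many_stage (l := l) (A := A) (m := m) (K₁ := K₁) (c := c)
    (s := s) H hlong hS X₀ hX₀c hsm n (by omega)
  obtain ⟨X, hX, hdX⟩ := H.kill (n * A) (X := X₀) (m := m) (by omega)
    (fun t => p (t / A) (t % A)) (by
      intro t ht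
      have hA : 0 < A := by
        rcases Nat.eq_zero_or_pos A with h | h
        · rw [h] at ht
          omega
        · exact h
      have h1 : t / A < n := by
        rw [Nat.div_lt_iff_lt_mul hA]
        exact ht
      exact hsm _ ((harm _ h1).mem _ (Nat.mod_lt _ hA).le))
  have hXc := hX.2
  refine ⟨X, p, Q, by omega, fun i hi => ?_, hanti⟩
  have ha := harm i hi
  refine ⟨ha.ind, ha.conn, ha.adj, ha.apart, ha.notin, fun j hj => ?_, fun Z hZ => ?_⟩
  · have hA : 0 < A := by omega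
    have ht : i * A + j < n * A := by
      calc i * A + j < i * A + A := by omega
        _ = (i + 1) * A := by ring
        _ ≤ n * A := Nat.mul_le_mul_right A hi
    have h1 := hdX (i * A + j) ht
    have e1 : (i * A + j) / A = i := by
      rw [Nat.mul_comm, Nat.mul_add_div hA, Nat.div_eq_of_lt hj, Nat.add_zero]
    have e2 : (i * A + j) % A = j := by
      rw [Nat.mul_comm, Nat.mul_add_mod, Nat.mod_eq_of_lt hj]
    beta_reduce at h1
    rw [e1, e2] at h1
    exact h1
  · have := hZ.2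
    exact ha.robust Z (by omega)

end Pool.Agent.Work.MP_c4d05f_lc.Hav
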