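import Pool.Agent.Work.MP_c4d05f_lc.N.Hav.Bas
import Pool.Agent.Work.MP_c4d05f_lc.SP

/-!
# Walks with at most `n` steps, shortest paths (module `Nr`, size M)

`Near G A a n b` is defined by recursion in `Defs`. `Reach G A a b` is a reflexive transitive
closure (`Relation.ReflTransGen (Step G A) a b`, `Step G A a b = (G.Adj a b ∧ b ∈ A)`).
-/

set_option autoImplicit false

namespace Pool.Agent.Work.MP_c4d05f_lc.Hav

open Pool.Agent.Work.MP_c4d05f_lc (Reach Step)

variable {V : Type} {G : SimpleGraph V} {A : Set V}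

theorem near_self (a : V) (n : ℕ) : Near G A a n a := by
  induction n with
  | zero => rfl
  | succ n ih => exact Or.inl ih

theorem near_mono {a b : V} {m n : ℕ} (hmn : m ≤ n) (h : Near G A a m b) : Near G A a n b := by
  induction n, hmn using Nat.le_induction with
  | base => exact h
  | succ n _ ih => exact Or.inl ih

theorem near_mono_set {B : Set V} (hAB : A ⊆ B) {a b : V} {n : ℕ} (h : Near G A a n b) :
    Near G B a n b := by
  induction n generalizing b with
  | zero => exact h
  | succ n ih =>
    rcases h with h | ⟨c, hc, hcb, hb⟩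
    · exact Or.inl (ih h)
    · exact Or.inr ⟨c, ih hc, hcb, hAB hb⟩

theorem near_step {a b c : V} {n : ℕ} (h : Near G A a n b) (hbc : G.Adj b c) (hc : c ∈ A) :
    Near G A a (n + 1) c := by
  exact Or.inr ⟨b, h, hbc, hc⟩

theorem near_mem {a b : V} {n : ℕ} (h : Near G A a n b) : b = a ∨ b ∈ A := by
  induction n generalizing b with
  | zero => exact Or.inl h
  | succ n ih =>
    rcases h with h | ⟨c, _, _, hb⟩
    · exact ih h
    · exact Or.inr hb

theorem near_trans {a b c : V} {m n : ℕ} (h1 : Near G A a m b) (h2 : Near G A b n c) :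
    Near G A a (m + n) c := by
  induction n generalizing c with
  | zero =>
    have h2' : c = b := h2
    rw [h2']; exact h1
  | succ n ih =>
    rcases h2 with h2 | ⟨d, hd, hdc, hc⟩
    · exact Or.inl (ih h2)
    · exact Or.inr ⟨d, ih hd, hdc, hc⟩

theorem near_symm {a b : V} (ha : a ∈ A) {n : ℕ} (h : Near G A a n b) : Near G A b n a := by
  induction n generalizing b with
  | zero =>
    have h' : b = a := h
    rw [h']; exact near_self a 0
  | succ n ih =>
    rcases h with h | ⟨c, hc, hcb, _⟩
    · exact Or.inl (ih h)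
    · have hcA : c ∈ A := by
        rcases near_mem hc with h' | h'
        · rw [h']; exact ha
        · exact h'
      have h1 : Near G A b 1 c := near_step (near_self b 0) hcb.symm hcA
      have h2 := near_trans h1 (ih hc)
      rwa [Nat.add_comm] at h2

theorem reach_iff_near {a b : V} : Reach G A a b ↔ ∃ n, Near G A a n b := by
  constructor
  · intro h
    induction h with
    | refl => exact ⟨0, near_self a 0⟩
    | tail _ hs ih =>
      obtain ⟨n, hn⟩ := ih
      exact ⟨n + 1, near_step hn hs.1 hs.2⟩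
  · rintro ⟨n, hn⟩
    induction n generalizing b with
    | zero =>
      have h' : b = a := hn
      rw [h']; exact Relation.ReflTransGen.refl
    | succ n ih =>
      rcases hn with hn | ⟨c, hc, hcb, hb⟩
      · exact ih hn
      · exact Relation.ReflTransGen.tail (ih hc) ⟨hcb, hb⟩

theorem reach_symm {a b : V} (ha : a ∈ A) (h : Reach G A a b) : Reach G A b a := by
  obtain ⟨n, hn⟩ := reach_iff_near.1 h
  exact reach_iff_near.2 ⟨n, near_symm ha hn⟩

theorem reach_mono_set {B : Set V} (hAB : A ⊆ B) {a b : V} (h : Reach G A a b) :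
    Reach G B a b := by
  obtain ⟨n, hn⟩ := reach_iff_near.1 h
  exact reach_iff_near.2 ⟨n, near_mono_set hAB hn⟩

/-- A ball is connected by walks inside the ball. -/
theorem near_ball {a b : V} {m n : ℕ} (hmn : m ≤ n) (h : Near G A a m b) :
    Near G {x | Near G A a n x} a m b := by
  induction m generalizing b with
  | zero => exact h
  | succ m ih =>
    rcases h with h | ⟨c, hc, hcb, hb⟩
    · exact Or.inl (ih (by omega) h)
    · exact Or.inr ⟨c, ih (by omega) hc, hcb, near_mono hmn (near_step hc hcb hb)⟩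

/-- A sequence `p 0, …, p n` of vertices, consecutive ones equal or adjacent, gives a walk. -/
theorem near_of_seq {n : ℕ} (p : ℕ → V)
    (h : ∀ i < n, p i = p (i + 1) ∨ (G.Adj (p i) (p (i + 1)) ∧ p (i + 1) ∈ A)) :
    Near G A (p 0) n (p n) := by
  induction n with
  | zero => exact near_self _ 0
  | succ n ih =>
    have ih' := ih (fun i hi => h i (by omega))
    rcases h n (by omega) with h1 | ⟨h1, h2⟩
    · rw [← h1]; exact Or.inl ih'
    · exact near_step ih' h1 h2

/-- Conversely. -/
theorem seq_of_near {a b : V} {n : ℕ} (h : Near G A a n b) :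
    ∃ p : ℕ → V, p 0 = a ∧ p n = b ∧
      ∀ i < n, p i = p (i + 1) ∨ (G.Adj (p i) (p (i + 1)) ∧ p (i + 1) ∈ A) := by
  induction n generalizing b with
  | zero =>
    have h' : b = a := h
    exact ⟨fun _ => a, rfl, h'.symm, fun i hi => absurd hi (by omega)⟩
  | succ n ih =>
    have key : ∃ c, Near G A a n c ∧ (c = b ∨ (G.Adj c b ∧ b ∈ A)) := by
      rcases h with h | ⟨c, hc, hcb, hb⟩
      · exact ⟨b, h, Or.inl rfl⟩
      · exact ⟨c, hc, Or.inr ⟨hcb, hb⟩⟩
    obtain ⟨c, hc, hcb⟩ := key
    obtain ⟨p, hp0, hpn, hp⟩ := ih hc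
    refine ⟨fun i => if i ≤ n then p i else b, by simp [hp0], by simp, ?_⟩
    intro i hi
    rcases Nat.lt_or_ge i n with h1 | h1
    · have e1 : i ≤ n := h1.le
      have e2 : i + 1 ≤ n := h1
      simp only [e1, e2, if_true]
      exact hp i h1
    · have e1 : i = n := by omega
      subst e1
      have e2 : ¬ (i + 1 ≤ i) := by omega
      simp only [le_refl, if_true, e2, if_false, hpn]
      exact hcb

private theorem geod_aux {a : V} (m : ℕ) : ∀ b : V, Near G A a m b →
    (∀ j < m, ¬ Near G A a j b) →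
    ∃ u : ℕ → V, u 0 = a ∧ u m = b ∧ (∀ i, 1 ≤ i → i ≤ m → u i ∈ A) ∧
      (∀ i < m, G.Adj (u i) (u (i + 1))) ∧
      ∀ i ≤ m, Near G A a i (u i) ∧ ∀ j < i, ¬ Near G A a j (u i) := by
  induction m with
  | zero =>
    intro b hb _
    have hb' : b = a := hb
    refine ⟨fun _ => a, rfl, hb'.symm, fun i h1 h2 => absurd h1 (by omega),
      fun i hi => absurd hi (by omega), ?_⟩
    intro i hi
    have : i = 0 := by omega
    subst this
    exact ⟨near_self a 0, fun j hj => absurd hj (by omega)⟩
  | succ m ih =>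
    intro b hb hmin
    rcases hb with hb | ⟨c, hc, hcb, hbA⟩
    · exact absurd hb (hmin m (by omega))
    · have hcmin : ∀ j < m, ¬ Near G A a j c := by
        intro j hj hjc
        exact hmin (j + 1) (by omega) (near_step hjc hcb hbA)
      obtain ⟨u, hu0, hum, huA, hadj, hlev⟩ := ih c hc hcmin
      have e0 : ¬ (m + 1 ≤ m) := by omega
      refine ⟨fun i => if i ≤ m then u i else b, by simp [hu0], by simp, ?_, ?_, ?_⟩
      · intro i h1 h2
        rcases Nat.lt_or_ge m i with h3 | h3
        · have : ¬ (i ≤ m) := by omega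
          simp only [this, if_false]
          exact hbA
        · simp only [h3, if_true]
          exact huA i h1 h3
      · intro i hi
        rcases Nat.lt_or_ge i m with h1 | h1
        · have e1 : i ≤ m := h1.le
          have e2 : i + 1 ≤ m := h1
          simp only [e1, e2, if_true]
          exact hadj i h1
        · have e1 : i = m := by omega
          subst e1
          simp only [le_refl, if_true, e0, if_false, hum]
          exact hcb
      · intro i hi
        rcases Nat.lt_or_ge m i with h3 | h3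
        · have e1 : i = m + 1 := by omega
          subst e1
          simp only [e0, if_false]
          exact ⟨near_step hc hcb hbA, hmin⟩
        · simp only [h3, if_true]
          exact hlev i h3

/-- **Geodesics.** Take the least `m` with `Near G A a m b`; induction on `m`: the last step of a
walk of `m` steps comes from some `c` with `Near G A a (m-1) c` and not nearer. The vertices of a
geodesic `u` have exact level `i` (`Near … i (u i)`, not `Near … j (u i)` for `j < i`), so they are
different, and `u i ~ u j` with `i < j` gives `Near … (i+1) (u j)` by `near_step`, so `j = i+1`. -/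
theorem geod {a b : V} {n : ℕ} (h : Near G A a n b) :
    ∃ m ≤ n, ∃ u : ℕ → V, IndSeq G (m + 1) u ∧ u 0 = a ∧ u m = b ∧
      (∀ i, 1 ≤ i → i ≤ m → u i ∈ A) ∧
      ∀ i ≤ m, Near G A a i (u i) ∧ ∀ j < i, ¬ Near G A a j (u i) := by
  classical
  have hex : ∃ m, Near G A a m b := ⟨n, h⟩
  obtain ⟨u, hu0, hum, huA, hadj, hlev⟩ := geod_aux (Nat.find hex) b (Nat.find_spec hex)
    (fun j hj => Nat.find_min hex hj)
  refine ⟨Nat.find hex, Nat.find_min' hex h, u, ?_, hu0, hum, huA, hlev⟩
  intro i j hij hj
  refine ⟨?_, ?_, ?_⟩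
  · intro he
    exact (hlev j (by omega)).2 i hij (he ▸ (hlev i (by omega)).1)
  · intro hA'
    have h1 : Near G A a (i + 1) (u j) :=
      near_step (hlev i (by omega)).1 hA' (huA j (by omega) (by omega))
    by_contra hne
    exact (hlev j (by omega)).2 (i + 1) (by omega) h1
  · intro he
    rw [he]
    exact hadj i (by omega)

/-- **Shortest path from a vertex to a set** inside a connected set `A`. Take the least `d` such
that some `b ∈ B ∩ A` has `Near G A a d b`, and the geodesic to it (`geod`; it has exactly `d`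
steps). `x i` with `i < d` is not in `B` by minimality, and `x i` with `i + 1 < d` has no neighbour
`b ∈ B ∩ A`, because `Near … (i+1) b` by `near_step`. -/
theorem geod_set (hA : Conn G A) {a : V} (ha : a ∈ A) {B : Set V} (hB : ∃ b ∈ B, b ∈ A) :
    ∃ (d : ℕ) (x : ℕ → V), IndSeq G (d + 1) x ∧ x 0 = a ∧ x d ∈ B ∧ (∀ i ≤ d, x i ∈ A) ∧
      (∀ i < d, x i ∉ B) ∧ (∀ i, i + 1 < d → ∀ b ∈ B, b ∈ A → ¬ G.Adj (x i) b) := by
  classical
  obtain ⟨b0, hb0, hb0A⟩ := hB
  obtain ⟨n0, hn0⟩ := reach_iff_near.1 (hA a ha b0 hb0A)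
  have hex : ∃ m, ∃ b ∈ B, b ∈ A ∧ Near G A a m b := ⟨n0, b0, hb0, hb0A, hn0⟩
  obtain ⟨b, hbB, hbA, hb⟩ := Nat.find_spec hex
  have hmin : ∀ j < Nat.find hex, ∀ b ∈ B, b ∈ A → ¬ Near G A a j b := by
    intro j hj b hb hbA hjb
    exact Nat.find_min hex hj ⟨b, hb, hbA, hjb⟩
  generalize Nat.find hex = d at hb hmin
  obtain ⟨m, hmd, u, hind, hu0, hum, huA, hlev⟩ := geod hb
  have hmd' : m = d := by
    by_contra hne
    exact hmin m (by omega) b hbB hbA (hum ▸ (hlev m le_rfl).1)
  subst hmd'
  have hall : ∀ i ≤ m, u i ∈ A := by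
    intro i hi
    rcases Nat.eq_zero_or_pos i with h0 | h0
    · rw [h0, hu0]; exact ha
    · exact huA i h0 hi
  refine ⟨m, u, hind, hu0, hum ▸ hbB, hall, ?_, ?_⟩
  · intro i hi hiB
    exact hmin i hi (u i) hiB (hall i hi.le) (hlev i hi.le).1
  · intro i hi c hcB hcA hadj
    exact hmin (i + 1) hi c hcB hcA (near_step (hlev i (by omega)).1 hadj hcA)

/-- A geodesic between two vertices of a connected set: an induced path that is a shortest path, in
the form: if `x i` and `x j` have a common neighbour in `A` then `j ≤ i + 2`. -/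
theorem geod_conn (hA : Conn G A) {a b : V} (ha : a ∈ A) (hb : b ∈ A) :
    ∃ (d : ℕ) (x : ℕ → V), IndSeq G (d + 1) x ∧ x 0 = a ∧ x d = b ∧ (∀ i ≤ d, x i ∈ A) ∧
      ∀ i j, i ≤ j → j ≤ d → ∀ y ∈ A, G.Adj (x i) y → G.Adj y (x j) → j ≤ i + 2 := by
  obtain ⟨n, hn⟩ := reach_iff_near.1 (hA a ha b hb)
  obtain ⟨m, _, u, hind, hu0, hum, huA, hlev⟩ := geod hn
  have hall : ∀ i ≤ m, u i ∈ A := by
    intro i hi
    rcases Nat.eq_zero_or_pos i with h0 | h0
    · rw [h0, hu0]; exact ha
    · exact huA i h0 hi
  refine ⟨m, u, hind, hu0, hum, hall, ?_⟩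
  intro i j hij hj y hy h1 h2
  by_contra hne
  exact (hlev j hj).2 (i + 2) (by omega)
    (near_step (near_step (hlev i (by omega)).1 h1 hy) h2 (hall j hj))

end Pool.Agent.Work.MP_c4d05f_lc.Hav
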