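import Pool.Agent.Work.MP_c4d05f_lc.N.Hav.Defs

/-!
# Havens: basic facts
-/

set_option autoImplicit false

namespace Pool.Agent.Work.MP_c4d05f_lc.Hav

open Pool.Agent.Work.MP_c4d05f_lc (Reach)

variable {V : Type} {k : ℕ}

theorem Ext.refl (X : Finset V) (n : ℕ) : Ext X n X := ⟨Finset.Subset.refl _, Nat.le_add_right _ _⟩

theorem Ext.trans {X Y Z : Finset V} {m n : ℕ} (h1 : Ext X m Y) (h2 : Ext Y n Z) :
    Ext X (m + n) Z := ⟨h1.1.trans h2.1, by have := h1.2; have := h2.2; omega⟩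

theorem Ext.mono {X Y : Finset V} {m n : ℕ} (h1 : Ext X m Y) (h : m ≤ n) : Ext X n Y :=
  ⟨h1.1, h1.2.trans (by omega)⟩

theorem Apart.symm {G : SimpleGraph V} {u v : V} (h : Apart G u v) : Apart G v u :=
  ⟨h.1.symm, fun h' => h.2 h'.symm⟩

theorem Anti.symm {G : SimpleGraph V} {A B : Set V} (h : Anti G A B) : Anti G B A :=
  fun u hu v hv => (h v hv u hu).symm

theorem HS.not_dead (H : HS V k) {X : Finset V} (hX : X.card ≤ k) {v : V} (hv : v ∈ H.β X) :
    ¬ H.Dead X v := by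
  rintro ⟨x, hx, hvx⟩
  exact H.alive X hX v hv x hx hvx

theorem HS.Dead.mono {H : HS V k} {X Y : Finset V} (h : X ⊆ Y) {v : V} (hv : H.Dead X v) :
    H.Dead Y v := by
  obtain ⟨x, hx, hvx⟩ := hv
  exact ⟨x, h hx, hvx⟩

/-- the elements of `X` are dead at `X` -/
theorem HS.dead_self (H : HS V k) {X : Finset V} {v : V} (hv : v ∈ X) : H.Dead X v :=
  ⟨v, hv, H.self_mem v⟩

theorem HS.Det.mono {H : HS V k} {X Y : Finset V} (h : X ⊆ Y) (hY : Y.card ≤ k) {v : V}
    (hv : H.Det X v) : H.Det Y v :=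
  ⟨fun h1 => hv.1 (H.mono X Y h hY h1), fun u hu => hv.2 u (H.mono X Y h hY hu)⟩

theorem HS.Det.apart {H : HS V k} {X : Finset V} {v u : V} (hv : H.Det X v) (hu : u ∈ H.β X) :
    Apart H.G v u :=
  ⟨fun h => hv.1 (h ▸ hu), hv.2 u hu⟩

/-- A vertex that is attached at `X` and not in `β(X)` is dead at `X` and white. -/
theorem HS.att_white (H : HS V k) {X : Finset V} (hX : X.card ≤ k) {v : V} (h1 : ¬ H.Det X v)
    (h2 : v ∉ H.β X) : H.Dead X v ∧ v ∈ H.W ∧ ∃ u ∈ H.β X, H.G.Adj v u := by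
  unfold HS.Det at h1
  push Not at h1
  obtain ⟨u, hu, huv⟩ := h1 h2
  have hd : H.Dead X v := by
    by_contra hcon
    apply h2
    apply H.closed X hX u hu v huv.symm
    intro x hx hvx
    exact hcon ⟨x, hx, hvx⟩
  refine ⟨hd, ?_, u, hu, huv⟩
  by_contra hw
  obtain ⟨x, hx, hvx⟩ := hd
  exact H.alive X hX u hu x hx (H.black x v u hvx hw huv)

/-- A black vertex is detached at `{v}`. -/
theorem HS.black_small (H : HS V k) (hk : 1 ≤ k) {v : V} (hv : v ∉ H.W) : H.Small 1 v := by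
  refine ⟨{v}, by simp, ?_⟩
  by_contra hcon
  have h2 : v ∉ H.β {v} := fun h => H.alive {v} (by simpa using hk) v h v (by simp) (H.self_mem v)
  exact hv (H.att_white (by simpa using hk) hcon h2).2.1

theorem HS.Small.mono {H : HS V k} {m n : ℕ} (h : m ≤ n) {v : V} (hv : H.Small m v) :
    H.Small n v := by
  obtain ⟨X, hX, hd⟩ := hv
  exact ⟨X, hX.trans h, hd⟩

/-- Detaching `n` vertices, each of which is detached by at most `m` vertices. -/
theorem HS.kill (H : HS V k) {m : ℕ} (n : ℕ) {X : Finset V} (hc : X.card + n * m ≤ k) (q : ℕ → V)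
    (hq : ∀ i < n, H.Small m (q i)) : ∃ Y, Ext X (n * m) Y ∧ ∀ i < n, H.Det Y (q i) := by
  classical
  induction n with
  | zero => exact ⟨X, Ext.refl _ _, fun i hi => absurd hi (by omega)⟩
  | succ n ih =>
    have hmul : (n + 1) * m = n * m + m := by ring
    obtain ⟨Y, hY, hd⟩ := ih (by omega) (fun i hi => hq i (by omega))
    obtain ⟨Z, hZ, hdZ⟩ := hq n (by omega)
    have hcard : (Y ∪ Z).card ≤ X.card + (n + 1) * m := by
      have := Finset.card_union_le Y Z
      have := hY.2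
      omega
    refine ⟨Y ∪ Z, ⟨hY.1.trans Finset.subset_union_left, hcard⟩, ?_⟩
    intro i hi
    rcases Nat.lt_succ_iff_lt_or_eq.1 hi with h | h
    · exact (hd i h).mono Finset.subset_union_left (by omega)
    · subst h
      exact hdZ.mono Finset.subset_union_right (by omega)

/-- Two white vertices separated by `D(X)` are different and have at most one common neighbour. -/
theorem HS.oneCN (H : HS V k) {X : Finset V} {u v : V} (hu : H.Dead X u) (huW : u ∈ H.W)
    (hv : ¬ H.Dead X v) (hvW : v ∈ H.W) : u ≠ v ∧ OneCN H.G u v := by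
  obtain ⟨x, hx, hux⟩ := hu
  have hvx : v ∉ H.D x := fun h => hv ⟨x, hx, h⟩
  exact ⟨fun h => hvx (h ▸ hux), H.white x u v hux huW hvx hvW⟩

/-- If `Y` and `Z` are small, their union is a set at which `β` is in both `β(Y)` and `β(Z)`. -/
theorem HS.common (H : HS V k) {Y Z : Finset V} (h : Y.card + Z.card ≤ k) :
    ∃ u, u ∈ H.β Y ∧ u ∈ H.β Z := by
  classical
  have hc : (Y ∪ Z).card ≤ k := (Finset.card_union_le Y Z).trans h
  obtain ⟨u, hu⟩ := H.nonempty (Y ∪ Z) hc
  exact ⟨u, H.mono _ _ Finset.subset_union_left hc hu, H.mono _ _ Finset.subset_union_right hc hu⟩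

/-! ### Induced paths and anticomplete sets -/

theorem IndSeq.mono {G : SimpleGraph V} {m n : ℕ} {u : ℕ → V} (h : IndSeq G n u) (hmn : m ≤ n) :
    IndSeq G m u := fun i j hij hj => h i j hij (by omega)

theorem IndSeq.rev {G : SimpleGraph V} {n : ℕ} {u : ℕ → V} (h : IndSeq G (n + 1) u) :
    IndSeq G (n + 1) (fun i => u (n - i)) := by
  intro i j hij hj
  obtain ⟨h1, h2⟩ := h (n - j) (n - i) (by omega) (by omega)
  refine ⟨fun he => h1 he.symm, ?_⟩
  rw [G.adj_comm, h2]
  omega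

theorem IndSeq.shift {G : SimpleGraph V} {n : ℕ} {u : ℕ → V} (s : ℕ) (h : IndSeq G (s + n) u) :
    IndSeq G n (fun i => u (s + i)) := by
  intro i j hij hj
  obtain ⟨h1, h2⟩ := h (s + i) (s + j) (by omega) (by omega)
  refine ⟨h1, ?_⟩
  rw [h2]
  omega

theorem IndSeq.adj {G : SimpleGraph V} {n : ℕ} {u : ℕ → V} (h : IndSeq G n u) {i : ℕ}
    (hi : i + 1 < n) : G.Adj (u i) (u (i + 1)) := (h i (i + 1) (by omega) hi).2.2 rfl

/-- Putting a vertex in front of an induced path. -/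
theorem IndSeq.cons {G : SimpleGraph V} {n : ℕ} {u : ℕ → V} (h : IndSeq G n u) (z : V)
    (h0 : 0 < n → G.Adj z (u 0)) (h1 : ∀ i, 1 ≤ i → i < n → Apart G z (u i)) :
    IndSeq G (n + 1) (fun i => if i = 0 then z else u (i - 1)) := by
  intro i j hij hj
  rcases Nat.eq_zero_or_pos i with hi | hi
  · subst hi
    beta_reduce
    rw [if_pos rfl, if_neg (by omega)]
    rcases Nat.lt_or_ge 1 j with h2 | h2
    · have := h1 (j - 1) (by omega) (by omega)
      exact ⟨this.1, iff_of_false this.2 (by omega)⟩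
    · have hj1 : j = 1 := by omega
      subst hj1
      have := h0 (by omega)
      exact ⟨this.ne, iff_of_true this rfl⟩
  · beta_reduce
    rw [if_neg (by omega), if_neg (by omega)]
    obtain ⟨h2, h3⟩ := h (i - 1) (j - 1) (by omega) (by omega)
    refine ⟨h2, ?_⟩
    rw [h3]
    omega

theorem HasS.mono {G : SimpleGraph V} {l l' : ℕ} (hl : l' ≤ l) (h : HasS G l) : HasS G l' := by
  obtain ⟨z, p, h1, h2⟩ := h
  exact ⟨z, p, fun i hi => ⟨(h1 i hi).1.mono (by omega), (h1 i hi).2⟩,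
    fun i j hij hj a b ha hal hb hbl => h2 i j hij hj a b ha (by omega) hb (by omega)⟩

theorem HasL.mono {G : SimpleGraph V} {l l' : ℕ} (hl : l' ≤ l) (h : HasL G l) : HasL G l' := by
  obtain ⟨p, h1, h2⟩ := h
  exact ⟨p, fun i hi => (h1 i hi).mono (by omega),
    fun i j hij hj a b ha hb => h2 i j hij hj a b (by omega) (by omega)⟩

end Pool.Agent.Work.MP_c4d05f_lc.Hav
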