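import Pool.Agent.Work.MP_c4d05f_lc.N.Hav.Bas

/-!
# Four homogeneous paths (module `Brc`, size M-L, pure graph theory)

Four induced paths `w i 0, …, w i (n+l)` (`i < 4`) with common first vertex; `j` is the level of
`w i j`. Vertices of different paths are equal only at the same level `≤ n` and adjacent only at
levels `≤ n + 1` that differ by at most one; equality and adjacency are the same for all pairs
`i < i'`.

PROOF. Let `τ ≤ n` be the largest level with `w 0 τ = w 1 τ` (level `0` has this property); by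
`hom1` then `w i τ = w i' τ` for all `i, i'`, and at levels `> τ` all `w i j` are different (`heq`).
Call `(j, j')` with `τ < j, j' ≤ n+1` an edge type if `w 0 j ~ w 1 j'` (then `w i j ~ w i' j'` for
all `i < i'` by `hom2`). `(j, j)` is not an edge type: the four `w i j` would be a `K₄`. So
`j' = j + 1` or `j = j' + 1`.

* No edge type: `z = w 0 τ`, legs `p i a = w i (τ + a)` for `i < 3` (`τ + l ≤ n + l`): this is
  `HasS` by definition.
* Otherwise let `μ` be the largest number such that `(μ-1, μ)` or `(μ, μ-1)` is an edge type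
  (`τ < μ - 1`, `μ ≤ n + 1`). If `(μ-1, μ)` is one: `z = w 0 (μ-1)`, the legs are
  `w i μ, w i (μ+1), …, w i (μ-1+l)` for `i = 1, 2, 3` (`IndSeq.cons`, `IndSeq.shift`); `z` is adjacent
  to `w i μ`, and not to higher levels (levels differ by `≥ 2`). The legs are anticomplete: an edge
  `w i x ~ w i' x'` with `x, x' ≥ μ` would be an edge type with `x ≠ x'`, so its larger coordinate is
  `≥ μ + 1`, against the choice of `μ`. If `(μ, μ-1)` is an edge type: `z = w 3 (μ-1)` and the legs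
  for `i = 0, 1, 2`, in the same way.
-/

set_option autoImplicit false

namespace Pool.Agent.Work.MP_c4d05f_lc.Hav

private theorem brcore_core (n l : ℕ) (V : Type) (G : SimpleGraph V)
    (w : ℕ → ℕ → V) (h1 : ∀ i < 4, IndSeq G (n + l + 1) (w i)) (μ : ℕ) (hμ : μ ≤ n + 1)
    (g : ℕ → ℕ) (hg4 : ∀ i < 3, g i < 4) (hgm : ∀ i j, i < j → j < 3 → g i < g j) (z : V)
    (hz0 : ∀ i < 3, 0 < l → G.Adj z (w (g i) μ))
    (hz1 : ∀ i < 3, ∀ a, 1 ≤ a → a < l → Apart G z (w (g i) (μ + a)))
    (hne : ∀ i i', i < i' → i' < 4 → ∀ x y, μ ≤ x → μ ≤ y → x ≤ n + l → y ≤ n + l →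
      Apart G (w i x) (w i' y)) : HasS G l := by
  refine ⟨z, fun i a => if a = 0 then z else w (g i) (μ + (a - 1)), fun i hi => ⟨?_, if_pos rfl⟩,
    fun i j hij hj a b ha hal hb hbl => ?_⟩
  · have h2 : IndSeq G l (fun a => w (g i) (μ + a)) :=
      IndSeq.shift μ ((h1 (g i) (hg4 i hi)).mono (by omega))
    exact h2.cons z (fun h => hz0 i hi h) (fun a ha hal => hz1 i hi a ha hal)
  · beta_reduce
    rw [if_neg (by omega), if_neg (by omega)]
    exact hne (g i) (g j) (hgm i j hij hj) (hg4 j hj) _ _ (by omega) (by omega) (by omega)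
      (by omega)

/-- **Four homogeneous paths.** -/
theorem brcore (n l : ℕ) (V : Type) (G : SimpleGraph V) (hK : NoK4 G)
    (w : ℕ → ℕ → V) (h1 : ∀ i < 4, IndSeq G (n + l + 1) (w i)) (h0 : ∀ i < 4, w i 0 = w 0 0)
    (heq : ∀ i i', i < 4 → i' < 4 → i ≠ i' → ∀ j j', j ≤ n + l → j' ≤ n + l →
      w i j = w i' j' → j = j' ∧ j ≤ n)
    (hadj : ∀ i i', i < 4 → i' < 4 → i ≠ i' → ∀ j j', j ≤ n + l → j' ≤ n + l →
      G.Adj (w i j) (w i' j') → j ≤ n + 1 ∧ j' ≤ n + 1 ∧ j ≤ j' + 1 ∧ j' ≤ j + 1)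
    (hom1 : ∀ j ≤ n, ∀ i i' a a', i < i' → i' < 4 → a < a' → a' < 4 →
      w i j = w i' j → w a j = w a' j)
    (hom2 : ∀ j j', j ≤ n + 1 → j' ≤ n + 1 → ∀ i i' a a', i < i' → i' < 4 → a < a' → a' < 4 →
      G.Adj (w i j) (w i' j') → G.Adj (w a j) (w a' j')) :
    HasS G l := by
  classical
  have hP0 : (fun j => w 0 j = w 1 j) 0 := (h0 1 (by omega)).symm
  set τ := Nat.findGreatest (fun j => w 0 j = w 1 j) n with hτ
  have hτn : τ ≤ n := Nat.findGreatest_le n
  have hτe : w 0 τ = w 1 τ := Nat.findGreatest_spec (P := fun j => w 0 j = w 1 j) (Nat.zero_le n) hP0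
  have hτg : ∀ j, τ < j → j ≤ n → w 0 j ≠ w 1 j := fun j h2 h3 =>
    Nat.findGreatest_is_greatest (P := fun j => w 0 j = w 1 j) h2 h3
  have hτall : ∀ i < 4, w i τ = w 0 τ := by
    intro i hi
    rcases Nat.eq_zero_or_pos i with h | h
    · rw [h]
    · exact (hom1 τ hτn 0 1 0 i (by omega) (by omega) h hi hτe).symm
  have hdiff : ∀ i i', i < i' → i' < 4 → ∀ x y, τ < x → τ < y → x ≤ n + l → y ≤ n + l →
      w i x ≠ w i' y := by
    intro i i' hii hi' x y hx hy hxl hyl he
    obtain ⟨h2, h3⟩ := heq i i' (by omega) hi' (by omega) x y hxl hyl he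
    subst h2
    exact hτg x hx h3 (hom1 x h3 i i' 0 1 hii hi' (by omega) (by omega) he)
  have hdiag : ∀ x, x ≤ n + 1 → ¬ G.Adj (w 0 x) (w 1 x) := by
    intro x hx h2
    have h3 : ∀ a a', a < a' → a' < 4 → G.Adj (w a x) (w a' x) := fun a a' ha ha' =>
      hom2 x x hx hx 0 1 a a' (by omega) (by omega) ha ha' h2
    exact hK (w 0 x) (w 1 x) (w 2 x) (w 3 x) (h3 0 1 (by omega) (by omega))
      (h3 0 2 (by omega) (by omega)) (h3 0 3 (by omega) (by omega)) (h3 1 2 (by omega) (by omega))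
      (h3 1 3 (by omega) (by omega)) (h3 2 3 (by omega) (by omega))
  let Q : ℕ → Prop := fun m => τ + 2 ≤ m ∧ (G.Adj (w 0 (m - 1)) (w 1 m) ∨ G.Adj (w 0 m) (w 1 (m - 1)))
  have hne : ∀ μ, τ + 1 ≤ μ → (∀ m, μ + 1 ≤ m → m ≤ n + 1 → ¬ Q m) →
      ∀ i i', i < i' → i' < 4 → ∀ x y, μ ≤ x → μ ≤ y → x ≤ n + l → y ≤ n + l →
        Apart G (w i x) (w i' y) := by
    intro μ hμ hQ i i' hii hi' x y hx hy hxl hyl
    refine ⟨hdiff i i' hii hi' x y (by omega) (by omega) hxl hyl, fun h2 => ?_⟩
    obtain ⟨h3, h4, h5, h6⟩ := hadj i i' (by omega) hi' (by omega) x y hxl hyl h2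
    have h7 : G.Adj (w 0 x) (w 1 y) :=
      hom2 x y h3 h4 i i' 0 1 hii hi' (by omega) (by omega) h2
    rcases Nat.lt_trichotomy x y with h8 | h8 | h8
    · have h9 : x = y - 1 := by omega
      refine hQ y (by omega) h4 ⟨by omega, Or.inl ?_⟩
      rw [← h9]
      exact h7
    · subst h8
      exact hdiag x h3 h7
    · have h9 : y = x - 1 := by omega
      refine hQ x (by omega) h3 ⟨by omega, Or.inr ?_⟩
      rw [← h9]
      exact h7
  by_cases hex : ∃ m, m ≤ n + 1 ∧ Q m
  · obtain ⟨m0, hm0, hQ0⟩ := hex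
    set μ := Nat.findGreatest Q (n + 1) with hμd
    have hμn : μ ≤ n + 1 := Nat.findGreatest_le (n + 1)
    have hμQ : Q μ := Nat.findGreatest_spec (P := Q) hm0 hQ0
    have hμg : ∀ m, μ + 1 ≤ m → m ≤ n + 1 → ¬ Q m := fun m h2 h3 =>
      Nat.findGreatest_is_greatest (P := Q) h2 h3
    have hne' := hne μ (by have := hμQ.1; omega) hμg
    have hμτ := hμQ.1
    rcases hμQ.2 with h2 | h2
    · refine brcore_core n l V G w h1 μ hμn (fun i => i + 1) (fun i hi => by omega)
        (fun i j hij hj => by omega) (w 0 (μ - 1)) ?_ ?_ hne'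
      · intro i hi _
        exact hom2 (μ - 1) μ (by omega) hμn 0 1 0 (i + 1) (by omega) (by omega) (by omega)
          (by omega) h2
      · intro i hi a ha hal
        refine ⟨hdiff 0 (i + 1) (by omega) (by omega) _ _ (by omega) (by omega) (by omega)
          (by omega), fun h3 => ?_⟩
        have h4 := hadj 0 (i + 1) (by omega) (by omega) (by omega) _ _ (by omega) (by omega) h3
        omega
    · refine brcore_core n l V G w h1 μ hμn (fun i => i) (fun i hi => by omega)
        (fun i j hij hj => hij) (w 3 (μ - 1)) ?_ ?_ hne'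
      · intro i hi _
        exact (hom2 μ (μ - 1) hμn (by omega) 0 1 i 3 (by omega) (by omega) (by omega)
          (by omega) h2).symm
      · intro i hi a ha hal
        refine ⟨(hdiff i 3 (by omega) (by omega) _ _ (by omega) (by omega) (by omega)
          (by omega)).symm, fun h3 => ?_⟩
        have h4 := hadj 3 i (by omega) (by omega) (by omega) _ _ (by omega) (by omega) h3
        omega
  · have hnQ : ∀ m, m ≤ n + 1 → ¬ Q m := fun m hm hQ => hex ⟨m, hm, hQ⟩
    refine brcore_core n l V G w h1 (τ + 1) (by omega) (fun i => i) (fun i hi => by omega)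
      (fun i j hij hj => hij) (w 0 τ) ?_ ?_
      (hne (τ + 1) le_rfl fun m _ hm => hnQ m hm)
    · intro i hi hl
      have h2 := (h1 i (by omega)).adj (i := τ) (by omega)
      rw [hτall i (by omega)] at h2
      exact h2
    · intro i hi a ha hal
      have h2 := h1 i (by omega) τ (τ + 1 + a) (by omega) (by omega)
      rw [hτall i (by omega)] at h2
      exact ⟨h2.1, fun h3 => by have := h2.2.1 h3; omega⟩

end Pool.Agent.Work.MP_c4d05f_lc.Hav
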