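import Pool.Agent.Work.MP_c4d05f_lc.Ram

/-!
# Ramsey for pairs and triples
-/

set_option autoImplicit false

namespace Pool.Agent.Work.MP_c4d05f_lc.Hav

/-- Ramsey's theorem for pairs. -/
theorem ram2 (C : Type) [Finite C] (M : ℕ) :
    ∃ N : ℕ, ∀ c : ℕ → ℕ → C, ∃ (f : ℕ → ℕ) (a : C), StrictMono f ∧ (∀ i < M, f i < N) ∧
      ∀ i j, i < j → j < M → c (f i) (f j) = a := by
  obtain ⟨N, hN⟩ := ramsey4 C (M + 2)
  refine ⟨N, fun c => ?_⟩
  obtain ⟨f, a, hf, h1, h2⟩ := hN (fun p q _ _ => c p q)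
  exact ⟨f, a, hf, fun i hi => h1 i (by omega),
    fun i j hij hj => h2 i j M (M + 1) hij hj (by omega) (by omega)⟩

/-- Ramsey's theorem for triples. -/
theorem ram3 (C : Type) [Finite C] (M : ℕ) :
    ∃ N : ℕ, ∀ c : ℕ → ℕ → ℕ → C, ∃ (f : ℕ → ℕ) (a : C), StrictMono f ∧ (∀ i < M, f i < N) ∧
      ∀ i j k, i < j → j < k → k < M → c (f i) (f j) (f k) = a := by
  obtain ⟨N, hN⟩ := ramsey4 C (M + 1)
  refine ⟨N, fun c => ?_⟩
  obtain ⟨f, a, hf, h1, h2⟩ := hN (fun p q r _ => c p q r)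
  exact ⟨f, a, hf, fun i hi => h1 i (by omega),
    fun i j k hij hjk hk => h2 i j k M hij hjk (by omega) (by omega)⟩

end Pool.Agent.Work.MP_c4d05f_lc.Hav
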