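import Pool.Agent.Work.MP_c4d05f_lc.N.Hav.Nr
import Pool.Agent.Work.MP_c4d05f_lc.N.Hav.Ram
import Pool.Agent.Work.MP_c4d05f_lc.N.Hav.Brc

/-!
# Many arms at a set of bounded radius (module `Br`, size M-L)

`J` is a set with centre `c` and radius `ρ`; the arms `a i 0, …, a i (l-1)` are pairwise
anticomplete induced paths outside `J`, only their first vertices have neighbours in `J`.

PROOF. For each `i` let `n i ≤ ρ` be the least `n` such that a neighbour `x ∈ J` of `a i 0` has
`Near G J c n x`; let `u i` be the geodesic from `c` to this `x` (`geod`; it has exactly `n i`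
steps, the vertex `u i j` has exact level `j`). Put `w i j = u i j` for `j ≤ n i` and
`w i (n i + 1 + p) = a i p` for `p < l`. Facts: (1) `w i` is an induced path with
`n i + 1 + l` vertices: `a i 0 ~ u i j` only for `j = n i`, since every neighbour of `a i 0` in `J`
has level `≥ n i`. (2) For `n i = n i' = n`: equality `w i j = w i' j'` only for `j = j' ≤ n`
(levels; the arms are outside `J` and disjoint); adjacency only if both levels are `≤ n + 1`
and differ by at most one (`near_step`; `a i 0 ~ u i' j'` gives level `j' ≥ n`; the arms are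
anticomplete).
Apply `ram2` with `M = 5` and the colour of `i < i'` = (`n i` as `Fin (ρ+1)`, the sets
`{j | w i j = w i' j}` and `{(j, j') | w i j ~ w i' j'}` as functions
`Fin (ρ+2) → Bool`, `Fin (ρ+2) → Fin (ρ+2) → Bool`); the first four elements of the homogeneous set
have the same `n i = n`, and `brcore` applies (`n + 1 ≤ ρ + 1`).
-/

set_option autoImplicit false

namespace Pool.Agent.Work.MP_c4d05f_lc.Hav

/-- **Arms at a set of bounded radius.** -/
theorem br (ρ l : ℕ) : ∃ N : ℕ, ∀ (V : Type) (G : SimpleGraph V) (J : Set V) (c : V)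
    (a : ℕ → ℕ → V), NoK4 G → c ∈ J → (∀ x ∈ J, Near G J c ρ x) →
    (∀ i < N, IndSeq G l (a i)) → (∀ i < N, ∀ p < l, a i p ∉ J) →
    (∀ i j, i < j → j < N → ∀ p q, p < l → q < l → Apart G (a i p) (a j q)) →
    (∀ i < N, ∃ x ∈ J, G.Adj (a i 0) x) →
    (∀ i < N, ∀ p, 1 ≤ p → p < l → ∀ x ∈ J, ¬ G.Adj (a i p) x) → HasS G l := by
  classical
  rcases Nat.eq_zero_or_pos l with hl0 | hl
  · subst hl0
    refine ⟨0, fun V G J c a _ hc _ _ _ _ _ _ => ⟨c, fun _ _ => c, fun i _ => ⟨?_, rfl⟩, ?_⟩⟩
    · intro i j hij hj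
      omega
    · intro i j _ _ x y hx hx' _ _
      omega
  obtain ⟨N, hN⟩ := ram2 ((Fin (ρ + 1) → Bool) × (Fin (ρ + 2) → Bool) ×
    (Fin (ρ + 2) → Fin (ρ + 2) → Bool)) 5
  refine ⟨N, fun V G J c a hK hc hρ harm haJ hap hat hna => ?_⟩
  -- the least level of a neighbour
  have hex : ∀ i, i < N → ∃ n, ∃ x ∈ J, G.Adj (a i 0) x ∧ Near G J c n x := by
    intro i hi
    obtain ⟨x, hx, hax⟩ := hat i hi
    exact ⟨ρ, x, hx, hax, hρ x hx⟩
  have hdat : ∀ i, ∃ (n : ℕ) (u : ℕ → V), i < N → n ≤ ρ ∧ IndSeq G (n + 1) u ∧ u 0 = c ∧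
      G.Adj (a i 0) (u n) ∧ (∀ j ≤ n, u j ∈ J) ∧
      (∀ j ≤ n, Near G J c j (u j) ∧ ∀ j' < j, ¬ Near G J c j' (u j)) ∧
      ∀ j < n, ∀ x ∈ J, G.Adj (a i 0) x → ¬ Near G J c j x := by
    intro i
    by_cases hi : i < N
    · have h := hex i hi
      obtain ⟨x, hx, hax, hnx⟩ := Nat.find_spec h
      have hmin : ∀ j < Nat.find h, ∀ x ∈ J, G.Adj (a i 0) x → ¬ Near G J c j x :=
        fun j hj x hx hax hn => Nat.find_min h hj ⟨x, hx, hax, hn⟩
      obtain ⟨m, hm, u, hu, hu0, hum, huJ, hlev⟩ := geod hnx
      have hmn : m = Nat.find h := by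
        by_contra hne
        have hlt : m < Nat.find h := lt_of_le_of_ne hm hne
        refine hmin m hlt x hx hax ?_
        have := (hlev m le_rfl).1
        rwa [hum] at this
      have hle : Nat.find h ≤ ρ := by
        obtain ⟨y, hy, hay⟩ := hat i hi
        exact Nat.find_min' h ⟨y, hy, hay, hρ y hy⟩
      refine ⟨m, u, fun _ => ⟨by omega, hu, hu0, by rw [hum]; exact hax, ?_, hlev, ?_⟩⟩
      · intro j hj
        rcases Nat.eq_zero_or_pos j with h0 | h0
        · rw [h0, hu0]
          exact hc
        · exact huJ j h0 hj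
      · intro j hj
        exact hmin j (by omega)
    · exact ⟨0, fun _ => c, fun h => absurd h hi⟩
  choose n u hu using hdat
  let w : ℕ → ℕ → V := fun i j => if j ≤ n i then u i j else a i (j - (n i + 1))
  have hw1 : ∀ i j, j ≤ n i → w i j = u i j := fun i j h => if_pos h
  have hw2 : ∀ i j, n i < j → w i j = a i (j - (n i + 1)) := fun i j h => if_neg (by omega)
  obtain ⟨f, col, hf, hfN, hcol⟩ := hN (fun i i' => (fun t => decide (n i = (t : ℕ)),
    fun j => decide (w i (j : ℕ) = w i' (j : ℕ)),
    fun j j' => decide (G.Adj (w i (j : ℕ)) (w i' (j' : ℕ)))))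
  have hNf : ∀ i < 4, f i < N := fun i hi => hfN i (by omega)
  -- the same level
  have hn : ∀ i < 4, n (f i) = n (f 0) := by
    intro i hi
    have h1 := hcol i 4 hi (by omega)
    have h2 := hcol 0 4 (by omega) (by omega)
    have h3 := congrArg Prod.fst (h1.trans h2.symm)
    have h4 := congrFun h3 ⟨n (f 0), by have := (hu (f 0) (hNf 0 (by omega))).1; omega⟩
    simp only [decide_true, decide_eq_true_eq] at h4
    exact h4
  set m := n (f 0) with hm
  have hmρ : m ≤ ρ := (hu (f 0) (hNf 0 (by omega))).1
  have hneq : ∀ i i', i < 4 → i' < 4 → i ≠ i' → ∀ p q, p < l → q < l →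
      Apart G (a (f i) p) (a (f i') q) := by
    intro i i' hi hi' hne p q hp hq
    rcases lt_or_gt_of_ne hne with h | h
    · exact hap (f i) (f i') (hf h) (hNf i' hi') p q hp hq
    · exact (hap (f i') (f i) (hf h) (hNf i hi) q p hq hp).symm
  refine brcore m l V G hK (fun i => w (f i)) ?_ ?_ ?_ ?_ ?_ ?_
  · -- induced paths
    intro i hi j j' hjj hj'
    obtain ⟨-, e2, e3, e4, e5, e6, e7⟩ := hu (f i) (hNf i hi)
    have hni := hn i hi
    rw [hni] at e2 e4 e5 e6 e7
    rcases Nat.lt_or_ge m j with hc1 | hc1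
    · try simp only
      rw [hw2 (f i) j (by omega), hw2 (f i) j' (by omega), hni]
      have h := harm (f i) (hNf i hi) (j - (m + 1)) (j' - (m + 1)) (by omega) (by omega)
      refine ⟨h.1, h.2.trans ?_⟩
      omega
    · rcases Nat.lt_or_ge m j' with hc2 | hc2
      · try simp only
        rw [hw1 (f i) j (by omega), hw2 (f i) j' (by omega), hni]
        refine ⟨fun h => haJ (f i) (hNf i hi) (j' - (m + 1)) (by omega) (h ▸ e5 j hc1), ?_⟩
        rcases Nat.eq_or_lt_of_le (show m + 1 ≤ j' from hc2) with h1 | h1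
        · have h0 : j' - (m + 1) = 0 := by omega
          rw [h0]
          constructor
          · intro hadj
            by_contra hne
            exact e7 j (by omega) (u (f i) j) (e5 j hc1) hadj.symm (e6 j hc1).1
          · intro h
            have hjm : j = m := by omega
            rw [hjm]
            exact e4.symm
        · refine iff_of_false (fun hadj => ?_) (by omega)
          exact hna (f i) (hNf i hi) (j' - (m + 1)) (by omega) (by omega) (u (f i) j) (e5 j hc1)
            hadj.symm
      · try simp only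
        rw [hw1 (f i) j (by omega), hw1 (f i) j' (by omega)]
        exact e2 j j' hjj (by omega)
  · intro i hi
    try simp only
    rw [hw1 (f i) 0 (Nat.zero_le _), hw1 (f 0) 0 (Nat.zero_le _), (hu (f i) (hNf i hi)).2.2.1,
      (hu (f 0) (hNf 0 (by omega))).2.2.1]
  · -- equality
    intro i i' hi hi' hne j j' hj hj' he
    try simp only at he
    obtain ⟨-, -, -, -, e5, e6, -⟩ := hu (f i) (hNf i hi)
    obtain ⟨-, -, -, -, e5', e6', -⟩ := hu (f i') (hNf i' hi')
    have hni := hn i hi
    have hni' := hn i' hi'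
    rw [hni] at e5 e6
    rw [hni'] at e5' e6'
    rcases Nat.lt_or_ge m j with hc1 | hc1
    · rw [hw2 (f i) j (by omega), hni] at he
      rcases Nat.lt_or_ge m j' with hc2 | hc2
      · rw [hw2 (f i') j' (by omega), hni'] at he
        exact absurd he (hneq i i' hi hi' hne _ _ (by omega) (by omega)).1
      · rw [hw1 (f i') j' (by omega)] at he
        exact absurd (he ▸ e5' j' hc2) (haJ (f i) (hNf i hi) _ (by omega))
    · rw [hw1 (f i) j (by omega)] at he
      rcases Nat.lt_or_ge m j' with hc2 | hc2
      · rw [hw2 (f i') j' (by omega), hni'] at he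
        exact absurd (he ▸ e5 j hc1) (haJ (f i') (hNf i' hi') _ (by omega))
      · rw [hw1 (f i') j' (by omega)] at he
        refine ⟨?_, hc1⟩
        have g1 := e6 j hc1
        have g2 := e6' j' hc2
        rw [← he] at g2
        rcases lt_trichotomy j j' with h | h | h
        · exact absurd g1.1 (g2.2 j h)
        · exact h
        · exact absurd g2.1 (g1.2 j' h)
  · -- adjacency
    intro i i' hi hi' hne j j' hj hj' he
    try simp only at he
    obtain ⟨-, -, -, -, e5, e6, e7⟩ := hu (f i) (hNf i hi)
    obtain ⟨-, -, -, -, e5', e6', e7'⟩ := hu (f i') (hNf i' hi')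
    have hni := hn i hi
    have hni' := hn i' hi'
    rw [hni] at e5 e6 e7
    rw [hni'] at e5' e6' e7'
    rcases Nat.lt_or_ge m j with hc1 | hc1
    · rw [hw2 (f i) j (by omega), hni] at he
      rcases Nat.lt_or_ge m j' with hc2 | hc2
      · rw [hw2 (f i') j' (by omega), hni'] at he
        exact absurd he (hneq i i' hi hi' hne _ _ (by omega) (by omega)).2
      · rw [hw1 (f i') j' (by omega)] at he
        have hj1 : j = m + 1 := by
          by_contra hne1
          exact hna (f i) (hNf i hi) (j - (m + 1)) (by omega) (by omega) _ (e5' j' hc2) he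
        have h0 : j - (m + 1) = 0 := by omega
        rw [h0] at he
        have hjm : j' = m := by
          by_contra hne1
          exact e7 j' (by omega) _ (e5' j' hc2) he (e6' j' hc2).1
        omega
    · rw [hw1 (f i) j (by omega)] at he
      rcases Nat.lt_or_ge m j' with hc2 | hc2
      · rw [hw2 (f i') j' (by omega), hni'] at he
        have hj1 : j' = m + 1 := by
          by_contra hne1
          exact hna (f i') (hNf i' hi') (j' - (m + 1)) (by omega) (by omega) _ (e5 j hc1) he.symm
        have h0 : j' - (m + 1) = 0 := by omega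
        rw [h0] at he
        have hjm : j = m := by
          by_contra hne1
          exact e7' j (by omega) _ (e5 j hc1) he.symm (e6 j hc1).1
        omega
      · rw [hw1 (f i') j' (by omega)] at he
        have g1 := near_step (e6 j hc1).1 he (e5' j' hc2)
        have g2 := near_step (e6' j' hc2).1 he.symm (e5 j hc1)
        have k1 : ¬ j + 1 < j' := fun h => (e6' j' hc2).2 _ h g1
        have k2 : ¬ j' + 1 < j := fun h => (e6 j hc1).2 _ h g2
        omega
  · intro j hj i i' b b' hii hi' hbb hb' he
    try simp only at he ⊢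
    have h1 := hcol i i' hii (by omega)
    have h2 := hcol b b' hbb (by omega)
    have h3 := congrArg (fun z => z.2.1) (h1.trans h2.symm)
    have h4 := congrFun h3 ⟨j, by omega⟩
    simp only [decide_eq_decide] at h4
    exact h4.mp he
  · intro j j' hj hj' i i' b b' hii hi' hbb hb' he
    try simp only at he ⊢
    have h1 := hcol i i' hii (by omega)
    have h2 := hcol b b' hbb (by omega)
    have h3 := congrArg (fun z => z.2.2) (h1.trans h2.symm)
    have h4 := congrFun (congrFun h3 ⟨j, by omega⟩) ⟨j', by omega⟩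
    simp only [decide_eq_decide] at h4
    exact h4.mp he

end Pool.Agent.Work.MP_c4d05f_lc.Hav
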