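import Pool.Agent.Work.MP_c4d05f_lc.N.Hav.Nr

/-!
# One arm leaving a ball (module `Cstep`, size M)

The ball is `{x | Near (β X) v L x}`.

PROOF. `S = {x ∈ β Z | Near (β X) v (L+1) x}` is not empty: `u` is not detached at `Z`, so `u ∈ β Z`
or `u` has a neighbour in `β Z ⊆ β X` (`near_step`). `geod_set` in the connected set `β Z` from `y`
to `S`: `x 0 = y, …, x d ∈ S`, `x i ∉ S` for `i < d`, an induced path in `β Z`. Put
`q p = x (d - p)` (`IndSeq.rev`). `q 0 ∈ S`, `q p ∉ S` for `1 ≤ p ≤ d`. By induction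
`Near (β X) v (L + 1 + p) (q p)` for `p ≤ d`, and `y = q d` is not `Near … (L + l)`, so
`L + 1 + d > L + l`, `d ≥ l`; in particular `d ≥ 1` and `q 0, …, q (l-1)` is an induced path.
`q 1 ∉ S`, so `q 0` is not in the ball (otherwise `q 1` is `Near … (L+1)`), and since it is
`Near … (L+1)` it has a neighbour in the ball by definition of `Near`. For `p ≥ 1`: `q p ∉ S`, so
it is not `Near … (L+1)`, so it is not in the ball and has no neighbour in the ball
(`near_step`, `q p ∈ β X`).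
-/

set_option autoImplicit false

namespace Pool.Agent.Work.MP_c4d05f_lc.Hav

/-- **One arm leaving a ball.** -/
theorem conf_step (l L : ℕ) (hl : 1 ≤ l) (V : Type) (k : ℕ) (H : HS V k) (X Z : Finset V)
    (v u y : V) (hXZ : X ⊆ Z) (hZ : Z.card ≤ k) (hv : v ∈ H.β X)
    (hu : Near H.G (H.β X) v L u) (hu' : ¬ H.Det Z u) (hy : y ∈ H.β Z)
    (hy' : ¬ Near H.G (H.β X) v (L + l) y) :
    ∃ q : ℕ → V, IndSeq H.G l q ∧ (∀ p < l, q p ∈ H.β Z ∧ ¬ Near H.G (H.β X) v L (q p)) ∧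
      (∃ x, Near H.G (H.β X) v L x ∧ H.G.Adj (q 0) x) ∧
      ∀ p, 1 ≤ p → p < l → ∀ x, Near H.G (H.β X) v L x → ¬ H.G.Adj (q p) x := by
  have hsub : H.β Z ⊆ H.β X := H.mono X Z hXZ hZ
  obtain ⟨b, hbZ, hb⟩ : ∃ b, b ∈ H.β Z ∧ Near H.G (H.β X) v (L + 1) b := by
    by_cases h1 : u ∈ H.β Z
    · exact ⟨u, h1, near_mono (by omega) hu⟩
    · have h2 : ¬ ∀ w ∈ H.β Z, ¬ H.G.Adj u w := fun h => hu' ⟨h1, h⟩
      push Not at h2
      obtain ⟨w, hw, huw⟩ := h2
      exact ⟨w, hw, near_step hu huw (hsub hw)⟩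
  obtain ⟨d, x, hx, hx0, hxd, hxZ, hxS, -⟩ := geod_set (H.conn Z hZ) hy
    (B := {b | b ∈ H.β Z ∧ Near H.G (H.β X) v (L + 1) b}) ⟨b, ⟨hbZ, hb⟩, hbZ⟩
  have hnear : ∀ p, p ≤ d → Near H.G (H.β X) v (L + 1 + p) (x (d - p)) := by
    intro p
    induction p with
    | zero =>
      intro _
      exact hxd.2
    | succ p ih =>
      intro hp
      have h1 := ih (by omega)
      have h2 : H.G.Adj (x (d - (p + 1))) (x (d - (p + 1) + 1)) := hx.adj (by omega)
      have h3 : d - (p + 1) + 1 = d - p := by omega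
      rw [h3] at h2
      exact near_step h1 h2.symm (hsub (hxZ _ (by omega)))
  have hdl : l ≤ d := by
    by_contra hcon
    have h1 := hnear d le_rfl
    rw [Nat.sub_self, hx0] at h1
    exact hy' (near_mono (by omega) h1)
  have hfar : ∀ p, 1 ≤ p → p < l → ¬ Near H.G (H.β X) v (L + 1) (x (d - p)) := by
    intro p hp hpl h
    exact hxS (d - p) (by omega) ⟨hxZ _ (by omega), h⟩
  have h0 : ¬ Near H.G (H.β X) v L (x d) := by
    intro h
    have h2 : H.G.Adj (x (d - 1)) (x (d - 1 + 1)) := hx.adj (by omega)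
    have h3 : d - 1 + 1 = d := by omega
    rw [h3] at h2
    exact hxS (d - 1) (by omega) ⟨hxZ _ (by omega), near_step h h2.symm (hsub (hxZ _ (by omega)))⟩
  refine ⟨fun p => x (d - p), hx.rev.mono (by omega), ?_, ?_, ?_⟩
  · intro p hp
    refine ⟨hxZ _ (by omega), ?_⟩
    rcases Nat.eq_zero_or_pos p with h | h
    · subst h
      exact h0
    · exact fun h1 => hfar p h hp (near_mono (by omega) h1)
  · rcases hxd.2 with h | ⟨c, hc, hcx, -⟩
    · exact absurd h h0
    · exact ⟨c, hc, hcx.symm⟩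
  · intro p hp hpl c hc hadj
    exact hfar p hp hpl (near_step hc hadj.symm (hsub (hxZ _ (by omega))))

end Pool.Agent.Work.MP_c4d05f_lc.Hav
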