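import Pool.Agent.Work.MP_c4d05f_lc.N.Hav.Br
import Pool.Agent.Work.MP_c4d05f_lc.N.Hav.Cstep

/-!
# Confinement around a ball (module `Conf`, size M)

PROOF. `N` from `br L l`, `M = N * (l * m)`. Suppose that the conclusion fails. Build
`Z 0 = X ⊆ Z 1 ⊆ … ⊆ Z N` with `Ext X (i * (l * m)) (Z i)` and arms `q i` (`i < N`): at `Z i` some
`u` of the ball is not detached (hypothesis) and some `y ∈ β (Z i)` is not `Near … (L + l)`
(the conclusion fails); `conf_step` gives `q i`, an induced path with `l` vertices in `β (Z i)`;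
all of them are `Small m` (`β (Z i) ⊆ β X`), and `HS.kill` gives `Z (i+1)` with
`Ext (Z i) (l * m) (Z (i+1))` where they are detached. For `i < j` the arm `q j` is in
`β (Z j) ⊆ β (Z (i+1))` and `q i` is detached at `Z (i+1)`: `HS.Det.apart`.
Apply `br` with `J = {x | Near (β X) v L x}`, `c = v` (`near_self`, `near_ball`): `HasS`,
contradiction.
-/

set_option autoImplicit false

namespace Pool.Agent.Work.MP_c4d05f_lc.Hav

/-- **Confinement around a ball.** -/
theorem confine (l L m : ℕ) (hl : 1 ≤ l) : ∃ M : ℕ, ∀ (V : Type) (k : ℕ) (H : HS V k)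
    (X : Finset V) (v : V), ¬ HasS H.G l → X.card + M ≤ k → v ∈ H.β X →
    (∀ u ∈ H.β X, H.Small m u) →
    (∀ Z, Ext X M Z → ∃ u, Near H.G (H.β X) v L u ∧ ¬ H.Det Z u) →
    ∃ Z, Ext X M Z ∧ ∀ y ∈ H.β Z, Near H.G (H.β X) v (L + l) y := by
  classical
  obtain ⟨N, hN⟩ := br L l
  refine ⟨N * (l * m), fun V k H X v hS hX hv hsm hball => ?_⟩
  by_contra hcon
  have hcon' : ∀ Z, Ext X (N * (l * m)) Z → ∃ y ∈ H.β Z, ¬ Near H.G (H.β X) v (L + l) y := by
    intro Z hZ
    by_contra h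
    push Not at h
    exact hcon ⟨Z, hZ, h⟩
  have hle : ∀ i, i ≤ N → i * (l * m) ≤ N * (l * m) := fun i hi => Nat.mul_le_mul_right _ hi
  have step : ∀ Z : Finset V, ∃ (q : ℕ → V) (Z' : Finset V),
      (∃ i, i < N ∧ Ext X (i * (l * m)) Z) →
        (IndSeq H.G l q ∧ (∀ p < l, q p ∈ H.β Z ∧ ¬ Near H.G (H.β X) v L (q p)) ∧
        (∃ x, Near H.G (H.β X) v L x ∧ H.G.Adj (q 0) x) ∧
        ∀ p, 1 ≤ p → p < l → ∀ x, Near H.G (H.β X) v L x → ¬ H.G.Adj (q p) x) ∧
        Ext Z (l * m) Z' ∧ ∀ p < l, H.Det Z' (q p) := by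
    intro Z
    by_cases h : ∃ i, i < N ∧ Ext X (i * (l * m)) Z
    · obtain ⟨i, hi, hZ⟩ := h
      have hsucc : i * (l * m) + l * m ≤ N * (l * m) := by
        have := hle (i + 1) hi
        rwa [Nat.succ_mul] at this
      have hZk : Z.card + l * m ≤ k := by
        have := hZ.2
        omega
      have hZM : Ext X (N * (l * m)) Z := hZ.mono (hle i hi.le)
      obtain ⟨u, hu, hu'⟩ := hball Z hZM
      obtain ⟨y, hy, hy'⟩ := hcon' Z hZM
      obtain ⟨q, h1, h2, h3, h4⟩ := conf_step l L hl V k H X Z v u y hZ.1 (by omega) hv hu hu' hy hy'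
      obtain ⟨Z', hZ', hd⟩ := H.kill l hZk q fun p hp =>
        hsm (q p) (H.mono X Z hZ.1 (by omega) (h2 p hp).1)
      exact ⟨q, Z', fun _ => ⟨⟨h1, h2, h3, h4⟩, hZ', hd⟩⟩
    · exact ⟨fun _ => v, Z, fun h' => absurd h' h⟩
  choose q nx hq using step
  let Zs : ℕ → Finset V := fun i => Nat.rec X (fun _ Z => nx Z) i
  have hZs0 : Zs 0 = X := rfl
  have hZss : ∀ i, Zs (i + 1) = nx (Zs i) := fun i => rfl
  have hZs : ∀ i, i ≤ N → Ext X (i * (l * m)) (Zs i) := by
    intro i
    induction i with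
    | zero =>
      intro _
      rw [hZs0]
      exact Ext.refl _ _
    | succ i ih =>
      intro hi
      have h := (hq (Zs i) ⟨i, hi, ih (by omega)⟩).2.1
      rw [hZss, Nat.succ_mul]
      exact (ih (by omega)).trans h
  have hprop : ∀ i, i < N → _ := fun i hi => hq (Zs i) ⟨i, hi, hZs i hi.le⟩
  have hmon : ∀ i j, i ≤ j → j ≤ N → Zs i ⊆ Zs j := by
    intro i j hij
    induction j, hij using Nat.le_induction with
    | base => exact fun _ => Finset.Subset.refl _
    | succ j hij ih =>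
      intro hj
      refine (ih (by omega)).trans ?_
      rw [hZss]
      exact (hprop j hj).2.1.1
  have hcardk : ∀ i, i ≤ N → (Zs i).card ≤ k := by
    intro i hi
    have h1 := (hZs i hi).2
    have h2 := hle i hi
    omega
  refine hS (hN V H.G {x | Near H.G (H.β X) v L x} v (fun i => q (Zs i)) H.noK4
    (near_self v L) (fun x hx => near_ball le_rfl hx) ?_ ?_ ?_ ?_ ?_)
  · exact fun i hi => (hprop i hi).1.1
  · exact fun i hi p hp => ((hprop i hi).1.2.1 p hp).2
  · intro i j hij hj p p' hp hp'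
    have h1 := (hprop i (by omega)).2.2 p hp
    rw [← hZss] at h1
    have h2 := ((hprop j hj).1.2.1 p' hp').1
    have h3 := H.mono _ _ (hmon (i + 1) j hij hj.le) (hcardk j hj.le) h2
    exact h1.apart h3
  · intro i hi
    obtain ⟨x, hx, hadj⟩ := (hprop i hi).1.2.2.1
    exact ⟨x, hx, hadj⟩
  · exact fun i hi p hp hpl x hx => (hprop i hi).1.2.2.2 p hp hpl x hx

end Pool.Agent.Work.MP_c4d05f_lc.Hav
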