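import Pool.Agent.Work.MP_c4d05f_lc.N.Hav.Nr

/-!
# Connectors (module `Cont`, size S-M)

PROOF. `y ∈ C`. Take sequences `p 0 = z, …, p l = y` and `q 0 = z', …, q l = y` (`seq_of_near`),
`K` = the set of all `p i`, `q i` (`i ≤ l`) different from `z` and `z'`: these are in `C` (the
members of a walk other than the first are in `C` or equal to the first; `z, z' ∉ C`), at most
`2 * l + 1` of them (`p l = q l = y`; count `p 1, …, p l, q 1, …, q (l-1)` and note `p 0 = z`,
`q 0 = z'`). From `z` walk along `p` to `y` inside `K`, then back along `q` to `z'`. A bound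
`2 * l + 1` is what is asked; any crude bound of this form is fine.
-/

set_option autoImplicit false

namespace Pool.Agent.Work.MP_c4d05f_lc.Hav

open Pool.Agent.Work.MP_c4d05f_lc (Reach)

/-- **Connector.** -/
theorem connector (l : ℕ) (V : Type) (G : SimpleGraph V) (C : Finset V) (y z z' : V) (hy : y ∈ C)
    (hz : z ∉ C) (hz' : z' ∉ C) (h1 : Near G ↑C z l y) (h2 : Near G ↑C z' l y) :
    ∃ K : Finset V, K ⊆ C ∧ K.card ≤ 2 * l + 1 ∧ Reach G (insert z' (K : Set V)) z z' := by
  classical
  obtain ⟨p, hp0, hpl, hp⟩ := seq_of_near h1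
  obtain ⟨q, hq0, hql, hq⟩ := seq_of_near h2
  refine ⟨((Finset.Icc 1 l).image p ∪ (Finset.Icc 1 l).image q).filter (· ∈ C),
    fun x hx => (Finset.mem_filter.1 hx).2, ?_, ?_⟩
  · refine (Finset.card_filter_le _ _).trans ((Finset.card_union_le _ _).trans ?_)
    have e1 : ((Finset.Icc 1 l).image p).card ≤ l := by
      refine Finset.card_image_le.trans ?_
      rw [Nat.card_Icc]
      omega
    have e2 : ((Finset.Icc 1 l).image q).card ≤ l := by
      refine Finset.card_image_le.trans ?_
      rw [Nat.card_Icc]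
      omega
    omega
  · obtain ⟨K, hK⟩ : ∃ K : Finset V,
      K = ((Finset.Icc 1 l).image p ∪ (Finset.Icc 1 l).image q).filter (· ∈ C) := ⟨_, rfl⟩
    rw [← hK]
    have n1 : Near G (insert z' (K : Set V)) z l y := by
      have h3 := near_of_seq (G := G) (A := insert z' (K : Set V)) (n := l) p (fun i hi => by
        rcases hp i hi with h4 | ⟨h4, h5⟩
        · exact Or.inl h4
        · refine Or.inr ⟨h4, Or.inr ?_⟩
          rw [Finset.mem_coe, hK]
          exact Finset.mem_filter.2 ⟨Finset.mem_union_left _ (Finset.mem_image.2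
            ⟨i + 1, Finset.mem_Icc.2 ⟨by omega, by omega⟩, rfl⟩), h5⟩)
      rwa [hp0, hpl] at h3
    have n2 : Near G (insert z' (K : Set V)) z' l y := by
      have h3 := near_of_seq (G := G) (A := insert z' (K : Set V)) (n := l) q (fun i hi => by
        rcases hq i hi with h4 | ⟨h4, h5⟩
        · exact Or.inl h4
        · refine Or.inr ⟨h4, Or.inr ?_⟩
          rw [Finset.mem_coe, hK]
          exact Finset.mem_filter.2 ⟨Finset.mem_union_right _ (Finset.mem_image.2
            ⟨i + 1, Finset.mem_Icc.2 ⟨by omega, by omega⟩, rfl⟩), h5⟩)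
      rwa [hq0, hql] at h3
    exact reach_iff_near.2 ⟨_, near_trans n1 (near_symm (Set.mem_insert _ _) n2)⟩

end Pool.Agent.Work.MP_c4d05f_lc.Hav
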