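import Pool.Agent.Work.MP_c4d05f_lc.N.Hav.Bas

/-!
# Dropping rounds with common neighbours (module `Drop`, size S-M, pure counting)

PROOF. Call a round `r < q + s * s` bad if some `x ∈ C r` is adjacent to `h a` and `h b` for some
`a < b < s`. For each pair `(a, b)` at most one round is bad with this pair: `x ∈ C r`, `x' ∈ C t`,
`r ≠ t`, both common neighbours of `h a` and `h b` give `x = x'` (`OneCN`), but `C r`, `C t` are
disjoint. So at most `s * s` rounds are bad, and there are `q` good rounds `f 0 < … < f (q-1)` (for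
example `Nat.nth` or `Finset.orderEmbOfFin`, extended to a function on `ℕ`, only injectivity and
order on `i < q` matter).
-/

set_option autoImplicit false

namespace Pool.Agent.Work.MP_c4d05f_lc.Hav

/-- **Dropping rounds.** -/
theorem drop_rounds (s q : ℕ) (V : Type) (G : SimpleGraph V) (h : ℕ → V) (C : ℕ → Finset V)
    (hh : ∀ a b, a < b → b < s → OneCN G (h a) (h b))
    (hC : ∀ r t, r < t → t < q + s * s → ∀ u ∈ C r, ∀ v ∈ C t, Apart G u v) :
    ∃ f : ℕ → ℕ, (∀ i j, i < j → j < q → f i < f j) ∧ (∀ i < q, f i < q + s * s) ∧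
      ∀ i < q, ∀ x ∈ C (f i), ∀ a b, a < b → b < s → ¬ (G.Adj (h a) x ∧ G.Adj (h b) x) := by
  classical
  set P : ℕ → ℕ × ℕ → Prop := fun r ab =>
    ab.1 < ab.2 ∧ ab.2 < s ∧ ∃ x ∈ C r, G.Adj (h ab.1) x ∧ G.Adj (h ab.2) x with hP
  set Bad := (Finset.range (q + s * s)).filter (fun r => ∃ ab, P r ab) with hBad
  have hch : ∀ r, ∃ ab : ℕ × ℕ, r ∈ Bad → P r ab := by
    intro r
    by_cases hr : r ∈ Bad
    · obtain ⟨ab, hab⟩ := (Finset.mem_filter.mp hr).2
      exact ⟨ab, fun _ => hab⟩
    · exact ⟨(0, 0), fun h' => absurd h' hr⟩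
  choose φ hφ using hch
  have hcard : Bad.card ≤ s * s := by
    have h1 : Bad.card ≤ (Finset.range s ×ˢ Finset.range s).card := by
      apply Finset.card_le_card_of_injOn φ
      · intro r hr
        have h2 := hφ r hr
        simp only [Finset.coe_product, Finset.coe_range, Set.mem_prod, Set.mem_Iio]
        exact ⟨h2.1.trans h2.2.1, h2.2.1⟩
      · intro r hr t ht hrt
        have key : ∀ r t, r ∈ Bad → t ∈ Bad → φ r = φ t → ¬ r < t := by
          intro r t hr ht hrt hlt
          obtain ⟨h1, h2, x, hx, hxa, hxb⟩ := hφ r hr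
          obtain ⟨h3, h4, y, hy, hya, hyb⟩ := hφ t ht
          rw [← hrt] at hya hyb
          have h5 := hh _ _ h1 h2 x y hxa hxb hya hyb
          have h6 := hC r t hlt (Finset.mem_range.mp (Finset.mem_filter.mp ht).1) x hx y hy
          exact h6.1 h5
        rcases lt_trichotomy r t with h7 | h7 | h7
        · exact absurd h7 (key r t hr ht hrt)
        · exact h7
        · exact absurd h7 (key t r ht hr hrt.symm)
    rwa [Finset.card_product, Finset.card_range] at h1
  have hgood : q ≤ ((Finset.range (q + s * s)) \ Bad).card := by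
    have h1 : Bad ⊆ Finset.range (q + s * s) := Finset.filter_subset _ _
    rw [Finset.card_sdiff_of_subset h1, Finset.card_range]
    omega
  obtain ⟨T, hT, hTc⟩ := Finset.exists_subset_card_eq hgood
  refine ⟨fun i => if hi : i < q then T.orderEmbOfFin hTc ⟨i, hi⟩ else 0, ?_, ?_, ?_⟩
  · intro i j hij hj
    simp only [dif_pos hj, dif_pos (hij.trans hj)]
    exact (T.orderEmbOfFin hTc).strictMono (by simpa using hij)
  · intro i hi
    simp only [dif_pos hi]
    have h1 := hT (Finset.orderEmbOfFin_mem T hTc ⟨i, hi⟩)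
    exact Finset.mem_range.mp (Finset.mem_sdiff.mp h1).1
  · intro i hi x hx a b hab hb hadj
    simp only [dif_pos hi] at hx
    have h1 := hT (Finset.orderEmbOfFin_mem T hTc ⟨i, hi⟩)
    obtain ⟨h2, h3⟩ := Finset.mem_sdiff.mp h1
    exact h3 (Finset.mem_filter.mpr ⟨h2, (a, b), hab, hb, x, hx, hadj.1, hadj.2⟩)

end Pool.Agent.Work.MP_c4d05f_lc.Hav
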