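import Pool.Agent.Work.MP_c4d05f_lc.N.Hav.Hub

/-!
# The greedy set (module `Greedy`, size S-M)

PROOF. `s₀, m₀` from `multihub l`; `s = s₀ + m₀ + 1`, `m = m₀ + 1`. Suppose that no `X` is as wanted.
Choose by recursion `h 0, h 1, …, h (s₀ - 1)`: for `X_i = {h 0, …, h (i-1)}` (at most `s₀` elements)
there is `h i` that is not dead at `X_i` and not `Small m`. It is white: otherwise
`HS.black_small` (`1 ≤ s ≤ k`) and `Small.mono`. For `j < i`, `h j` is dead at `X_i`
(`HS.dead_self`) and white, so `HS.oneCN` gives `h j ≠ h i` and `OneCN`. The negation of `Small m` says that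
`h i` is not detached at any `Z` with `Z.card ≤ m₀ ≤ m`. `multihub` gives `HasS`, contradiction.
(For the recursion: prove by induction on `n ≤ s₀` that there is `h : ℕ → V` with the properties for
all `i < n`, using `Function.update` for the step, or define `h` by strong recursion with
`Classical.choose`.)
-/

set_option autoImplicit false

namespace Pool.Agent.Work.MP_c4d05f_lc.Hav

/-- **Greedy set.** -/
theorem greedy (l : ℕ) : ∃ s m : ℕ, ∀ (V : Type) (k : ℕ) (H : HS V k), s ≤ k → ¬ HasS H.G l →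
    ∃ X : Finset V, X.card ≤ s ∧ ∀ v, ¬ H.Dead X v → H.Small m v := by
  classical
  obtain ⟨s₀, m₀, hub⟩ := multihub l
  refine ⟨s₀ + m₀ + 1, m₀ + 1, fun V k H hk hS => ?_⟩
  by_contra hcon
  have h0 : ∀ X : Finset V, X.card ≤ s₀ + m₀ + 1 → ∃ v, ¬ H.Dead X v ∧ ¬ H.Small (m₀ + 1) v := by
    intro X hX
    by_contra h1
    refine hcon ⟨X, hX, fun v hv => ?_⟩
    by_contra h2
    exact h1 ⟨v, hv, h2⟩
  obtain ⟨v₀, -⟩ := h0 ∅ (by simp)
  have h1 : ∀ X : Finset V, ∃ v, X.card ≤ s₀ + m₀ + 1 → ¬ H.Dead X v ∧ ¬ H.Small (m₀ + 1) v := by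
    intro X
    by_cases hX : X.card ≤ s₀ + m₀ + 1
    · obtain ⟨v, hv⟩ := h0 X hX
      exact ⟨v, fun _ => hv⟩
    · exact ⟨v₀, fun h => absurd h hX⟩
  choose F hF using h1
  obtain ⟨Xs, hX0, hXs⟩ : ∃ Xs : ℕ → Finset V, Xs 0 = ∅ ∧ ∀ n, Xs (n + 1) = insert (F (Xs n)) (Xs n) :=
    ⟨fun n => Nat.rec ∅ (fun _ X => insert (F X) X) n, rfl, fun _ => rfl⟩
  have hcard : ∀ n, (Xs n).card ≤ n := by
    intro n
    induction n with
    | zero => rw [hX0]; simp
    | succ n ih =>
      rw [hXs]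
      exact (Finset.card_insert_le _ _).trans (by omega)
  have hmem : ∀ i j, j < i → F (Xs j) ∈ Xs i := by
    intro i
    induction i with
    | zero => intro j hj; omega
    | succ i ih =>
      intro j hj
      rw [hXs]
      rcases Nat.lt_succ_iff_lt_or_eq.1 hj with h | h
      · exact Finset.mem_insert_of_mem (ih j h)
      · rw [h]
        exact Finset.mem_insert_self _ _
  have hgood : ∀ i, i < s₀ → ¬ H.Dead (Xs i) (F (Xs i)) ∧ ¬ H.Small (m₀ + 1) (F (Xs i)) :=
    fun i hi => hF _ ((hcard i).trans (by omega))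
  have hwhite : ∀ i, i < s₀ → F (Xs i) ∈ H.W := by
    intro i hi
    by_contra hw
    exact (hgood i hi).2 ((H.black_small (by omega) hw).mono (by omega))
  refine hS (hub V k H (fun i => F (Xs i)) (by omega) hwhite (fun i j hij hj => ?_)
    (fun i hi Z hZ hd => (hgood i hi).2 ⟨Z, hZ.trans (by omega), hd⟩))
  exact H.oneCN (H.dead_self (hmem j i hij)) (hwhite i (hij.trans hj)) (hgood j hj).1 (hwhite j hj)

end Pool.Agent.Work.MP_c4d05f_lc.Hav
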