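import Pool.Agent.Work.MP_c4d05f_lc.N.Hav.Tarm

/-!
# A spider from hubs and connectors (module `Spider`, size M)

The tree `S_{l,l,l}` has nodes `0, …, 3l`: node `0` is the centre, node `j * l + i`
(`j < 3`, `1 ≤ i ≤ l`) is the vertex number `i` of the leg `j`. Edge number `r < 3l` joins the node
`r + 1` to its parent `par l r` = `0` if `l ∣ r` (that is `r = 0, l, 2l`), otherwise `r`.
`g` are the hubs, `K r` the connector of the edge number `r`.

PROOF. `z = g 0`. `U j` (`j < 3`) is the set of all `g (j*l+i)`, `1 ≤ i ≤ l`, and of the sets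
`K (j*l+i-1)`, `1 ≤ i ≤ l`. Certificate `f j`: `0` at `z`; on `U j` the value at the hub
`g (j*l+i)` is `i`, and at the elements of `K (j*l+i-1)` it is `i` too (the connector before the hub
number `i`). [Define `f j x` = the least `i ≤ l` with `x = g (j*l+i)` (`i ≥ 1`) or
`x ∈ K (j*l+i-1)` (`i ≥ 1`), and `0` if `x = z`; the pieces are pairwise disjoint, so the value is
as stated.] Edges inside `U j ∪ {z}`: hubs are not adjacent to each other; different connectors
are anticomplete; inside a connector the value is constant; the hub number `i` is adjacent only to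
the connectors number `i` and `i + 1` (values `i` and `i+1`), `z` only to the connector number `1`
(value `1`). So `f x' ≤ f x + 1` for all adjacent `x, x'`. `Reach (U j) z (g (j*l+l))`: along the
connectors. `f (g (j*l+l)) = l`. The `U j` are pairwise anticomplete: hubs of different legs are
not adjacent, hubs do not touch connectors of other legs (for the first connector of a leg the
ends are `z` and the hub number 1), connectors are anticomplete. Apply `hasS_of_sets`.
-/

set_option autoImplicit false

namespace Pool.Agent.Work.MP_c4d05f_lc.Hav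

open Pool.Agent.Work.MP_c4d05f_lc (Reach)

/-- The parent of the node `r + 1`. -/
def par (l r : ℕ) : ℕ := if l ∣ r then 0 else r

/-- The piece number `i` of the leg `j`. -/
private def Pc {V : Type} (l : ℕ) (g : ℕ → V) (K : ℕ → Finset V) (j i : ℕ) (x : V) : Prop :=
  1 ≤ i ∧ i ≤ l ∧ (x = g (j * l + i) ∨ x ∈ K (j * l + i - 1))

private theorem par_le (l r : ℕ) : par l r ≤ r := by
  unfold par
  split_ifs <;> omega

private theorem par_cases (l r : ℕ) : par l r = 0 ∨ (par l r = r ∧ ¬ l ∣ r) := by
  unfold par
  split_ifs with h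
  · exact Or.inl rfl
  · exact Or.inr ⟨rfl, h⟩

private theorem not_dvd_leg {l j i : ℕ} (h1 : 1 ≤ i) (h2 : i < l) : ¬ l ∣ j * l + i := by
  intro h
  have h3 : l ∣ i := (Nat.dvd_add_right (Dvd.intro_left j rfl)).1 h
  have h4 := Nat.le_of_dvd (by omega) h3
  omega

/-- **Spider.** -/
theorem spider (l : ℕ) (hl : 1 ≤ l) (V : Type) (G : SimpleGraph V) (g : ℕ → V)
    (K : ℕ → Finset V)
    (hg : ∀ a b, a < b → b ≤ 3 * l → Apart G (g a) (g b))
    (hK : ∀ r t, r < t → t < 3 * l → ∀ u ∈ K r, ∀ v ∈ K t, Apart G u v)
    (hgK : ∀ a ≤ 3 * l, ∀ r < 3 * l, g a ∉ K r)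
    (hgK' : ∀ a ≤ 3 * l, ∀ r < 3 * l, a ≠ r + 1 → a ≠ par l r → ∀ x ∈ K r, ¬ G.Adj (g a) x)
    (hr : ∀ r < 3 * l, Reach G (insert (g (r + 1)) (K r : Set V)) (g (par l r)) (g (r + 1))) :
    HasS G l := by
  classical
  have hjl : ∀ j < 3, j * l + l ≤ 3 * l := by
    intro j hj
    have h1 : (j + 1) * l ≤ 3 * l := Nat.mul_le_mul_right l (by omega)
    have h2 : (j + 1) * l = j * l + l := by ring
    omega
  have hij : ∀ i j, i < j → i * l + l ≤ j * l := by
    intro i j h
    have h1 : (i + 1) * l ≤ j * l := Nat.mul_le_mul_right l (by omega)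
    have h2 : (i + 1) * l = i * l + l := by ring
    omega
  have hgne : ∀ a b, a ≠ b → a ≤ 3 * l → b ≤ 3 * l → Apart G (g a) (g b) := by
    intro a b hab ha hb
    rcases Nat.lt_or_gt_of_ne hab with h | h
    · exact hg a b h hb
    · exact (hg b a h ha).symm
  have hKne : ∀ r t, r ≠ t → r < 3 * l → t < 3 * l → ∀ u ∈ K r, ∀ v ∈ K t, Apart G u v := by
    intro r t hrt hr' ht u hu v hv
    rcases Nat.lt_or_gt_of_ne hrt with h | h
    · exact hK r t h ht u hu v hv
    · exact (hK t r h hr' v hv u hu).symm
  have huniq : ∀ j < 3, ∀ i i' x, Pc l g K j i x → Pc l g K j i' x → i = i' := by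
    intro j hj i i' x h h'
    obtain ⟨h1, h2, h3⟩ := h
    obtain ⟨h1', h2', h3'⟩ := h'
    have hb := hjl j hj
    by_contra hne
    rcases h3 with h3 | h3 <;> rcases h3' with h3' | h3'
    · exact (hgne (j * l + i) (j * l + i') (by omega) (by omega) (by omega)).1 (h3.symm.trans h3')
    · exact hgK (j * l + i) (by omega) (j * l + i' - 1) (by omega) (h3 ▸ h3')
    · exact hgK (j * l + i') (by omega) (j * l + i - 1) (by omega) (h3' ▸ h3)
    · exact (hKne (j * l + i - 1) (j * l + i' - 1) (by omega) (by omega) (by omega) x h3 x h3').1 rfl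
  let U : ℕ → Set V := fun j => {x | ∃ i, Pc l g K j i x}
  let f : ℕ → V → ℕ := fun j x => if h : ∃ i, Pc l g K j i x then Nat.find h else 0
  have hfv : ∀ j < 3, ∀ i x, Pc l g K j i x → f j x = i := by
    intro j hj i x h
    have hex : ∃ i, Pc l g K j i x := ⟨i, h⟩
    have h1 : f j x = Nat.find hex := dif_pos hex
    rw [h1]
    exact huniq j hj _ _ x (Nat.find_spec hex) h
  have hf0 : ∀ j < 3, f j (g 0) = 0 := by
    intro j hj
    have hb := hjl j hj
    refine dif_neg ?_
    rintro ⟨i, h1, h2, h3 | h3⟩
    · exact (hg 0 (j * l + i) (by omega) (by omega)).1 h3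
    · exact hgK 0 (by omega) (j * l + i - 1) (by omega) h3
  have hsub : ∀ j < 3, ∀ i, i < l → insert (g (j * l + i + 1)) (K (j * l + i) : Set V) ⊆ U j := by
    intro j hj i hi x hx
    refine ⟨i + 1, by omega, by omega, ?_⟩
    have e1 : j * l + (i + 1) = j * l + i + 1 := by omega
    have e2 : j * l + i + 1 - 1 = j * l + i := by omega
    rw [e1, e2]
    rcases hx with hx | hx
    · exact Or.inl hx
    · exact Or.inr hx
  have hreach : ∀ j < 3, ∀ i, 1 ≤ i → i ≤ l → Reach G (U j) (g 0) (g (j * l + i)) := by
    intro j hj i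
    have hb := hjl j hj
    induction i with
    | zero => intro h; omega
    | succ i ih =>
      intro _ h2
      have h3 := reach_mono_set (hsub j hj i (by omega)) (hr (j * l + i) (by omega))
      rcases Nat.eq_zero_or_pos i with h4 | h4
      · subst h4
        have h5 : par l (j * l + 0) = 0 := by
          unfold par
          rw [if_pos ⟨j, by ring⟩]
        rw [h5] at h3
        exact h3
      · have h5 : par l (j * l + i) = j * l + i := by
          unfold par
          rw [if_neg (not_dvd_leg h4 (by omega))]
        rw [h5] at h3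
        exact Relation.ReflTransGen.trans (ih h4 (by omega)) h3
  refine hasS_of_sets (g 0) U (fun j => g (j * l + l)) f ?_ ?_ hf0 ?_ ?_
  · -- anticomplete
    rintro i j hlt hj u ⟨a, ha1, ha2, ha3⟩ v ⟨b, hb1, hb2, hb3⟩
    have h1 := hij i j hlt
    have h2 := hjl j hj
    rcases ha3 with ha3 | ha3 <;> rcases hb3 with hb3 | hb3
    · rw [ha3, hb3]
      exact hg _ _ (by omega) (by omega)
    · refine ⟨?_, ?_⟩
      · intro he
        rw [← he, ha3] at hb3
        exact hgK _ (by omega) _ (by omega) hb3
      · rw [ha3]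
        refine hgK' (i * l + a) (by omega) (j * l + b - 1) (by omega) (by omega) ?_ v hb3
        intro h3
        rcases par_cases l (j * l + b - 1) with h4 | ⟨h4, h5⟩
        · omega
        · rw [h4] at h3
          apply h5
          have h6 : j * l + b - 1 = j * l := by omega
          rw [h6]
          exact ⟨j, by ring⟩
    · refine ⟨?_, ?_⟩
      · intro he
        rw [he, hb3] at ha3
        exact hgK _ (by omega) _ (by omega) ha3
      · intro hadj
        rw [hb3] at hadj
        have h3 := par_le l (i * l + a - 1)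
        exact hgK' (j * l + b) (by omega) (i * l + a - 1) (by omega) (by omega) (by omega) u ha3
          hadj.symm
    · exact hK (i * l + a - 1) (j * l + b - 1) (by omega) (by omega) u ha3 v hb3
  · intro j hj
    exact hreach j hj l hl (le_refl l)
  · intro j hj
    have h1 : f j (g (j * l + l)) = l := hfv j hj l _ ⟨hl, le_refl l, Or.inl rfl⟩
    exact le_of_eq h1.symm
  · rintro j hj x x' hx ⟨i', h1', h2', h3'⟩ hadj
    have hb := hjl j hj
    have hv' : f j x' = i' := hfv j hj i' x' ⟨h1', h2', h3'⟩
    rw [hv']
    rcases hx with ⟨i, h1, h2, h3⟩ | hx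
    · have hv : f j x = i := hfv j hj i x ⟨h1, h2, h3⟩
      rw [hv]
      by_contra hcon
      rcases h3 with h3 | h3 <;> rcases h3' with h3' | h3'
      · rw [h3, h3'] at hadj
        exact (hgne (j * l + i) (j * l + i') (by omega) (by omega) (by omega)).2 hadj
      · rw [h3] at hadj
        refine hgK' (j * l + i) (by omega) (j * l + i' - 1) (by omega) (by omega) ?_ x' h3' hadj
        intro h4
        rcases par_cases l (j * l + i' - 1) with h5 | ⟨h5, _⟩ <;> omega
      · rw [h3'] at hadj
        have h4 := par_le l (j * l + i - 1)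
        exact hgK' (j * l + i') (by omega) (j * l + i - 1) (by omega) (by omega) (by omega) x h3
          hadj.symm
      · exact (hKne (j * l + i - 1) (j * l + i' - 1) (by omega) (by omega) (by omega) x h3 x' h3').2
          hadj
    · rw [hx] at hadj ⊢
      rw [hf0 j hj]
      by_contra hcon
      rcases h3' with h3' | h3'
      · rw [h3'] at hadj
        exact (hg 0 (j * l + i') (by omega) (by omega)).2 hadj
      · refine hgK' 0 (by omega) (j * l + i' - 1) (by omega) (by omega) ?_ x' h3' hadj
        intro h4
        have h5 : ¬ l ∣ j * l + i' - 1 := by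
          have h6 : j * l + i' - 1 = j * l + (i' - 1) := by omega
          rw [h6]
          exact not_dvd_leg (by omega) (by omega)
        unfold par at h4
        rw [if_neg h5] at h4
        omega

end Pool.Agent.Work.MP_c4d05f_lc.Hav
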