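import Pool.Agent.Work.MP_c4d05f_lc.N.Hav.Ram

/-!
# Choosing hubs that do not touch connectors (module `Touch`, size M, Mathlib and `ram3` only)

PROOF. Let `c i j k` (for `i < j < k`) be the triple of truth values of
`∃ r < q, T r i j k`, `∃ r < q, T r i k j`, `∃ r < q, T r j k i` (colour type
`Bool × Bool × Bool` or `Prop`-valued functions turned into `Bool` by `decide`), and take
`M = n + q * t + 4` and `s = N` from `ram3`. Let `f` be the homogeneous function. If the first
colour is true: for `i = f 0`, `j = f 1` every `k = f 2, …, f (q*t+2)` has `∃ r < q, T r i j k`;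
these are `q * t + 1` values of `k < s`, and for each `r < q` at most `t` of them: contradiction.
Similarly for the second (`i = f 0`, `k = f (q*t+2)`, `j` = the `q*t+1` values between) and the third
(`j = f (q*t+1)`, `k = f (q*t+2)`, `i` = the `q*t+1` values before). So all three are false, and
`f` restricted to `< n` is as wanted: for `i < j < n`, `k < n`, `k ≠ i`, `k ≠ j`, the three cases
`j < k`, `i < k < j`, `k < i` are the three colours.
-/

set_option autoImplicit false

namespace Pool.Agent.Work.MP_c4d05f_lc.Hav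

private theorem touch_pig (q t s : ℕ) (T : ℕ → ℕ → ℕ → ℕ → Prop)
    (hT : ∀ r < q, ∀ a b, a < b → b < s →
      ∀ F : Finset ℕ, (∀ c ∈ F, c < s ∧ c ≠ a ∧ c ≠ b ∧ T r a b c) → F.card ≤ t)
    (a b : ℕ) (hab : a < b) (hb : b < s) (F : Finset ℕ)
    (hF : ∀ c ∈ F, c < s ∧ c ≠ a ∧ c ≠ b ∧ ∃ r < q, T r a b c) : F.card ≤ q * t := by
  classical
  have h1 : F ⊆ (Finset.range q).biUnion (fun r => F.filter (fun c => T r a b c)) := by
    intro c hc
    obtain ⟨_, _, _, r, hr, hT'⟩ := hF c hc
    rw [Finset.mem_biUnion]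
    exact ⟨r, Finset.mem_range.mpr hr, Finset.mem_filter.mpr ⟨hc, hT'⟩⟩
  calc F.card ≤ ((Finset.range q).biUnion (fun r => F.filter (fun c => T r a b c))).card :=
        Finset.card_le_card h1
    _ ≤ (Finset.range q).card * t := by
        apply Finset.card_biUnion_le_card_mul
        intro r hr
        apply hT r (Finset.mem_range.mp hr) a b hab hb
        intro c hc
        obtain ⟨hc1, hc2⟩ := Finset.mem_filter.mp hc
        obtain ⟨h2, h3, h4, _⟩ := hF c hc1
        exact ⟨h2, h3, h4, hc2⟩
    _ = q * t := by rw [Finset.card_range]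

/-- **Hubs that do not touch connectors.** -/
theorem touch (n q t : ℕ) : ∃ s : ℕ, ∀ T : ℕ → ℕ → ℕ → ℕ → Prop,
    (∀ r < q, ∀ a b, a < b → b < s →
      ∀ F : Finset ℕ, (∀ c ∈ F, c < s ∧ c ≠ a ∧ c ≠ b ∧ T r a b c) → F.card ≤ t) →
    ∃ f : ℕ → ℕ, StrictMono f ∧ (∀ i < n, f i < s) ∧
      ∀ r < q, ∀ i j k, i < j → j < n → k < n → k ≠ i → k ≠ j → ¬ T r (f i) (f j) (f k) := by
  classical
  obtain ⟨N, hN⟩ := ram3 (Prop × Prop × Prop) (n + q * t + 4)
  refine ⟨N, fun T hT => ?_⟩
  obtain ⟨f, a, hf, hfN, hfa⟩ := hN (fun i j k =>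
    ((∃ r < q, T r i j k), (∃ r < q, T r i k j), (∃ r < q, T r j k i)))
  have hcard : ∀ g : ℕ → ℕ, Function.Injective g →
      ((Finset.range (q * t + 1)).image g).card = q * t + 1 := by
    intro g hg
    rw [Finset.card_image_of_injective _ hg, Finset.card_range]
  have e1 : ∀ i j k, i < j → j < k → k < n + q * t + 4 →
      ((∃ r < q, T r (f i) (f j) (f k)) ↔ a.1) := by
    intro i j k h1 h2 h3
    rw [← hfa i j k h1 h2 h3]
  have e2 : ∀ i j k, i < j → j < k → k < n + q * t + 4 →
      ((∃ r < q, T r (f i) (f k) (f j)) ↔ a.2.1) := by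
    intro i j k h1 h2 h3
    rw [← hfa i j k h1 h2 h3]
  have e3 : ∀ i j k, i < j → j < k → k < n + q * t + 4 →
      ((∃ r < q, T r (f j) (f k) (f i)) ↔ a.2.2) := by
    intro i j k h1 h2 h3
    rw [← hfa i j k h1 h2 h3]
  have n1 : ¬ a.1 := by
    intro ha
    have := touch_pig q t N T hT (f 0) (f 1) (hf (by omega)) (hfN 1 (by omega))
      ((Finset.range (q * t + 1)).image (fun m => f (m + 2))) (by
        intro c hc
        obtain ⟨m, hm, rfl⟩ := Finset.mem_image.mp hc
        have hm' := Finset.mem_range.mp hm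
        exact ⟨hfN _ (by omega), (hf (by omega : 0 < m + 2)).ne', (hf (by omega : 1 < m + 2)).ne',
          (e1 0 1 (m + 2) (by omega) (by omega) (by omega)).mpr ha⟩)
    rw [hcard _ (fun x y hxy => by have := hf.injective hxy; omega)] at this
    omega
  have n2 : ¬ a.2.1 := by
    intro ha
    have := touch_pig q t N T hT (f 0) (f (q * t + 2)) (hf (by omega)) (hfN _ (by omega))
      ((Finset.range (q * t + 1)).image (fun m => f (m + 1))) (by
        intro c hc
        obtain ⟨m, hm, rfl⟩ := Finset.mem_image.mp hc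
        have hm' := Finset.mem_range.mp hm
        exact ⟨hfN _ (by omega), (hf (by omega : 0 < m + 1)).ne',
          (hf (by omega : m + 1 < q * t + 2)).ne,
          (e2 0 (m + 1) (q * t + 2) (by omega) (by omega) (by omega)).mpr ha⟩)
    rw [hcard _ (fun x y hxy => by have := hf.injective hxy; omega)] at this
    omega
  have n3 : ¬ a.2.2 := by
    intro ha
    have := touch_pig q t N T hT (f (q * t + 1)) (f (q * t + 2)) (hf (by omega))
      (hfN _ (by omega)) ((Finset.range (q * t + 1)).image (fun m => f m)) (by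
        intro c hc
        obtain ⟨m, hm, rfl⟩ := Finset.mem_image.mp hc
        have hm' := Finset.mem_range.mp hm
        exact ⟨hfN _ (by omega), (hf (by omega : m < q * t + 1)).ne,
          (hf (by omega : m < q * t + 2)).ne,
          (e3 m (q * t + 1) (q * t + 2) (by omega) (by omega) (by omega)).mpr ha⟩)
    rw [hcard _ (fun x y hxy => hf.injective hxy)] at this
    omega
  refine ⟨f, hf, fun i hi => hfN i (by omega), ?_⟩
  intro r hr i j k hij hj hk hki hkj hTr
  rcases Nat.lt_trichotomy j k with h | h | h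
  · exact n1 ((e1 i j k hij h (by omega)).mp ⟨r, hr, hTr⟩)
  · exact hkj h.symm
  · rcases Nat.lt_trichotomy i k with h' | h' | h'
    · exact n2 ((e2 i k j h' h (by omega)).mp ⟨r, hr, hTr⟩)
    · exact hki h'.symm
    · exact n3 ((e3 k i j h' hij (by omega)).mp ⟨r, hr, hTr⟩)

end Pool.Agent.Work.MP_c4d05f_lc.Hav
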