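import Pool.Agent.Work.MP_c4d05f_lc.N.Hav.Rounds
import Pool.Agent.Work.MP_c4d05f_lc.N.Hav.Drop
import Pool.Agent.Work.MP_c4d05f_lc.N.Hav.Cont
import Pool.Agent.Work.MP_c4d05f_lc.N.Hav.Touch
import Pool.Agent.Work.MP_c4d05f_lc.N.Hav.Spider

/-!
# The multi-hub lemma (assembly)

PROOF (case `l ≥ 1`; for `l = 0` `HasS G 0` is trivial as soon as there is a vertex).
`s` from `touch (3l+1) (3l) (2l+1)` (increased to be `≥ 1`), `q = 3l + s²`, `m` from
`rounds l s q`. Suppose not `HasS`. Rounds: `C r`, `y r` for `r < q`; `drop_rounds` gives `3l` rounds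
such that no element of `C r` is adjacent to two hubs. Connectors `con r a b` (`a < b < s`) by
`connector`. `T r a b c` := `h c` is adjacent to an element of `con r a b`. For fixed `r, a, b` the
number of `c` with `T` is at most the number of elements of `con r a b`, since each of them is
adjacent to at most one hub. `touch` gives hubs `g i = h (f i)`, `i ≤ 3l`, and
`K r = con r (f (par l r)) (f (r+1))` (`par l r < r + 1`). Apply `spider`.
-/

set_option autoImplicit false

namespace Pool.Agent.Work.MP_c4d05f_lc.Hav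

open Pool.Agent.Work.MP_c4d05f_lc (Reach)

/-- **Multi-hub lemma.** -/
theorem multihub (l : ℕ) : ∃ s m : ℕ, ∀ (V : Type) (k : ℕ) (H : HS V k) (h : ℕ → V),
    m ≤ k → (∀ i < s, h i ∈ H.W) →
    (∀ i j, i < j → j < s → h i ≠ h j ∧ OneCN H.G (h i) (h j)) →
    (∀ i < s, ∀ Z : Finset V, Z.card ≤ m → ¬ H.Det Z (h i)) → HasS H.G l := by
  classical
  rcases Nat.eq_zero_or_pos l with hl | hl
  · subst hl
    refine ⟨0, 0, fun V k H h _ _ _ _ => ?_⟩
    obtain ⟨z, _⟩ := H.nonempty ∅ (by simp)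
    exact ⟨z, fun _ _ => z, fun i _ => ⟨fun i j hij hj => absurd hj (by omega), rfl⟩,
      fun i j _ _ a b h1 h2 => absurd h1 (by omega)⟩
  · obtain ⟨s, hs⟩ := touch (3 * l + 1) (3 * l) (2 * l + 1)
    obtain ⟨m, hm⟩ := rounds l s (3 * l + s * s)
    refine ⟨s, m, fun V k H h hmk hW hcn hdet => ?_⟩
    by_contra hno
    obtain ⟨C, y, hy, hnear, hhC, hanti⟩ := hm V k H h hno hmk hdet
    obtain ⟨f, hf1, hf2, hf3⟩ := drop_rounds s (3 * l) V H.G h C
      (fun a b hab hb => (hcn a b hab hb).2) hanti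
    have hcon : ∀ r a b, ∃ K : Finset V, r < 3 * l → a < b → b < s →
        K ⊆ C (f r) ∧ K.card ≤ 2 * l + 1 ∧ Reach H.G (insert (h b) (K : Set V)) (h a) (h b) := by
      intro r a b
      by_cases hcond : r < 3 * l ∧ a < b ∧ b < s
      · obtain ⟨hr, hab, hb⟩ := hcond
        obtain ⟨K, hK1, hK2, hK3⟩ := connector l V H.G (C (f r)) (y (f r)) (h a) (h b)
          (hy _ (hf2 r hr)) (hhC _ (hf2 r hr) a (by omega)) (hhC _ (hf2 r hr) b hb)
          (hnear _ (hf2 r hr) a (by omega)) (hnear _ (hf2 r hr) b hb)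
        exact ⟨K, fun _ _ _ => ⟨hK1, hK2, hK3⟩⟩
      · exact ⟨∅, fun h1 h2 h3 => absurd ⟨h1, h2, h3⟩ hcond⟩
    choose con hcon using hcon
    obtain ⟨φ, hφ, hφs, hφT⟩ := hs (fun r a b c => ∃ x ∈ con r a b, H.G.Adj (h c) x) (by
      intro r hr a b hab hb F hF
      have hx : ∀ c, ∃ x, c ∈ F → x ∈ con r a b ∧ H.G.Adj (h c) x := by
        intro c
        by_cases hc : c ∈ F
        · obtain ⟨_, _, _, x, hx1, hx2⟩ := hF c hc
          exact ⟨x, fun _ => ⟨hx1, hx2⟩⟩
        · exact ⟨h 0, fun h' => absurd h' hc⟩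
      choose ψ hψ using hx
      obtain ⟨hK1, hK2, _⟩ := hcon r a b hr hab hb
      refine le_trans (Finset.card_le_card_of_injOn ψ (fun c hc => (hψ c hc).1) ?_) hK2
      intro c hc c' hc' hcc
      by_contra hne
      have hc1 := hψ c hc
      have hc2 := hψ c' hc'
      have hcs := (hF c hc).1
      have hcs' := (hF c' hc').1
      rcases Nat.lt_or_gt_of_ne hne with hlt | hlt
      · exact hf3 r hr (ψ c) (hK1 hc1.1) c c' hlt hcs' ⟨hc1.2, hcc ▸ hc2.2⟩
      · exact hf3 r hr (ψ c) (hK1 hc1.1) c' c hlt hcs ⟨hcc ▸ hc2.2, hc1.2⟩)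
    have hpar : ∀ r, par l r < r + 1 := by
      intro r
      unfold par
      split_ifs <;> omega
    have hK : ∀ r < 3 * l, con r (φ (par l r)) (φ (r + 1)) ⊆ C (f r) ∧
        Reach H.G (insert (h (φ (r + 1))) (con r (φ (par l r)) (φ (r + 1)) : Set V))
          (h (φ (par l r))) (h (φ (r + 1))) := by
      intro r hr
      obtain ⟨h1, _, h2⟩ := hcon r (φ (par l r)) (φ (r + 1)) hr (hφ (hpar r)) (hφs _ (by omega))
      exact ⟨h1, h2⟩
    apply hno
    refine spider l hl V H.G (fun a => h (φ a)) (fun r => con r (φ (par l r)) (φ (r + 1)))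
      ?_ ?_ ?_ ?_ ?_
    · intro a b hab hb
      have hab' := hφ hab
      have hbs := hφs b (by omega)
      exact ⟨(hcn _ _ hab' hbs).1, H.indep _ (hW _ (by omega)) _ (hW _ hbs)⟩
    · intro r t hrt ht u hu v hv
      exact hanti (f r) (f t) (hf1 r t hrt ht) (hf2 t ht) u ((hK r (by omega)).1 hu) v
        ((hK t ht).1 hv)
    · intro a ha r hr hmem
      exact hhC (f r) (hf2 r hr) (φ a) (hφs a (by omega)) ((hK r hr).1 hmem)
    · intro a ha r hr h1 h2 x hx hadj
      exact hφT r hr (par l r) (r + 1) a (hpar r) (by omega) (by omega) h2 h1 ⟨x, hx, hadj⟩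
    · intro r hr
      exact (hK r hr).2

end Pool.Agent.Work.MP_c4d05f_lc.Hav
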