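import Pool.Agent.Work.MP_c4d05f_lc.N.Hav.Tarm

/-!
# Three terminals (module `Three`, size M-L, pure graph theory)

`J` is connected, `p i 0 ∈ J` (`i < 3`) are the terminals, `p i 1, …, p i l` the arms, outside `J`,
pairwise anticomplete; the only edges between an arm and `J` is `p i 1 ~ p i 0`.

PROOF. Let `x 0 = p 0 0, …, x d = p 1 0` be the path of `geod_conn` in `J`, `B = {x i | i ≤ d}`,
`e = p 2 0`.
In all cases `hasS_of_sets` or `hasL_of_sets` is applied with `y i = p i l` and the certificate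
`f i w` = the `j` with `w = p i j`, `1 ≤ j ≤ l`, and `0` for all other `w` (for `w ∈ J`): the only
edge from `J` into the arm is `p i 0 ~ p i 1`. `arm i` = `{p i j | 1 ≤ j ≤ l}`; it is anticomplete to
`J \ {p i 0}` and to the other arms.
(a) `e = x i`: `z = x i`, `U 0 = {x j | j < i} ∪ arm 0`, `U 1 = {x j | i < j ≤ d} ∪ arm 1`, `U 2 = arm 2`.
(b) `e ∉ B`. `geod_set` in `J` from `e` to `B' = B ∪ {w | w has a neighbour in B}`... take
instead the shortest path `y 0 = e, …, y (n+1) ∈ B` from `e` to `B` (`geod_set` with `B`; `y i ∉ B` for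
`i ≤ n`, `y i` has no neighbour in `B` for `i < n`, `y n` has the neighbour `y (n+1)` in `B`). Let
`i ≤ j ≤ d` be the least and the largest index of a neighbour of `y n` in `B`; `j ≤ i + 2` by
`geod_conn`.
 - `j = i`: `z = x i`, `U 0 = {x t | t < i} ∪ arm 0`, `U 1 = {x t | i < t ≤ d} ∪ arm 1`,
   `U 2 = {y t | t ≤ n} ∪ arm 2`.
 - `j = i + 1`: net with `z 0 = x i`, `z 1 = x (i+1)`, `z 2 = y n`, `U 0 = {x t | t < i} ∪ arm 0`,
   `U 1 = {x t | i + 1 < t ≤ d} ∪ arm 1`, `U 2 = {y t | t < n} ∪ arm 2`.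
 - `j = i + 2`: `z = y n`, `U 0 = {x t | t ≤ i} ∪ arm 0`, `U 1 = {x t | i + 2 ≤ t ≤ d} ∪ arm 1`,
   `U 2 = {y t | t < n} ∪ arm 2`.
(If `l = 0` then `HasS G 0` is trivial.)
-/

set_option autoImplicit false

namespace Pool.Agent.Work.MP_c4d05f_lc.Hav

open Pool.Agent.Work.MP_c4d05f_lc (Reach Step)

variable {V : Type}

/-- the arm `i` -/
private def armS (p : ℕ → ℕ → V) (l i : ℕ) : Set V := {v | ∃ j, 1 ≤ j ∧ j ≤ l ∧ v = p i j}

open scoped Classical in
/-- the certificate -/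
private noncomputable def cert (p : ℕ → ℕ → V) (l i : ℕ) (w : V) : ℕ :=
  if h : ∃ j, 1 ≤ j ∧ j ≤ l ∧ w = p i j then h.choose else 0

/-- the hypotheses -/
private structure TT (l : ℕ) (G : SimpleGraph V) (J : Set V) (p : ℕ → ℕ → V) : Prop where
  h0 : ∀ i < 3, p i 0 ∈ J
  h1 : ∀ i < 3, ∀ j, 1 ≤ j → j ≤ l → p i j ∉ J
  hp : ∀ i < 3, IndSeq G (l + 1) (p i)
  harm : ∀ i i', i < i' → i' < 3 → ∀ j j', 1 ≤ j → j ≤ l → 1 ≤ j' → j' ≤ l →
      Apart G (p i j) (p i' j')
  hne : ∀ i i', i < i' → i' < 3 → p i 0 ≠ p i' 0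
  hedge : ∀ i < 3, ∀ j, 1 ≤ j → j ≤ l → ∀ x ∈ J, G.Adj (p i j) x → j = 1 ∧ x = p i 0

variable {l : ℕ} {G : SimpleGraph V} {J : Set V} {p : ℕ → ℕ → V}

private theorem cert_arm (T : TT l G J p) {i : ℕ} (hi : i < 3) {j : ℕ} (hj1 : 1 ≤ j)
    (hj2 : j ≤ l) : cert p l i (p i j) = j := by
  classical
  have h : ∃ j', 1 ≤ j' ∧ j' ≤ l ∧ p i j = p i j' := ⟨j, hj1, hj2, rfl⟩
  unfold cert
  rw [dif_pos h]
  obtain ⟨h2, h3, h4⟩ := h.choose_spec
  rcases lt_trichotomy h.choose j with h5 | h5 | h5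
  · exact absurd h4.symm (T.hp i hi _ _ h5 (by omega)).1
  · exact h5
  · exact absurd h4 (T.hp i hi _ _ h5 (by omega)).1

private theorem cert_J (T : TT l G J p) {i : ℕ} (hi : i < 3) {x : V} (hx : x ∈ J) :
    cert p l i x = 0 := by
  classical
  unfold cert
  rw [dif_neg]
  rintro ⟨j, hj1, hj2, rfl⟩
  exact T.h1 i hi j hj1 hj2 hx

private theorem cert_step (T : TT l G J p) {i : ℕ} (hi : i < 3) {C : Set V} (hC : C ⊆ J) {z : V}
    (hz : z ∈ J) (x x' : V) (hx : x ∈ C ∪ armS p l i ∨ x = z) (hx' : x' ∈ C ∪ armS p l i)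
    (h : G.Adj x x') : cert p l i x' ≤ cert p l i x + 1 := by
  rcases hx' with hx' | ⟨j, hj1, hj2, rfl⟩
  · rw [cert_J T hi (hC hx')]
    omega
  · rw [cert_arm T hi hj1 hj2]
    have hJ : x ∈ J → j ≤ cert p l i x + 1 := by
      intro hxJ
      have := (T.hedge i hi j hj1 hj2 x hxJ h.symm).1
      omega
    rcases hx with (hx | ⟨j', hj1', hj2', rfl⟩) | rfl
    · exact hJ (hC hx)
    · rw [cert_arm T hi hj1' hj2']
      by_contra hcon
      have h2 := (T.hp i hi j' j (by omega) (by omega)).2.1 h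
      omega
    · exact hJ hz

private theorem reach_up {C : Set V} {u : ℕ → V} (s n : ℕ)
    (hadj : ∀ t, s ≤ t → t < s + n → G.Adj (u t) (u (t + 1)))
    (hC : ∀ t, s < t → t ≤ s + n → u t ∈ C) : Reach G C (u s) (u (s + n)) := by
  induction n with
  | zero => exact Relation.ReflTransGen.refl
  | succ n ih =>
    refine (ih (fun t h1 h2 => hadj t h1 (by omega)) (fun t h1 h2 => hC t h1 (by omega))).tail ?_
    exact ⟨hadj (s + n) (by omega) (by omega), hC _ (by omega) (by omega)⟩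

private theorem reach_down {C : Set V} {u : ℕ → V} (m : ℕ)
    (hadj : ∀ t < m, G.Adj (u t) (u (t + 1))) (hC : ∀ t < m, u t ∈ C) :
    Reach G C (u m) (u 0) := by
  induction m with
  | zero => exact Relation.ReflTransGen.refl
  | succ m ih =>
    refine Relation.ReflTransGen.head ⟨(hadj m (by omega)).symm, hC m (by omega)⟩ ?_
    exact ih (fun t ht => hadj t (by omega)) (fun t ht => hC t (by omega))

private theorem reach_mono' {C D : Set V} (h : C ⊆ D) {a b : V} (hr : Reach G C a b) :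
    Reach G D a b :=
  Relation.ReflTransGen.mono (fun _ _ h1 => ⟨h1.1, h h1.2⟩) _ _ hr

private theorem reach_arm (T : TT l G J p) {i : ℕ} (hi : i < 3) {C : Set V} {z : V}
    (hr : Reach G C z (p i 0)) : Reach G (C ∪ armS p l i) z (p i l) := by
  refine (reach_mono' Set.subset_union_left hr).trans ?_
  have h2 := reach_up (G := G) (C := C ∪ armS p l i) (u := p i) 0 l
    (fun t _ ht => (T.hp i hi t (t + 1) (by omega) (by omega)).2.2 rfl)
    (fun t h1 h2 => Or.inr ⟨t, by omega, by omega, rfl⟩)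
  rwa [Nat.zero_add] at h2

private theorem anti_U (T : TT l G J p) {i i' : ℕ} (hii : i < i') (hi' : i' < 3) {C C' : Set V}
    (hC : C ⊆ J) (hC' : C' ⊆ J) (hCC : Anti G C C') (h1 : p i' 0 ∉ C) (h2 : p i 0 ∉ C') :
    Anti G (C ∪ armS p l i) (C' ∪ armS p l i') := by
  rintro u (hu | ⟨j, hj1, hj2, rfl⟩) v (hv | ⟨j', hj1', hj2', rfl⟩)
  · exact hCC u hu v hv
  · refine ⟨fun h => T.h1 i' hi' j' hj1' hj2' (h ▸ hC hu), fun h => ?_⟩
    exact h1 ((T.hedge i' hi' j' hj1' hj2' u (hC hu) h.symm).2 ▸ hu)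
  · refine ⟨fun h => T.h1 i (by omega) j hj1 hj2 (h ▸ hC' hv), fun h => ?_⟩
    exact h2 ((T.hedge i (by omega) j hj1 hj2 v (hC' hv) h).2 ▸ hv)
  · exact T.harm i i' hii hi' j j' hj1 hj2 hj1' hj2'

private theorem fy_arm (T : TT l G J p) {i : ℕ} (hi : i < 3) : l ≤ cert p l i (p i l) := by
  rcases Nat.eq_zero_or_pos l with h | h
  · omega
  · rw [cert_arm T hi h le_rfl]

private theorem asmS (T : TT l G J p) {z : V} (hz : z ∈ J) (C : ℕ → Set V)
    (hCJ : ∀ i < 3, C i ⊆ J) (hCC : ∀ i j, i < j → j < 3 → Anti G (C i) (C j))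
    (hp0 : ∀ i j, i ≠ j → i < 3 → j < 3 → p j 0 ∉ C i)
    (hr : ∀ i < 3, Reach G (C i) z (p i 0)) : HasS G l :=
  hasS_of_sets z (fun i => C i ∪ armS p l i) (fun i => p i l) (fun i => cert p l i)
    (fun i j hij hj => anti_U T hij hj (hCJ i (by omega)) (hCJ j hj) (hCC i j hij hj)
      (hp0 i j (by omega) (by omega) hj) (hp0 j i (by omega) hj (by omega)))
    (fun i hi => reach_arm T hi (hr i hi))
    (fun i hi => cert_J T hi hz)
    (fun i hi => fy_arm T hi)
    (fun i hi x x' => cert_step T hi (hCJ i hi) hz x x')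

private theorem asmL (T : TT l G J p) (z : ℕ → V) (hz : ∀ i < 3, z i ∈ J)
    (tri : ∀ i j, i < j → j < 3 → G.Adj (z i) (z j)) (C : ℕ → Set V)
    (hCJ : ∀ i < 3, C i ⊆ J) (hCC : ∀ i j, i < j → j < 3 → Anti G (C i) (C j))
    (hzC : ∀ i j, i ≠ j → i < 3 → j < 3 → ∀ x ∈ C j, Apart G (z i) x)
    (hp0 : ∀ i j, i ≠ j → i < 3 → j < 3 → p j 0 ∉ C i)
    (hzp : ∀ i j, i ≠ j → i < 3 → j < 3 → z i ≠ p j 0)
    (hr : ∀ i < 3, Reach G (C i) (z i) (p i 0)) : HasL G l :=
  hasL_of_sets z (fun i => C i ∪ armS p l i) (fun i => p i l) (fun i => cert p l i) tri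
    (fun i j hij hj => anti_U T hij hj (hCJ i (by omega)) (hCJ j hj) (hCC i j hij hj)
      (hp0 i j (by omega) (by omega) hj) (hp0 j i (by omega) hj (by omega)))
    (fun i j hij hi hj x hx => by
      rcases hx with hx | ⟨t, ht1, ht2, rfl⟩
      · exact hzC i j hij hi hj x hx
      · refine ⟨fun h => T.h1 j hj t ht1 ht2 (h ▸ hz i hi), fun h => ?_⟩
        exact hzp i j hij hi hj (T.hedge j hj t ht1 ht2 (z i) (hz i hi) h.symm).2)
    (fun i hi => reach_arm T hi (hr i hi))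
    (fun i hi => cert_J T hi (hz i hi))
    (fun i hi => fy_arm T hi)
    (fun i hi x x' => cert_step T hi (hCJ i hi) (hz i hi) x x')

/-- three sets as a function -/
private def tri3 {α : Type} (a b c : α) : ℕ → α
  | 0 => a
  | 1 => b
  | _ => c

private theorem all3 {P : ℕ → Prop} (h0 : P 0) (h1 : P 1) (h2 : P 2) : ∀ i < 3, P i := by
  intro i hi
  interval_cases i
  · exact h0
  · exact h1
  · exact h2

private theorem pair3 {P : ℕ → ℕ → Prop} (h01 : P 0 1) (h02 : P 0 2) (h12 : P 1 2) :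
    ∀ i j, i < j → j < 3 → P i j := by
  intro i j hij hj
  interval_cases j
  · omega
  · have : i = 0 := by omega
    subst this
    exact h01
  · have : i = 0 ∨ i = 1 := by omega
    rcases this with rfl | rfl
    · exact h02
    · exact h12

private theorem off3 {P : ℕ → ℕ → Prop} (h01 : P 0 1) (h02 : P 0 2) (h10 : P 1 0) (h12 : P 1 2)
    (h20 : P 2 0) (h21 : P 2 1) : ∀ i j, i ≠ j → i < 3 → j < 3 → P i j := by
  intro i j hij hi hj
  interval_cases i <;> interval_cases j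
  · exact absurd rfl hij
  · exact h01
  · exact h02
  · exact h10
  · exact absurd rfl hij
  · exact h12
  · exact h20
  · exact h21
  · exact absurd rfl hij

/-- **Three terminals.** -/
theorem three (l : ℕ) (V : Type) (G : SimpleGraph V) (J : Set V) (p : ℕ → ℕ → V)
    (hJ : Conn G J) (h0 : ∀ i < 3, p i 0 ∈ J) (h1 : ∀ i < 3, ∀ j, 1 ≤ j → j ≤ l → p i j ∉ J)
    (hp : ∀ i < 3, IndSeq G (l + 1) (p i))
    (harm : ∀ i i', i < i' → i' < 3 → ∀ j j', 1 ≤ j → j ≤ l → 1 ≤ j' → j' ≤ l →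
      Apart G (p i j) (p i' j'))
    (hne : ∀ i i', i < i' → i' < 3 → p i 0 ≠ p i' 0)
    (hedge : ∀ i < 3, ∀ j, 1 ≤ j → j ≤ l → ∀ x ∈ J, G.Adj (p i j) x → j = 1 ∧ x = p i 0) :
    HasS G l ∨ HasL G l := by
  classical
  have T : TT l G J p := ⟨h0, h1, hp, harm, hne, hedge⟩
  obtain ⟨d, x, hx, hx0, hxd, hxJ, hxc⟩ := geod_conn hJ (h0 0 (by omega)) (h0 1 (by omega))
  have xne : ∀ i j, i < j → j ≤ d → x i ≠ x j := fun i j hij hj => (hx i j hij (by omega)).1
  have xna : ∀ i j, i + 1 < j → j ≤ d → Apart G (x i) (x j) := fun i j hij hj =>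
    ⟨(hx i j (by omega) (by omega)).1, fun h => by
      have := (hx i j (by omega) (by omega)).2.1 h
      omega⟩
  have xadj : ∀ t, t < d → G.Adj (x t) (x (t + 1)) := fun t ht =>
    (hx t (t + 1) (by omega) (by omega)).2.2 rfl
  have hup : ∀ (C : Set V) (s : ℕ), s ≤ d → (∀ t, s < t → t ≤ d → x t ∈ C) →
      Reach G C (x s) (p 1 0) := by
    intro C s hs hC
    have h2 := reach_up (G := G) (C := C) (u := x) s (d - s)
      (fun t _ ht => xadj t (by omega)) (fun t h3 h4 => hC t h3 (by omega))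
    have e : s + (d - s) = d := by omega
    rwa [e, hxd] at h2
  have hdown : ∀ (C : Set V) (m : ℕ), m ≤ d → (∀ t < m, x t ∈ C) → Reach G C (x m) (p 0 0) := by
    intro C m hm hC
    have h2 := reach_down (G := G) (C := C) (u := x) m (fun t ht => xadj t (by omega)) hC
    rwa [hx0] at h2
  by_cases he : ∃ i ≤ d, p 2 0 = x i
  · -- the third terminal is on the path
    left
    obtain ⟨i, hi, hei⟩ := he
    have hi0 : 0 < i := by
      by_contra hcon
      have : i = 0 := by omega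
      subst this
      exact hne 0 2 (by omega) (by omega) (by rw [hei, hx0])
    have hid : i < d := by
      by_contra hcon
      have : i = d := by omega
      subst this
      exact hne 1 2 (by omega) (by omega) (by rw [hei, hxd])
    refine asmS T (z := x i) (hxJ i hi)
      (tri3 {v | ∃ t, t < i ∧ v = x t} {v | ∃ t, i < t ∧ t ≤ d ∧ v = x t} ∅)
      (all3 ?_ ?_ ?_) (pair3 ?_ ?_ ?_) (off3 ?_ ?_ ?_ ?_ ?_ ?_) (all3 ?_ ?_ ?_)
    · rintro v ⟨t, ht, rfl⟩
      exact hxJ t (by omega)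
    · rintro v ⟨t, ht, ht', rfl⟩
      exact hxJ t ht'
    · exact Set.empty_subset J
    · rintro u ⟨t, ht, rfl⟩ v ⟨t', ht', htd, rfl⟩
      exact xna t t' (by omega) htd
    · rintro u - v hv
      exact absurd hv (Set.notMem_empty v)
    · rintro u - v hv
      exact absurd hv (Set.notMem_empty v)
    · rintro ⟨t, ht, h⟩
      rw [← hxd] at h
      exact xne t d (by omega) le_rfl h.symm
    · rintro ⟨t, ht, h⟩
      rw [hei] at h
      exact xne t i ht hi h.symm
    · rintro ⟨t, ht, htd, h⟩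
      rw [← hx0] at h
      exact xne 0 t (by omega) htd h
    · rintro ⟨t, ht, htd, h⟩
      rw [hei] at h
      exact xne i t ht htd h
    · exact Set.notMem_empty _
    · exact Set.notMem_empty _
    · exact hdown _ i hi fun t ht => ⟨t, ht, rfl⟩
    · exact hup _ i hi fun t ht ht' => ⟨t, ht, ht', rfl⟩
    · show Reach G ∅ (x i) (p 2 0)
      rw [hei]
      exact Relation.ReflTransGen.refl
  · push Not at he
    obtain ⟨n', y, hy, hy0, hyB, hyJ, hynB, hyna⟩ := geod_set hJ (h0 2 (by omega))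
      (B := {v | ∃ i ≤ d, v = x i}) ⟨x 0, ⟨0, by omega, rfl⟩, hxJ 0 (by omega)⟩
    have hn' : n' ≠ 0 := by
      rintro rfl
      obtain ⟨i, hi, h⟩ := hyB
      rw [hy0] at h
      exact he i hi h
    obtain ⟨n, rfl⟩ : ∃ n, n' = n + 1 := ⟨n' - 1, by omega⟩
    have yx : ∀ t ≤ n, ∀ i ≤ d, y t ≠ x i := fun t ht i hi h => hynB t (by omega) ⟨i, hi, h⟩
    have yxa : ∀ t < n, ∀ i ≤ d, ¬ G.Adj (y t) (x i) := fun t ht i hi h =>
      hyna t (by omega) (x i) ⟨i, hi, rfl⟩ (hxJ i hi) h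
    have yadj : ∀ t, t < n → G.Adj (y t) (y (t + 1)) := fun t ht =>
      (hy t (t + 1) (by omega) (by omega)).2.2 rfl
    have hdownY : ∀ (C : Set V), (∀ t < n, y t ∈ C) → Reach G C (y n) (p 2 0) := by
      intro C hC
      have h2 := reach_down (G := G) (C := C) (u := y) n (fun t ht => yadj t ht) hC
      rwa [hy0] at h2
    -- the neighbours of `y n` on the path
    have hex : ∃ i, i ≤ d ∧ G.Adj (y n) (x i) := by
      obtain ⟨i, hi, h⟩ := hyB
      refine ⟨i, hi, ?_⟩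
      rw [← h]
      exact (hy n (n + 1) (by omega) (by omega)).2.2 rfl
    obtain ⟨i, ⟨hid, hiadj⟩, himin⟩ : ∃ i, (i ≤ d ∧ G.Adj (y n) (x i)) ∧
        ∀ t, t ≤ d → G.Adj (y n) (x t) → i ≤ t :=
      ⟨Nat.find hex, Nat.find_spec hex, fun t ht hta => Nat.find_min' hex ⟨ht, hta⟩⟩
    obtain ⟨j, hjd, hjadj, hjmax⟩ : ∃ j, j ≤ d ∧ G.Adj (y n) (x j) ∧
        ∀ t, t ≤ d → G.Adj (y n) (x t) → t ≤ j := by
      refine ⟨Nat.findGreatest (fun t => G.Adj (y n) (x t)) d, Nat.findGreatest_le d, ?_, ?_⟩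
      · exact Nat.findGreatest_spec (P := fun t => G.Adj (y n) (x t)) hid hiadj
      · intro t ht hta
        exact Nat.le_findGreatest ht hta
    have hij : i ≤ j := himin j hjd hjadj
    have hj2 : j ≤ i + 2 := hxc i j hij hjd (y n) (hyJ n (by omega)) hiadj.symm hjadj
    have hcase : j = i ∨ j = i + 1 ∨ j = i + 2 := by omega
    rcases hcase with rfl | rfl | rfl
    · -- one neighbour
      left
      refine asmS T (z := x j) (hxJ j hid)
        (tri3 {v | ∃ t, t < j ∧ v = x t} {v | ∃ t, j < t ∧ t ≤ d ∧ v = x t}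
          {v | ∃ t, t ≤ n ∧ v = y t})
        (all3 ?_ ?_ ?_) (pair3 ?_ ?_ ?_) (off3 ?_ ?_ ?_ ?_ ?_ ?_) (all3 ?_ ?_ ?_)
      · rintro v ⟨t, ht, rfl⟩
        exact hxJ t (by omega)
      · rintro v ⟨t, ht, ht', rfl⟩
        exact hxJ t ht'
      · rintro v ⟨t, ht, rfl⟩
        exact hyJ t (by omega)
      · rintro u ⟨t, ht, rfl⟩ v ⟨t', ht', htd, rfl⟩
        exact xna t t' (by omega) htd
      · rintro u ⟨t, ht, rfl⟩ v ⟨t', ht', rfl⟩
        refine ⟨(yx t' ht' t (by omega)).symm, fun h => ?_⟩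
        rcases Nat.lt_or_ge t' n with h3 | h3
        · exact yxa t' h3 t (by omega) h.symm
        · have : t' = n := by omega
          subst this
          have := himin t (by omega) h.symm
          omega
      · rintro u ⟨t, ht, htd, rfl⟩ v ⟨t', ht', rfl⟩
        refine ⟨(yx t' ht' t htd).symm, fun h => ?_⟩
        rcases Nat.lt_or_ge t' n with h3 | h3
        · exact yxa t' h3 t htd h.symm
        · have : t' = n := by omega
          subst this
          have := hjmax t htd h.symm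
          omega
      · rintro ⟨t, ht, h⟩
        rw [← hxd] at h
        exact xne t d (by omega) le_rfl h.symm
      · rintro ⟨t, ht, h⟩
        exact he t (by omega) h
      · rintro ⟨t, ht, htd, h⟩
        rw [← hx0] at h
        exact xne 0 t (by omega) htd h
      · rintro ⟨t, ht, htd, h⟩
        exact he t htd h
      · rintro ⟨t, ht, h⟩
        rw [← hx0] at h
        exact yx t ht 0 (by omega) h.symm
      · rintro ⟨t, ht, h⟩
        rw [← hxd] at h
        exact yx t ht d le_rfl h.symm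
      · exact hdown _ j hjd fun t ht => ⟨t, ht, rfl⟩
      · exact hup _ j hjd fun t ht ht' => ⟨t, ht, ht', rfl⟩
      · exact Relation.ReflTransGen.head ⟨hjadj.symm, ⟨n, le_rfl, rfl⟩⟩
          (hdownY _ fun t ht => ⟨t, by omega, rfl⟩)
    · -- a triangle
      right
      refine asmL T (tri3 (x i) (x (i + 1)) (y n)) (all3 (hxJ i hid) (hxJ _ hjd) (hyJ n (by omega)))
        (pair3 (xadj i (by omega)) hiadj.symm hjadj.symm)
        (tri3 {v | ∃ t, t < i ∧ v = x t} {v | ∃ t, i + 1 < t ∧ t ≤ d ∧ v = x t}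
          {v | ∃ t, t < n ∧ v = y t})
        (all3 ?_ ?_ ?_) (pair3 ?_ ?_ ?_) (off3 ?_ ?_ ?_ ?_ ?_ ?_) (off3 ?_ ?_ ?_ ?_ ?_ ?_)
        (off3 ?_ ?_ ?_ ?_ ?_ ?_) (all3 ?_ ?_ ?_)
      · rintro v ⟨t, ht, rfl⟩
        exact hxJ t (by omega)
      · rintro v ⟨t, ht, ht', rfl⟩
        exact hxJ t ht'
      · rintro v ⟨t, ht, rfl⟩
        exact hyJ t (by omega)
      · rintro u ⟨t, ht, rfl⟩ v ⟨t', ht', htd, rfl⟩
        exact xna t t' (by omega) htd
      · rintro u ⟨t, ht, rfl⟩ v ⟨t', ht', rfl⟩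
        exact ⟨(yx t' ht'.le t (by omega)).symm, fun h => yxa t' ht' t (by omega) h.symm⟩
      · rintro u ⟨t, ht, htd, rfl⟩ v ⟨t', ht', rfl⟩
        exact ⟨(yx t' ht'.le t htd).symm, fun h => yxa t' ht' t htd h.symm⟩
      · -- x i, C 1
        rintro v ⟨t, ht, htd, rfl⟩
        exact xna i t (by omega) htd
      · rintro v ⟨t, ht, rfl⟩
        exact ⟨(yx t ht.le i hid).symm, fun h => yxa t ht i hid h.symm⟩
      · rintro v ⟨t, ht, rfl⟩
        exact (xna t (i + 1) (by omega) hjd).symm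
      · rintro v ⟨t, ht, rfl⟩
        exact ⟨(yx t ht.le (i + 1) hjd).symm, fun h => yxa t ht (i + 1) hjd h.symm⟩
      · rintro v ⟨t, ht, rfl⟩
        refine ⟨yx n le_rfl t (by omega), fun h => ?_⟩
        have := himin t (by omega) h
        omega
      · rintro v ⟨t, ht, htd, rfl⟩
        refine ⟨yx n le_rfl t htd, fun h => ?_⟩
        have := hjmax t htd h
        omega
      · rintro ⟨t, ht, h⟩
        rw [← hxd] at h
        exact xne t d (by omega) le_rfl h.symm
      · rintro ⟨t, ht, h⟩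
        exact he t (by omega) h
      · rintro ⟨t, ht, htd, h⟩
        rw [← hx0] at h
        exact xne 0 t (by omega) htd h
      · rintro ⟨t, ht, htd, h⟩
        exact he t htd h
      · rintro ⟨t, ht, h⟩
        rw [← hx0] at h
        exact yx t ht.le 0 (by omega) h.symm
      · rintro ⟨t, ht, h⟩
        rw [← hxd] at h
        exact yx t ht.le d le_rfl h.symm
      · show x i ≠ p 1 0
        rw [← hxd]
        exact xne i d (by omega) le_rfl
      · exact fun h => he i hid h.symm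
      · show x (i + 1) ≠ p 0 0
        rw [← hx0]
        exact (xne 0 (i + 1) (by omega) hjd).symm
      · exact fun h => he (i + 1) hjd h.symm
      · show y n ≠ p 0 0
        rw [← hx0]
        exact yx n le_rfl 0 (by omega)
      · show y n ≠ p 1 0
        rw [← hxd]
        exact yx n le_rfl d le_rfl
      · exact hdown _ i hid fun t ht => ⟨t, ht, rfl⟩
      · exact hup _ (i + 1) hjd fun t ht ht' => ⟨t, ht, ht', rfl⟩
      · exact hdownY _ fun t ht => ⟨t, ht, rfl⟩
    · -- two neighbours at distance two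
      left
      refine asmS T (z := y n) (hyJ n (by omega))
        (tri3 {v | ∃ t, t ≤ i ∧ v = x t} {v | ∃ t, i + 2 ≤ t ∧ t ≤ d ∧ v = x t}
          {v | ∃ t, t < n ∧ v = y t})
        (all3 ?_ ?_ ?_) (pair3 ?_ ?_ ?_) (off3 ?_ ?_ ?_ ?_ ?_ ?_) (all3 ?_ ?_ ?_)
      · rintro v ⟨t, ht, rfl⟩
        exact hxJ t (by omega)
      · rintro v ⟨t, ht, ht', rfl⟩
        exact hxJ t ht'
      · rintro v ⟨t, ht, rfl⟩
        exact hyJ t (by omega)
      · rintro u ⟨t, ht, rfl⟩ v ⟨t', ht', htd, rfl⟩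
        exact xna t t' (by omega) htd
      · rintro u ⟨t, ht, rfl⟩ v ⟨t', ht', rfl⟩
        exact ⟨(yx t' ht'.le t (by omega)).symm, fun h => yxa t' ht' t (by omega) h.symm⟩
      · rintro u ⟨t, ht, htd, rfl⟩ v ⟨t', ht', rfl⟩
        exact ⟨(yx t' ht'.le t htd).symm, fun h => yxa t' ht' t htd h.symm⟩
      · rintro ⟨t, ht, h⟩
        rw [← hxd] at h
        exact xne t d (by omega) le_rfl h.symm
      · rintro ⟨t, ht, h⟩
        exact he t (by omega) h
      · rintro ⟨t, ht, htd, h⟩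
        rw [← hx0] at h
        exact xne 0 t (by omega) htd h
      · rintro ⟨t, ht, htd, h⟩
        exact he t htd h
      · rintro ⟨t, ht, h⟩
        rw [← hx0] at h
        exact yx t ht.le 0 (by omega) h.symm
      · rintro ⟨t, ht, h⟩
        rw [← hxd] at h
        exact yx t ht.le d le_rfl h.symm
      · exact Relation.ReflTransGen.head ⟨hiadj, ⟨i, le_rfl, rfl⟩⟩
          (hdown _ i hid fun t ht => ⟨t, ht.le, rfl⟩)
      · exact Relation.ReflTransGen.head ⟨hjadj, ⟨i + 2, le_rfl, hjd, rfl⟩⟩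
          (hup _ (i + 2) hjd fun t ht ht' => ⟨t, by omega, ht', rfl⟩)
      · exact hdownY _ fun t ht => ⟨t, ht, rfl⟩

end Pool.Agent.Work.MP_c4d05f_lc.Hav
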