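import Pool.Agent.Work.MP_c4d05f_lc.N.Hav.Many
import Pool.Agent.Work.MP_c4d05f_lc.N.Hav.Three

/-!
# Theorem H

PROOF. `l = 0`: trivial (`HasS G 0` as soon as there is a vertex). `l ≥ 1`: `many l l 3 0`;
`J = β X ∪ ⋃ i < 3, (Q i ∪ {p i l})`, arms reversed `p' i j = p i (l - j)`. `J` is connected: each
`Q i` is connected and some `q ∈ Q i` is not detached at `X` (`Ext.refl`), so `q ∈ β X` or `q` has a
neighbour in `β X`, which is connected; `p i l` is adjacent to some member of `Q i`.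
`p i j`, `j < l`, is detached at `X`, so apart from `β X`, apart from `Q i`, apart from the sets of
the other indices; it is adjacent to `p i l` only for `j = l - 1`. Apply `three`.
-/

set_option autoImplicit false

namespace Pool.Agent.Work.MP_c4d05f_lc.Hav

private theorem rmemH {V : Type} {G : SimpleGraph V} {A : Set V} {a b : V}
    (h : Pool.Agent.Work.MP_c4d05f_lc.Reach G A a b) (ha : a ∈ A) : b ∈ A := by
  induction h with
  | refl => exact ha
  | tail _ h2 _ => exact h2.2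

private theorem rsymmH {V : Type} {G : SimpleGraph V} {A : Set V} {a b : V}
    (h : Pool.Agent.Work.MP_c4d05f_lc.Reach G A a b) (ha : a ∈ A) :
    Pool.Agent.Work.MP_c4d05f_lc.Reach G A b a := by
  induction h with
  | refl => exact Relation.ReflTransGen.refl
  | tail h1 h2 ih => exact Relation.ReflTransGen.head ⟨h2.1.symm, rmemH h1 ha⟩ ih

private theorem rmonoH {V : Type} {G : SimpleGraph V} {C D : Set V} (h : C ⊆ D) {a b : V}
    (hr : Pool.Agent.Work.MP_c4d05f_lc.Reach G C a b) : Pool.Agent.Work.MP_c4d05f_lc.Reach G D a b :=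
  Relation.ReflTransGen.mono (fun _ _ h1 => ⟨h1.1, h h1.2⟩) _ _ hr

/-- **Theorem H.** A haven of large order gives an induced `S_{l,l,l}` or an induced net with legs
of length `l`. -/
theorem haven (l : ℕ) : ∃ K : ℕ, ∀ (V : Type) [Finite V] (k : ℕ) (H : HS V k), K ≤ k →
    HasS H.G l ∨ HasL H.G l := by
  rcases Nat.eq_zero_or_pos l with hl | hl
  · subst hl
    refine ⟨0, fun V _ k H _ => Or.inl ?_⟩
    obtain ⟨z, _⟩ := H.nonempty ∅ (by simp)
    exact ⟨z, fun _ _ => z, fun i _ => ⟨fun a b hab hb => absurd hb (by omega), rfl⟩,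
      fun i j _ _ a b h1 h2 => absurd h1 (by omega)⟩
  obtain ⟨K, hK⟩ := many l l 3 0 hl
  refine ⟨K, fun V _ k H hk => ?_⟩
  by_cases hS : HasS H.G l
  · exact Or.inl hS
  obtain ⟨X, p, Q, hX, harm, hanti⟩ := hK V k H hk hS
  have hXk : X.card ≤ k := by omega
  -- apartness of two different indices, both orders
  have hap : ∀ i i', i ≠ i' → i < 3 → i' < 3 → ∀ u, (u ∈ Q i ∨ ∃ j ≤ l, u = p i j) →
      ∀ v, (v ∈ Q i' ∨ ∃ j ≤ l, v = p i' j) → Apart H.G u v := by
    intro i i' hne hi hi' u hu v hv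
    rcases Nat.lt_or_gt_of_ne hne with h1 | h1
    · exact hanti i i' h1 hi' u hu v hv
    · exact (hanti i' i h1 hi v hv u hu).symm
  set J : Set V := H.β X ∪ {x | ∃ i < 3, x ∈ Q i ∨ x = p i l} with hJdef
  have hJβ : H.β X ⊆ J := Set.subset_union_left
  have hJQ : ∀ i < 3, Q i ⊆ J := fun i hi x hx => Or.inr ⟨i, hi, Or.inl hx⟩
  have hJp : ∀ i < 3, p i l ∈ J := fun i hi => Or.inr ⟨i, hi, Or.inr rfl⟩
  obtain ⟨u0, hu0⟩ := H.nonempty X hXk
  have hreachβ : ∀ a ∈ H.β X, Pool.Agent.Work.MP_c4d05f_lc.Reach H.G J a u0 := fun a ha =>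
    rmonoH hJβ (H.conn X hXk a ha u0 hu0)
  have hreachQ : ∀ i < 3, ∀ q ∈ Q i, Pool.Agent.Work.MP_c4d05f_lc.Reach H.G J q u0 := by
    intro i hi q hq
    obtain ⟨_, hconn, _, _, _, _, hrob⟩ := harm i hi
    obtain ⟨q0, hq0, hdet⟩ := hrob X (Ext.refl X 0)
    refine (rmonoH (hJQ i hi) (hconn q hq q0 hq0)).trans ?_
    by_cases h1 : q0 ∈ H.β X
    · exact hreachβ q0 h1
    · unfold HS.Det at hdet
      push Not at hdet
      obtain ⟨u, hu, huq⟩ := hdet h1
      exact Relation.ReflTransGen.head ⟨huq, hJβ hu⟩ (hreachβ u hu)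
  have hreach : ∀ a ∈ J, Pool.Agent.Work.MP_c4d05f_lc.Reach H.G J a u0 := by
    rintro a (ha | ⟨i, hi, ha | rfl⟩)
    · exact hreachβ a ha
    · exact hreachQ i hi a ha
    · obtain ⟨_, _, ⟨q, hq, hadj⟩, _⟩ := harm i hi
      exact Relation.ReflTransGen.head ⟨hadj, hJQ i hi hq⟩ (hreachQ i hi q hq)
  have hJ : Conn H.G J := fun a ha b hb => (hreach a ha).trans (rsymmH (hreach b hb) hb)
  have hself : ∀ {u : V}, Apart H.G u u → False := fun h => h.1 rfl
  refine three l V H.G J (fun i j => p i (l - j)) hJ ?_ ?_ ?_ ?_ ?_ ?_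
  · intro i hi
    exact hJp i hi
  · intro i hi j hj1 hj2
    obtain ⟨hind, _, _, hapQ, _, hdet, _⟩ := harm i hi
    rintro (h1 | ⟨i', hi', h1 | h1⟩)
    · exact (hdet (l - j) (by omega)).1 h1
    · by_cases hii : i = i'
      · subst hii
        exact hself (hapQ (l - j) (by omega) _ h1)
      · exact hself (hap i i' hii hi hi' _ (Or.inr ⟨l - j, by omega, rfl⟩) _ (Or.inl h1))
    · by_cases hii : i = i'
      · subst hii
        exact (hind (l - j) l (by omega) (by omega)).1 h1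
      · exact (hap i i' hii hi hi' _ (Or.inr ⟨l - j, by omega, rfl⟩) _
          (Or.inr ⟨l, le_refl _, rfl⟩)).1 h1
  · intro i hi
    exact (harm i hi).1.rev
  · intro i i' hii hi' j j' _ _ _ _
    exact hap i i' (by omega) (by omega) hi' _ (Or.inr ⟨l - j, by omega, rfl⟩) _
      (Or.inr ⟨l - j', by omega, rfl⟩)
  · intro i i' hii hi'
    exact (hap i i' (by omega) (by omega) hi' _ (Or.inr ⟨l - 0, by omega, rfl⟩) _
      (Or.inr ⟨l - 0, by omega, rfl⟩)).1
  · intro i hi j hj1 hj2 x hx hadj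
    obtain ⟨hind, _, _, hapQ, _, hdet, _⟩ := harm i hi
    rcases hx with h1 | ⟨i', hi', h1 | h1⟩
    · exact absurd hadj ((hdet (l - j) (by omega)).2 x h1)
    · by_cases hii : i = i'
      · subst hii
        exact absurd hadj (hapQ (l - j) (by omega) _ h1).2
      · exact absurd hadj (hap i i' hii hi hi' _ (Or.inr ⟨l - j, by omega, rfl⟩) _ (Or.inl h1)).2
    · by_cases hii : i = i'
      · subst hii
        subst h1
        have h2 := (hind (l - j) l (by omega) (by omega)).2.1 hadj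
        exact ⟨by omega, rfl⟩
      · subst h1
        exact absurd hadj (hap i i' hii hi hi' _ (Or.inr ⟨l - j, by omega, rfl⟩) _
          (Or.inr ⟨l, le_refl _, rfl⟩)).2

end Pool.Agent.Work.MP_c4d05f_lc.Hav
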