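import Pool.Agent.Work.MP_c4d05f_lc.N.Hav.Stg
import Pool.Agent.Work.MP_c4d05f_lc.N.Hav.Br

/-!
# Stages without arrows (module `NoArr`, size M)

PROOF. `N₀` from `br Δ l`, `n = N₀ + 1`. `J = {x | ∃ i < n, ∃ p ≤ Δ, x = tl (f i) p}`, `c = y`
(`= tl (f 0) Δ ∈ J`), arms `i < N₀`: `p ↦ a (f i) (p + 1)` (`p < l ≤ L`), a part of the induced path
(`IndSeq.shift`). Every `x = tl (f i) p` is reached from `y` by the reversed tail inside `J`
(`near_of_seq`, `near_mono`). The arms are pairwise anticomplete (`apart_arm`; for the order of the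
two indices use `Apart.symm`), outside `J`: `a (f i) j = tl (f i') p` is excluded for `i' < i` by
the absence of arrows, for `i' = i` by `ne_own`, for `i' > i` by `apart_tail`. `a (f i) 1` is adjacent to
`tl (f i) 0 ∈ J` (`adj_tail`). `a (f i) j` with `j ≥ 2` is not adjacent to `tl (f i') p`: the same three
cases (`apart_own` for `i' = i`).
-/

set_option autoImplicit false

namespace Pool.Agent.Work.MP_c4d05f_lc.Hav

/-- **Stages without arrows.** -/
theorem no_arrow (l Δ : ℕ) (hl : 1 ≤ l) : ∃ n : ℕ, ∀ (V : Type) (k : ℕ) (H : HS V k) (N L : ℕ)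
    (S : Stages H N L Δ) (f : ℕ → ℕ), l ≤ L → StrictMono f → (∀ i < n, f i < N) →
    (∀ i j, i < j → j < n → ∀ p ≤ Δ, ¬ S.Arrow (f i) (f j) p) → HasS H.G l := by
  obtain ⟨N₀, hN₀⟩ := br Δ l
  refine ⟨N₀ + 1, ?_⟩
  intro V k H N L S f hlL hf hfN harr
  have key : ∀ i < N₀ + 1, ∀ i' < N₀ + 1, ∀ j, 1 ≤ j → j ≤ L → ∀ p ≤ Δ,
      S.a (f i) j ≠ S.tl (f i') p ∧ (2 ≤ j → ¬ H.G.Adj (S.a (f i) j) (S.tl (f i') p)) := by
    intro i hi i' hi' j h1 hj p hp
    rcases lt_trichotomy i' i with h | h | h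
    · have h2 := harr i' i h hi p hp
      refine ⟨fun h3 => h2 (Or.inl ⟨j, h1, hj, h3.symm⟩), fun h3 h4 => h2 (Or.inr ⟨j, h3, hj, h4.symm⟩)⟩
    · subst h
      exact ⟨S.ne_own (hfN i' hi') h1 hj hp, fun h3 => (S.apart_own (hfN i' hi') h3 hj hp).2⟩
    · have h2 := S.apart_tail (hf h) (hfN i' hi') h1 hj hp
      exact ⟨h2.1, fun _ => h2.2⟩
  refine hN₀ V H.G {x | ∃ i < N₀ + 1, ∃ p ≤ Δ, x = S.tl (f i) p} S.y (fun i p => S.a (f i) (1 + p))
    H.noK4 ?_ ?_ ?_ ?_ ?_ ?_ ?_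
  · exact ⟨0, by omega, Δ, le_refl _, (S.tl_last (f 0) (hfN 0 (by omega))).symm⟩
  · rintro x ⟨i, hi, p, hp, rfl⟩
    have h1 : Near H.G {x | ∃ i < N₀ + 1, ∃ p ≤ Δ, x = S.tl (f i) p}
        ((fun m => S.tl (f i) (Δ - m)) 0) (Δ - p) ((fun m => S.tl (f i) (Δ - m)) (Δ - p)) := by
      refine near_of_seq (fun m => S.tl (f i) (Δ - m)) ?_
      intro m hm
      have h2 := S.tl_step (f i) (hfN i hi) (Δ - (m + 1)) (by omega)
      have h3 : Δ - (m + 1) + 1 = Δ - m := by omega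
      rw [h3] at h2
      rcases h2 with h2 | h2
      · exact Or.inl h2.symm
      · exact Or.inr ⟨h2.symm, i, hi, Δ - (m + 1), by omega, rfl⟩
    have h4 : Δ - (Δ - p) = p := by omega
    simp only [Nat.sub_zero, h4, S.tl_last (f i) (hfN i hi)] at h1
    exact near_mono (by omega) h1
  · intro i hi
    exact IndSeq.shift 1 ((S.ind (f i) (hfN i (by omega))).mono (by omega))
  · rintro i hi p hp ⟨i', hi', p', hp', h⟩
    exact (key i (by omega) i' hi' (1 + p) (by omega) (by omega) p' hp').1 h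
  · intro i j hij hj p q hp hq
    exact S.apart_arm (hf hij) (hfN j (by omega)) (by omega) (by omega) (by omega) (by omega)
  · intro i hi
    exact ⟨S.tl (f i) 0, ⟨i, by omega, 0, by omega, rfl⟩,
      S.adj_tail (hfN i (by omega)) (by omega)⟩
  · rintro i hi p hp1 hp x ⟨i', hi', p', hp', rfl⟩
    exact (key i (by omega) i' hi' (1 + p) (by omega) (by omega) p' hp').2 (by omega)

end Pool.Agent.Work.MP_c4d05f_lc.Hav
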