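import Pool.Agent.Work.MP_c4d05f_lc.N.Hav.Sticky

/-!
# One round of the multi-hub lemma (module `Round`, size M)

PROOF. Let `n₁` be the constant of `sticky l` and `n = s * n₁`. By induction on `s' ≤ s` there is
`Y` with `Ext X (s' * n₁) Y` and `∀ a < s', ∀ y ∈ β Y, Near (β X \ {h a}) (h a) l y`: step: apply
`sticky` to `X ⊆ Y` and `h s'` (dead at `X`, hence at `Y`; the attachment hypothesis holds since
`Ext Y n₁ Z` gives `Ext X n Z`); it gives `Z`, and `β Z ⊆ β Y` keeps the old properties.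
Take `Z` for `s' = s`, `y ∈ β Z` (`H.nonempty`). For every `a < s` the walk from `h a` to `y`
(`geod`: `u 0 = h a, …, u m = y`, `m ≤ l`, `u i ∈ β X \ {h a}` for `i ≥ 1`; `m ≥ 1` since `h a` is
dead at `X ⊆ Z` and `y ∈ β Z` is not dead, so `y ≠ h a`) gives the finite set
`C_a = {u 1, …, u m}` with at most `l` elements; `C = ⋃ a < s, C_a ∪ {y}`: to have
`card ≤ s * l + 1`. `y ∈ C` and `Near C (h a) l y`.
-/

set_option autoImplicit false

namespace Pool.Agent.Work.MP_c4d05f_lc.Hav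

/-- the sets for the first `s'` vertices -/
private theorem round_aux {l n₁ s : ℕ} {V : Type} {k : ℕ} {H : HS V k} {X : Finset V} {h : ℕ → V}
    (hn₁ : ∀ (X Y : Finset V) (h : V), X ⊆ Y → Y.card + n₁ ≤ k → H.Dead Y h →
      (∀ Z, Ext Y n₁ Z → ¬ H.Det Z h) →
      ∃ Z, Ext Y n₁ Z ∧ ∀ y ∈ H.β Z, Near H.G (H.β X \ {h}) h l y)
    (hX : X.card + s * n₁ ≤ k) (hd : ∀ a < s, H.Dead X (h a))
    (hdet : ∀ a < s, ∀ Z, Ext X (s * n₁) Z → ¬ H.Det Z (h a)) :
    ∀ s' ≤ s, ∃ Y, Ext X (s' * n₁) Y ∧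
      ∀ a < s', ∀ y ∈ H.β Y, Near H.G (H.β X \ {h a}) (h a) l y := by
  intro s'
  induction s' with
  | zero => exact fun _ => ⟨X, Ext.refl _ _, fun a ha => absurd ha (Nat.not_lt_zero a)⟩
  | succ s' ih =>
    intro hs
    obtain ⟨Y, hY, hY'⟩ := ih (by omega)
    have hmul : (s' + 1) * n₁ = s' * n₁ + n₁ := by ring
    have hle : (s' + 1) * n₁ ≤ s * n₁ := Nat.mul_le_mul_right _ hs
    have hY2 := hY.2
    obtain ⟨Z, hZ, hZ'⟩ := hn₁ X Y (h s') hY.1 (by omega) ((hd s' (by omega)).mono hY.1)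
      (fun Z hZ => hdet s' (by omega) Z ((hY.trans hZ).mono (by omega)))
    have hZ2 := hZ.2
    refine ⟨Z, (hY.trans hZ).mono (by omega), fun a ha y hy => ?_⟩
    rcases Nat.lt_succ_iff_lt_or_eq.1 ha with h1 | h1
    · exact hY' a h1 y (H.mono Y Z hZ.1 (by omega) hy)
    · subst h1
      exact hZ' y hy

/-- **Round.** -/
theorem round (l s : ℕ) : ∃ n : ℕ, ∀ (V : Type) (k : ℕ) (H : HS V k) (X : Finset V) (h : ℕ → V),
    ¬ HasS H.G l → X.card + n ≤ k → (∀ a < s, H.Dead X (h a)) →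
    (∀ a < s, ∀ Z, Ext X n Z → ¬ H.Det Z (h a)) →
    ∃ (Z C : Finset V) (y : V), Ext X n Z ∧ (∀ x ∈ C, x ∈ H.β X) ∧ C.card ≤ s * l + 1 ∧ y ∈ C ∧
      ∀ a < s, Near H.G ↑C (h a) l y := by
  classical
  obtain ⟨n₁, hn₁⟩ := sticky l
  refine ⟨s * n₁, fun V k H X h hS hX hd hdet => ?_⟩
  obtain ⟨Z, hZ, hZ'⟩ := round_aux (fun X Y h h1 h2 h3 h4 => hn₁ V k H X Y h hS h1 h2 h3 h4)
    hX hd hdet s le_rfl
  have hZk : Z.card ≤ k := hZ.2.trans hX
  obtain ⟨y, hy⟩ := H.nonempty Z hZk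
  have hyX : y ∈ H.β X := H.mono X Z hZ.1 hZk hy
  have hg : ∀ a : ℕ, ∃ (m : ℕ) (u : ℕ → V), a < s → m ≤ l ∧ IndSeq H.G (m + 1) u ∧ u 0 = h a ∧
      u m = y ∧ ∀ i, 1 ≤ i → i ≤ m → u i ∈ H.β X := by
    intro a
    by_cases ha : a < s
    · obtain ⟨m, hm, u, h1, h2, h3, h4, -⟩ := geod (hZ' a ha y hy)
      exact ⟨m, u, fun _ => ⟨hm, h1, h2, h3, fun i hi hi' => (h4 i hi hi').1⟩⟩
    · exact ⟨0, fun _ => y, fun h' => absurd h' ha⟩
  choose m u hmu using hg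
  refine ⟨Z, insert y ((Finset.range s).biUnion fun a => (Finset.Icc 1 (m a)).image (u a)), y, hZ,
    fun x hx => ?_, ?_, Finset.mem_insert_self _ _, fun a ha => ?_⟩
  · rcases Finset.mem_insert.1 hx with rfl | hx
    · exact hyX
    · obtain ⟨a, ha, hx⟩ := Finset.mem_biUnion.1 hx
      obtain ⟨i, hi, rfl⟩ := Finset.mem_image.1 hx
      obtain ⟨hi1, hi2⟩ := Finset.mem_Icc.1 hi
      exact (hmu a (Finset.mem_range.1 ha)).2.2.2.2 i hi1 hi2
  · refine (Finset.card_insert_le _ _).trans (Nat.add_le_add_right ?_ 1)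
    refine Finset.card_biUnion_le.trans ?_
    refine (Finset.sum_le_card_nsmul _ _ l fun a ha => ?_).trans ?_
    · refine Finset.card_image_le.trans ?_
      rw [Nat.card_Icc]
      have := (hmu a (Finset.mem_range.1 ha)).1
      omega
    · rw [Finset.card_range, smul_eq_mul]
  · obtain ⟨h1, h2, h3, h4, h5⟩ := hmu a ha
    have h6 := near_of_seq (G := H.G)
      (A := ((insert y ((Finset.range s).biUnion fun a => (Finset.Icc 1 (m a)).image (u a)) :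
        Finset V) : Set V)) (n := m a) (u a) (fun i hi => Or.inr ⟨h2.adj (by omega), ?_⟩)
    · rw [h3, h4] at h6
      exact near_mono h1 h6
    · rw [Finset.mem_coe]
      refine Finset.mem_insert_of_mem (Finset.mem_biUnion.2 ⟨a, Finset.mem_range.2 ha, ?_⟩)
      exact Finset.mem_image.2 ⟨i + 1, Finset.mem_Icc.2 ⟨by omega, by omega⟩, rfl⟩

end Pool.Agent.Work.MP_c4d05f_lc.Hav
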