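import Pool.Agent.Work.MP_c4d05f_lc.N.Hav.Round

/-!
# Many anticomplete rounds (module `Rounds`, size M)

PROOF. Let `n` be the constant of `round l s`, `c = s * l + 1`, `N` from `sel c q`,
`m = s + N * (n + c)`. Build `X 0 = {h 0, …, h (s-1)}` (card ≤ s), and for `r < N` with
`(X r).card ≤ s + r * (n + c)`: `round` at `X r` (the hubs are dead at `X r ⊇ X 0` by
`HS.dead_self`; they are attached at every `Z` with `Ext (X r) n Z` because then
`Z.card ≤ m`) gives `Z r`, `C r`, `y r`; `X (r+1) = Z r ∪ C r`. Then `sel` (with `R = C`) gives `q`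
indices with pairwise anticomplete `C`. The hubs are dead at `X r`, the elements of `C r` are in
`β (X r)`, so `h a ∉ C r`.
-/

set_option autoImplicit false

namespace Pool.Agent.Work.MP_c4d05f_lc.Hav

/-- **Rounds.** -/
theorem rounds (l s q : ℕ) : ∃ m : ℕ, ∀ (V : Type) (k : ℕ) (H : HS V k) (h : ℕ → V),
    ¬ HasS H.G l → m ≤ k → (∀ a < s, ∀ Z : Finset V, Z.card ≤ m → ¬ H.Det Z (h a)) →
    ∃ (C : ℕ → Finset V) (y : ℕ → V), (∀ r < q, y r ∈ C r) ∧
      (∀ r < q, ∀ a < s, Near H.G ↑(C r) (h a) l (y r)) ∧ (∀ r < q, ∀ a < s, h a ∉ C r) ∧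
      ∀ r t, r < t → t < q → ∀ u ∈ C r, ∀ v ∈ C t, Apart H.G u v := by
  classical
  obtain ⟨n, hn⟩ := round l s
  obtain ⟨N, hN⟩ := sel (s * l + 1) q
  refine ⟨s + N * (n + (s * l + 1)), fun V k H h hS hm hdet => ?_⟩
  obtain ⟨v0, -⟩ := H.nonempty ∅ (by simp)
  have key : ∀ X : Finset V, ∃ (Z C : Finset V) (y : V), (Finset.range s).image h ⊆ X →
      X.card + (n + (s * l + 1)) ≤ s + N * (n + (s * l + 1)) →
      Ext X n Z ∧ (∀ x ∈ C, x ∈ H.β X) ∧ C.card ≤ s * l + 1 ∧ y ∈ C ∧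
        ∀ a < s, Near H.G ↑C (h a) l y := by
    intro X
    by_cases hX : (Finset.range s).image h ⊆ X ∧
        X.card + (n + (s * l + 1)) ≤ s + N * (n + (s * l + 1))
    · obtain ⟨h1, h2⟩ := hX
      obtain ⟨Z, C, y, h3⟩ := hn V k H X h hS (by omega)
        (fun a ha => H.dead_self (h1 (Finset.mem_image.2 ⟨a, Finset.mem_range.2 ha, rfl⟩)))
        (fun a ha Z hZ => hdet a ha Z (hZ.2.trans (by omega)))
      exact ⟨Z, C, y, fun _ _ => h3⟩
    · exact ⟨∅, ∅, v0, fun h1 h2 => absurd ⟨h1, h2⟩ hX⟩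
  choose Zf Cf yf hf using key
  obtain ⟨X, hX0, hXs⟩ : ∃ X : ℕ → Finset V, X 0 = (Finset.range s).image h ∧
      ∀ r, X (r + 1) = Zf (X r) ∪ Cf (X r) :=
    ⟨fun r => Nat.rec ((Finset.range s).image h) (fun _ Y => Zf Y ∪ Cf Y) r, rfl, fun _ => rfl⟩
  have hmul : ∀ r < N, s + r * (n + (s * l + 1)) + (n + (s * l + 1)) ≤
      s + N * (n + (s * l + 1)) := by
    intro r hr
    have h1 : (r + 1) * (n + (s * l + 1)) ≤ N * (n + (s * l + 1)) := Nat.mul_le_mul_right _ hr
    have h2 : (r + 1) * (n + (s * l + 1)) = r * (n + (s * l + 1)) + (n + (s * l + 1)) := by ring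
    omega
  have inv : ∀ r ≤ N, (Finset.range s).image h ⊆ X r ∧
      (X r).card ≤ s + r * (n + (s * l + 1)) := by
    intro r
    induction r with
    | zero =>
      intro _
      rw [hX0]
      refine ⟨Finset.Subset.refl _, Finset.card_image_le.trans ?_⟩
      rw [Finset.card_range]
      omega
    | succ r ih =>
      intro hr
      obtain ⟨h1, h2⟩ := ih (by omega)
      have h3 := hmul r (by omega)
      obtain ⟨h4, -, h5, -, -⟩ := hf (X r) h1 (by omega)
      rw [hXs]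
      refine ⟨(h1.trans h4.1).trans Finset.subset_union_left,
        (Finset.card_union_le _ _).trans ?_⟩
      have h6 := h4.2
      have h7 : (r + 1) * (n + (s * l + 1)) = r * (n + (s * l + 1)) + (n + (s * l + 1)) := by ring
      omega
  have hall : ∀ r < N, Ext (X r) n (Zf (X r)) ∧ (∀ x ∈ Cf (X r), x ∈ H.β (X r)) ∧
      (Cf (X r)).card ≤ s * l + 1 ∧ yf (X r) ∈ Cf (X r) ∧
        ∀ a < s, Near H.G ↑(Cf (X r)) (h a) l (yf (X r)) := by
    intro r hr
    obtain ⟨h1, h2⟩ := inv r (by omega)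
    have h3 := hmul r hr
    exact hf (X r) h1 (by omega)
  have hcard : ∀ r ≤ N, (X r).card ≤ k := by
    intro r hr
    obtain ⟨h1, h2⟩ := inv r hr
    have h3 : r * (n + (s * l + 1)) ≤ N * (n + (s * l + 1)) := Nat.mul_le_mul_right _ hr
    omega
  obtain ⟨f, hf1, hf2, hf3⟩ := hN V k H X (fun r => Cf (X r)) hcard
    (fun i hi => by
      rw [hXs]
      exact (hall i hi).1.1.trans Finset.subset_union_left)
    (fun i hi u hu => (hall i hi).2.1 u hu)
    (fun i hi => by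
      rw [hXs]
      exact Finset.subset_union_right)
    (fun i hi => (hall i hi).2.2.1)
  refine ⟨fun r => Cf (X (f r)), fun r => yf (X (f r)), fun r hr => (hall _ (hf2 r hr)).2.2.2.1,
    fun r hr a ha => (hall _ (hf2 r hr)).2.2.2.2 a ha, fun r hr a ha hmem => ?_,
    fun r t hrt ht u hu v hv => hf3 r t hrt ht u hu v hv⟩
  have h1 := (hall _ (hf2 r hr)).2.1 _ hmem
  have h2 := inv (f r) (hf2 r hr).le
  exact H.not_dead (hcard _ (hf2 r hr).le) h1
    (H.dead_self (h2.1 (Finset.mem_image.2 ⟨a, Finset.mem_range.2 ha, rfl⟩)))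

end Pool.Agent.Work.MP_c4d05f_lc.Hav
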