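import Pool.Agent.Work.MP_c4d05f_lc.N.Hav.Bas
import Pool.Agent.Work.MP_c4d05f_lc.N.Hav.Ram

/-!
# Selection of anticomplete sets (module `Sel`, size M)

PROOF. Let `C = Option (Fin c × Fin c)`, `N` from `ram2 C (max m 4)` (or `m + 4`). Number the
elements of each nonempty `R i` by `r i : ℕ → V` with `R i = {r i a | a < c}` (for example
`(R i).toList.getD`). Colour of `i < j` (both `< N`): some `(α, α')` with `r i α ∈ R i`,
`r j α' ∈ R j` and NOT `Apart (r i α) (r j α')` if there is one, otherwise `none`. Take the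
homogeneous set `f 0 < f 1 < …`.

1. The `R i` are pairwise disjoint: `u ∈ R i ∩ R j`, `i < j`, gives `u ∈ X (i+1) ⊆ X j`, so `u` is
   dead at `X j` (`HS.dead_self`), but `u ∈ β (X j)` (`HS.not_dead`).
2. If `u ∈ R i`, `v ∈ R j`, `i < j`, `u ~ v`, then `u` is dead at `X (i+1) ⊆ X j` and `v` is alive at
   `X j`; so `u` is white by `H.black`.
3. If the colour is `some (α, α')`: take the four indices `i < i' < j < j'` (= `f 0, …, f 3`). By 1
   (not apart) means adjacent. `u = r i α` is white and dead at `X i'` (`u ∈ R i ⊆ X (i+1) ⊆ X i'`),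
   `v = r i' α` is white by 2 (it is adjacent to `r j α'`) and in `β (X i')`, so alive at `X i'`.
   `r j α'` and `r j' α'` are two different (by 1) common neighbours of `u` and `v`: contradiction to
   `HS.oneCN`.
4. So the colour is `none` and `f` is as wanted.
-/

set_option autoImplicit false

namespace Pool.Agent.Work.MP_c4d05f_lc.Hav

/-- **Selection.** -/
theorem sel (c m : ℕ) : ∃ N : ℕ, ∀ (V : Type) (k : ℕ) (H : HS V k) (X R : ℕ → Finset V),
    (∀ i ≤ N, (X i).card ≤ k) → (∀ i < N, X i ⊆ X (i + 1)) →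
    (∀ i < N, ∀ u ∈ R i, u ∈ H.β (X i)) → (∀ i < N, R i ⊆ X (i + 1)) →
    (∀ i < N, (R i).card ≤ c) →
    ∃ f : ℕ → ℕ, StrictMono f ∧ (∀ i < m, f i < N) ∧
      ∀ i j, i < j → j < m → ∀ u ∈ R (f i), ∀ v ∈ R (f j), Apart H.G u v := by
  classical
  obtain ⟨N, hN⟩ := ram2 (Option (Fin (c + 1) × Fin (c + 1))) (m + 4)
  refine ⟨N, fun V k H X R hXc hXm hRβ hRX hRc => ?_⟩
  have hmono : ∀ i j, i ≤ j → j ≤ N → X i ⊆ X j := by
    intro i j hij
    induction j, hij using Nat.le_induction with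
    | base => exact fun _ => Finset.Subset.refl _
    | succ j _ ih => exact fun hj => (ih (by omega)).trans (hXm j (by omega))
  have hidx : ∀ i, ∃ g : V → Fin (c + 1), i < N → Set.InjOn g (R i : Set V) := by
    intro i
    by_cases hi : i < N
    · obtain ⟨e⟩ : Nonempty ((R i : Finset V) ↪ Fin (c + 1)) :=
        Function.Embedding.nonempty_of_card_le (by
          rw [Fintype.card_coe, Fintype.card_fin]
          exact (hRc i hi).trans (Nat.le_succ c))
      refine ⟨fun u => if h : u ∈ R i then e ⟨u, h⟩ else 0, fun _ u hu v hv huv => ?_⟩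
      have hu' : u ∈ R i := hu
      have hv' : v ∈ R i := hv
      simp only [dif_pos hu', dif_pos hv'] at huv
      exact congrArg Subtype.val (e.injective huv)
    · exact ⟨fun _ => 0, fun h => absurd h hi⟩
  choose g hg using hidx
  have hcol : ∀ i j, ∃ x : Option (Fin (c + 1) × Fin (c + 1)),
      (x = none → ∀ u ∈ R i, ∀ v ∈ R j, Apart H.G u v) ∧
      ∀ α α', x = some (α, α') → ∃ u ∈ R i, ∃ v ∈ R j, g i u = α ∧ g j v = α' ∧
        ¬ Apart H.G u v := by
    intro i j
    by_cases h : ∃ u ∈ R i, ∃ v ∈ R j, ¬ Apart H.G u v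
    · obtain ⟨u, hu, v, hv, huv⟩ := h
      refine ⟨some (g i u, g j v), fun h => absurd h (Option.some_ne_none _), ?_⟩
      intro α α' h
      have h1 := Prod.ext_iff.1 (Option.some.inj h)
      exact ⟨u, hu, v, hv, h1.1, h1.2, huv⟩
    · push Not at h
      exact ⟨none, fun _ => h, fun α α' h => absurd h.symm (Option.some_ne_none _)⟩
  choose col hc1 hc2 using hcol
  obtain ⟨f, a, hf, hfN, hfa⟩ := hN col
  -- step 1
  have hdis : ∀ i j, i < j → j < N → ∀ u ∈ R i, ∀ v ∈ R j, u ≠ v := by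
    intro i j hij hj u hu v hv huv
    subst huv
    exact H.not_dead (hXc j (by omega)) (hRβ j hj u hv)
      (H.dead_self (hmono (i + 1) j hij (by omega) (hRX i (by omega) hu)))
  -- step 2
  have hwhite : ∀ i j, i < j → j < N → ∀ u ∈ R i, ∀ v ∈ R j, H.G.Adj u v → u ∈ H.W := by
    intro i j hij hj u hu v hv huv
    by_contra hw
    obtain ⟨x, hx, hux⟩ := H.dead_self (hmono (i + 1) j hij (by omega) (hRX i (by omega) hu))
    exact H.not_dead (hXc j (by omega)) (hRβ j hj v hv) ⟨x, hx, H.black x u v hux hw huv⟩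
  rcases a with _ | ⟨α, α'⟩
  · exact ⟨f, hf, fun i hi => hfN i (by omega), fun i j hij hj =>
      hc1 _ _ (hfa i j hij (by omega))⟩
  · exfalso
    have l01 : f 0 < f 1 := hf (by omega)
    have l12 : f 1 < f 2 := hf (by omega)
    have l23 : f 2 < f 3 := hf (by omega)
    have n3 : f 3 < N := hfN 3 (by omega)
    obtain ⟨u, hu, v, hv, e1, e2, n02⟩ := hc2 _ _ _ _ (hfa 0 2 (by omega) (by omega))
    obtain ⟨u', hu', z, hz, e3, e4, n03⟩ := hc2 _ _ _ _ (hfa 0 3 (by omega) (by omega))
    obtain ⟨w, hw, v', hv', e5, e6, n12⟩ := hc2 _ _ _ _ (hfa 1 2 (by omega) (by omega))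
    obtain ⟨w', hw', z', hz', e7, e8, n13⟩ := hc2 _ _ _ _ (hfa 1 3 (by omega) (by omega))
    have q1 : u' = u := hg (f 0) (by omega) hu' hu (e3.trans e1.symm)
    have q2 : v' = v := hg (f 2) (by omega) hv' hv (e6.trans e2.symm)
    have q3 : w' = w := hg (f 1) (by omega) hw' hw (e7.trans e5.symm)
    have q4 : z' = z := hg (f 3) (by omega) hz' hz (e8.trans e4.symm)
    subst q1 q2 q3 q4
    have adj : ∀ i j, i < j → j < N → ∀ a ∈ R i, ∀ b ∈ R j, ¬ Apart H.G a b → H.G.Adj a b := by
      intro i j hij hj a ha b hb hab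
      by_contra h
      exact hab ⟨hdis i j hij hj a ha b hb, h⟩
    have a02 := adj _ _ (by omega) (by omega) _ hu _ hv n02
    have a03 := adj _ _ (by omega) (by omega) _ hu _ hz n03
    have a12 := adj _ _ (by omega) (by omega) _ hw _ hv n12
    have a13 := adj _ _ (by omega) (by omega) _ hw _ hz n13
    have hne := hdis (f 2) (f 3) l23 n3 _ hv _ hz
    have hud : H.Dead (X (f 1)) u' :=
      H.dead_self (hmono (f 0 + 1) (f 1) l01 (by omega) (hRX (f 0) (by omega) hu))
    have hwa : ¬ H.Dead (X (f 1)) w' :=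
      H.not_dead (hXc (f 1) (by omega)) (hRβ (f 1) (by omega) _ hw)
    have huW := hwhite (f 0) (f 2) (by omega) (by omega) _ hu _ hv a02
    have hwW := hwhite (f 1) (f 2) (by omega) (by omega) _ hw _ hv a12
    exact hne ((H.oneCN hud huW hwa hwW).2 _ _ a02 a12 a03 a13)

end Pool.Agent.Work.MP_c4d05f_lc.Hav
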