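import Pool.Agent.Work.MP_c4d05f_lc.N.Hav.Nr

/-!
# Stages: definition and basic facts
-/

set_option autoImplicit false

namespace Pool.Agent.Work.MP_c4d05f_lc.Hav

variable {V : Type} {k : ℕ}

/-- `N` stages: at the stage `b < N` there are `X b ⊆ Y b ⊆ X (b+1)`, an induced path
`a b 0, a b 1, …, a b L` from the walk lemma, and a tail `tl b 0 = a b 0, …, tl b Δ = y` (consecutive
vertices are equal or adjacent) inside `β (Y b)`. -/
structure Stages (H : HS V k) (N L Δ : ℕ) where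
  /-- first set -/
  X : ℕ → Finset V
  /-- second set -/
  Y : ℕ → Finset V
  /-- the paths -/
  a : ℕ → ℕ → V
  /-- the tails -/
  tl : ℕ → ℕ → V
  /-- the common last vertex of the tails -/
  y : V
  cardX : ∀ b ≤ N, (X b).card ≤ k
  cardY : ∀ b < N, (Y b).card ≤ k
  XY : ∀ b < N, X b ⊆ Y b
  YX : ∀ b < N, Y b ⊆ X (b + 1)
  ind : ∀ b < N, IndSeq H.G (L + 1) (a b)
  t_mem : ∀ b < N, a b 0 ∈ H.β (Y b)
  a_mem : ∀ b < N, ∀ j, 1 ≤ j → j ≤ L → a b j ∈ H.β (X b) ∧ a b j ∉ H.β (Y b)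
  a_det : ∀ b < N, ∀ j, 2 ≤ j → j ≤ L → H.Det (Y b) (a b j)
  a_next : ∀ b < N, ∀ j, 1 ≤ j → j ≤ L → H.Det (X (b + 1)) (a b j)
  tl_zero : ∀ b < N, tl b 0 = a b 0
  tl_last : ∀ b < N, tl b Δ = y
  tl_mem : ∀ b < N, ∀ p ≤ Δ, tl b p ∈ H.β (Y b)
  tl_step : ∀ b < N, ∀ p < Δ, tl b p = tl b (p + 1) ∨ H.G.Adj (tl b p) (tl b (p + 1))

/-- The vertex `tl b p` of the tail of the stage `b` meets the path of the stage `c`. -/
def Stages.Arrow {H : HS V k} {N L Δ : ℕ} (S : Stages H N L Δ) (b c p : ℕ) : Prop :=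
  (∃ j, 1 ≤ j ∧ j ≤ L ∧ S.tl b p = S.a c j) ∨ (∃ j, 2 ≤ j ∧ j ≤ L ∧ H.G.Adj (S.tl b p) (S.a c j))

/-- `h` is on the path of the stage `c`, or some `l` consecutive vertices of this path (among
`a c 1, …, a c L`) have no neighbour of `h`. -/
def Stages.Exc {H : HS V k} {N L Δ : ℕ} (S : Stages H N L Δ) (l : ℕ) (h : V) (c : ℕ) : Prop :=
  (∃ j, 1 ≤ j ∧ j ≤ L ∧ h = S.a c j) ∨
    ∃ w, 1 ≤ w ∧ w + l ≤ L + 1 ∧ ∀ j, w ≤ j → j < w + l → ¬ H.G.Adj h (S.a c j)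

theorem Stages.X_mono {H : HS V k} {N L Δ : ℕ} (S : Stages H N L Δ) {b c : ℕ} (h : b ≤ c)
    (hc : c ≤ N) : S.X b ⊆ S.X c := by
  induction c with
  | zero => have : b = 0 := by omega
            subst this; exact Finset.Subset.refl _
  | succ c ih =>
    rcases Nat.lt_or_ge b (c + 1) with h1 | h1
    · exact (ih (by omega) (by omega)).trans ((S.XY c (by omega)).trans (S.YX c (by omega)))
    · have : b = c + 1 := by omega
      subst this; exact Finset.Subset.refl _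

theorem Stages.YX_mono {H : HS V k} {N L Δ : ℕ} (S : Stages H N L Δ) {b c : ℕ} (h : b < c)
    (hc : c ≤ N) : S.Y b ⊆ S.X c :=
  (S.YX b (by omega)).trans (S.X_mono (by omega) hc)

/-- The path of the stage `b` is detached at `X c` for `b < c`. -/
theorem Stages.det {H : HS V k} {N L Δ : ℕ} (S : Stages H N L Δ) {b c : ℕ} (h : b < c)
    (hc : c ≤ N) {j : ℕ} (h1 : 1 ≤ j) (hj : j ≤ L) : H.Det (S.X c) (S.a b j) :=
  (S.a_next b (by omega) j h1 hj).mono (S.X_mono (by omega) hc) (S.cardX c hc)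

/-- Paths of different stages are anticomplete. -/
theorem Stages.apart_arm {H : HS V k} {N L Δ : ℕ} (S : Stages H N L Δ) {b c : ℕ} (h : b < c)
    (hc : c < N) {j j' : ℕ} (h1 : 1 ≤ j) (hj : j ≤ L) (h1' : 1 ≤ j') (hj' : j' ≤ L) :
    Apart H.G (S.a b j) (S.a c j') :=
  (S.det h hc.le h1 hj).apart (S.a_mem c hc j' h1' hj').1

/-- The path of a stage is anticomplete to later tails. -/
theorem Stages.apart_tail {H : HS V k} {N L Δ : ℕ} (S : Stages H N L Δ) {b c : ℕ} (h : b < c)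
    (hc : c < N) {j p : ℕ} (h1 : 1 ≤ j) (hj : j ≤ L) (hp : p ≤ Δ) :
    Apart H.G (S.a b j) (S.tl c p) :=
  (S.det h hc.le h1 hj).apart (H.mono _ _ (S.XY c hc) (S.cardY c hc) (S.tl_mem c hc p hp))

/-- The path of a stage without its first two vertices is anticomplete to its tail. -/
theorem Stages.apart_own {H : HS V k} {N L Δ : ℕ} (S : Stages H N L Δ) {b : ℕ}
    (hb : b < N) {j p : ℕ} (h2 : 2 ≤ j) (hj : j ≤ L) (hp : p ≤ Δ) :
    Apart H.G (S.a b j) (S.tl b p) :=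
  (S.a_det b hb j h2 hj).apart (S.tl_mem b hb p hp)

theorem Stages.ne_own {H : HS V k} {N L Δ : ℕ} (S : Stages H N L Δ) {b : ℕ}
    (hb : b < N) {j p : ℕ} (h1 : 1 ≤ j) (hj : j ≤ L) (hp : p ≤ Δ) : S.a b j ≠ S.tl b p :=
  fun h => (S.a_mem b hb j h1 hj).2 (h ▸ S.tl_mem b hb p hp)

/-- The neighbours of the tail: `a b 0 = tl b 0` is adjacent to `a b 1`. -/
theorem Stages.adj_tail {H : HS V k} {N L Δ : ℕ} (S : Stages H N L Δ) {b : ℕ}
    (hb : b < N) (hL : 1 ≤ L) : H.G.Adj (S.a b 1) (S.tl b 0) := by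
  rw [S.tl_zero b hb]
  exact ((S.ind b hb).adj (i := 0) (by omega)).symm

end Pool.Agent.Work.MP_c4d05f_lc.Hav
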