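import Pool.Agent.Work.MP_c4d05f_lc.N.Hav.Wstep

/-!
# The walk lemma (module `Walk`, size S-M)

PROOF. Induction on `n` from `1` to `L` with `B = β X`: there are `Z`, `a` with `Ext X (2 * m * n) Z`,
`IndSeq (n + 1) a`, `a 0 ∈ β Z`, `a 1 ∉ β Z`, `a j ∈ β X` for `j ≤ n`, `a j` detached at `Z` for
`2 ≤ j ≤ n`. Start: `walk_first`. Step: `walk_step` (`2 * m * n + 2 * m = 2 * m * (n + 1)`,
`β Z ⊆ β X` by `H.mono`). A detached vertex is not in `β Z`.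
-/

set_option autoImplicit false

namespace Pool.Agent.Work.MP_c4d05f_lc.Hav

/-- **Walk lemma.** -/
theorem walk (m L : ℕ) (hL : 1 ≤ L) (V : Type) (k : ℕ) (H : HS V k) (X : Finset V)
    (hX : X.card + 2 * m * L ≤ k) (hsm : ∀ u ∈ H.β X, H.Small m u) :
    ∃ (Z : Finset V) (a : ℕ → V), Ext X (2 * m * L) Z ∧ IndSeq H.G (L + 1) a ∧ a 0 ∈ H.β Z ∧
      (∀ j, 1 ≤ j → j ≤ L → a j ∈ H.β X ∧ a j ∉ H.β Z) ∧
      ∀ j, 2 ≤ j → j ≤ L → H.Det Z (a j) := by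
  have key : ∀ n : ℕ, 1 ≤ n → n ≤ L → ∃ (Z : Finset V) (a : ℕ → V), Ext X (2 * m * n) Z ∧
      IndSeq H.G (n + 1) a ∧ a 0 ∈ H.β Z ∧ a 1 ∉ H.β Z ∧ (∀ j ≤ n, a j ∈ H.β X) ∧
      ∀ j, 2 ≤ j → j ≤ n → H.Det Z (a j) := by
    intro n hn
    induction n, hn using Nat.le_induction with
    | base =>
      intro _
      have hm : m ≤ 2 * m * L := by nlinarith
      obtain ⟨Z, a, h1, h2, h3, h4, h5⟩ := walk_first m V k H X (by omega) hsm
      have hZ : Z.card ≤ k := h1.2.trans (by omega)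
      refine ⟨Z, a, h1.mono (by omega), h2, h3, h4, fun j hj => ?_, fun j hj hj' => by omega⟩
      interval_cases j
      · exact H.mono X Z h1.1 hZ h3
      · exact h5
    | succ n hn ih =>
      intro hnL
      obtain ⟨Z, a, h1, h2, h3, h4, h5, h6⟩ := ih (by omega)
      have hle : 2 * m * (n + 1) ≤ 2 * m * L := Nat.mul_le_mul_left _ hnL
      have he : 2 * m * (n + 1) = 2 * m * n + 2 * m := by ring
      have hc := h1.2
      obtain ⟨Z', a', k1, k2, k3, k4, k5, k6⟩ := walk_step m n hn V k H (H.β X) Z a (by omega)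
        (H.mono X Z h1.1 (by omega)) hsm h2 h3 h4 h5 h6
      exact ⟨Z', a', he ▸ h1.trans k1, k2, k3, k4, k5, k6⟩
  obtain ⟨Z, a, h1, h2, h3, h4, h5, h6⟩ := key L hL le_rfl
  refine ⟨Z, a, h1, h2, h3, fun j hj hj' => ⟨h5 j hj', ?_⟩, h6⟩
  rcases Nat.lt_or_ge j 2 with h | h
  · obtain rfl : j = 1 := by omega
    exact h4
  · exact (h6 j h hj').1

end Pool.Agent.Work.MP_c4d05f_lc.Hav
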