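import Pool.Agent.Work.MP_c4d05f_lc.N.Hav.Stg
import Pool.Agent.Work.MP_c4d05f_lc.N.Hav.Conf
import Pool.Agent.Work.MP_c4d05f_lc.N.Hav.Walk

/-!
# Existence of stages when there are no long vertices (module `StgEx`, size M)

PROOF. `M` from `confine l L m`, `T = 2 * m * L₀ + M + L₀ * m`, `K = N * T`. Build for `b < N`, with
`Ext X (b * T) (X b)`, `X 0 = X`: `walk m L₀` at `X b` gives `Y b` and `a b` with
`Ext (X b) (2 * m * L₀) (Y b)`; `v = a b 0 ∈ β (Y b)`; by the hypothesis `hno` (with `Y := Y b`) the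
attachment hypothesis of `confine l L m` at `Y b` holds (`Ext (Y b) M Z` gives
`Z.card ≤ X.card + K`), so there is `X' b` with `Ext (Y b) M (X' b)` and
`∀ y ∈ β (X' b), Near (β (Y b)) (a b 0) (L + l) y`; `HS.kill` of `a b 1, …, a b L₀` (in `β (X b) ⊆ β X`,
so `Small m`) gives `X (b+1)` with `Ext (X' b) (L₀ * m) (X (b+1))`. Finally take `y ∈ β (X N)`
(`H.nonempty`); `y ∈ β (X' b)` for all `b < N`, and `seq_of_near` gives the tails
(`tl b i ∈ β (Y b)` by induction on `i` from `tl b 0 = a b 0 ∈ β (Y b)`).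
-/

set_option autoImplicit false

namespace Pool.Agent.Work.MP_c4d05f_lc.Hav

/-- One stage. -/
private structure One {V : Type} {k : ℕ} (H : HS V k) (L₀ T Δ : ℕ) (X0 X1 Y : Finset V)
    (a : ℕ → V) : Prop where
  sub : X0 ⊆ Y
  sub' : Y ⊆ X1
  card : X1.card ≤ X0.card + T
  ind : IndSeq H.G (L₀ + 1) a
  t_mem : a 0 ∈ H.β Y
  a_mem : ∀ j, 1 ≤ j → j ≤ L₀ → a j ∈ H.β X0 ∧ a j ∉ H.β Y
  a_det : ∀ j, 2 ≤ j → j ≤ L₀ → H.Det Y (a j)
  a_next : ∀ j, 1 ≤ j → j ≤ L₀ → H.Det X1 (a j)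
  near : ∀ y ∈ H.β X1, Near H.G (H.β Y) (a 0) Δ y

private theorem one_exists (l L m L₀ K M : ℕ) (hL₀ : 1 ≤ L₀) (V : Type) (k : ℕ) (H : HS V k)
    (X X0 : Finset V) (hS : ¬ HasS H.G l) (hK : X.card + K ≤ k)
    (hconf : ∀ (Y : Finset V) (v : V), ¬ HasS H.G l → Y.card + M ≤ k → v ∈ H.β Y →
      (∀ u ∈ H.β Y, H.Small m u) →
      (∀ Z, Ext Y M Z → ∃ u, Near H.G (H.β Y) v L u ∧ ¬ H.Det Z u) →
      ∃ Z, Ext Y M Z ∧ ∀ y ∈ H.β Z, Near H.G (H.β Y) v (L + l) y)
    (hsm : ∀ u ∈ H.β X, H.Small m u)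
    (hno : ∀ (Y Z : Finset V) (v : V), X ⊆ Y → Y ⊆ Z → Z.card ≤ X.card + K → v ∈ H.β Y →
      ∃ u, Near H.G (H.β Y) v L u ∧ ¬ H.Det Z u)
    (hX0 : X ⊆ X0) (hc : X0.card + (2 * m * L₀ + M + L₀ * m) ≤ X.card + K) :
    ∃ (X1 Y : Finset V) (a : ℕ → V),
      One H L₀ (2 * m * L₀ + M + L₀ * m) (L + l) X0 X1 Y a := by
  have hsm0 : ∀ u ∈ H.β X0, H.Small m u := fun u hu => hsm u (H.mono X X0 hX0 (by omega) hu)
  obtain ⟨Y, a, hY, hind, h0, h1, h2⟩ := walk m L₀ hL₀ V k H X0 (by omega) hsm0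
  have hYc := hY.2
  have hsmY : ∀ u ∈ H.β Y, H.Small m u := fun u hu => hsm0 u (H.mono X0 Y hY.1 (by omega) hu)
  obtain ⟨X', hX', hnear⟩ := hconf Y (a 0) hS (by omega) h0 hsmY (by
    intro Z hZ
    have := hZ.2
    exact hno Y Z (a 0) (hX0.trans hY.1) hZ.1 (by omega) h0)
  have hX'c := hX'.2
  obtain ⟨X1, hX1, hdet⟩ := H.kill (m := m) L₀ (X := X') (by omega) (fun i => a (i + 1))
    (fun i hi => hsm0 _ (h1 (i + 1) (by omega) (by omega)).1)
  have hX1c := hX1.2
  refine ⟨X1, Y, a, hY.1, hX'.1.trans hX1.1, by omega, hind, h0, h1, h2, ?_, ?_⟩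
  · intro j hj1 hj
    have := hdet (j - 1) (by omega)
    have he : j - 1 + 1 = j := by omega
    beta_reduce at this
    rwa [he] at this
  · intro y hy
    exact hnear y (H.mono X' X1 hX1.1 (by omega) hy)

/-- **Existence of stages.** -/
theorem stages_exist (l L m L₀ N : ℕ) (hl : 1 ≤ l) (hL₀ : 1 ≤ L₀) : ∃ K : ℕ, ∀ (V : Type) (k : ℕ)
    (H : HS V k) (X : Finset V), ¬ HasS H.G l → X.card + K ≤ k → (∀ u ∈ H.β X, H.Small m u) →
    (∀ (Y Z : Finset V) (v : V), X ⊆ Y → Y ⊆ Z → Z.card ≤ X.card + K → v ∈ H.β Y →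
      ∃ u, Near H.G (H.β Y) v L u ∧ ¬ H.Det Z u) →
    Nonempty (Stages H N L₀ (L + l)) := by
  obtain ⟨M, hM⟩ := confine l L m hl
  refine ⟨N * (2 * m * L₀ + M + L₀ * m), ?_⟩
  intro V k H X hS hK hsm hno
  classical
  set T := 2 * m * L₀ + M + L₀ * m with hT
  have hstep : ∀ X0 : Finset V, X ⊆ X0 → X0.card + T ≤ X.card + N * T →
      ∃ (X1 Y : Finset V) (a : ℕ → V), One H L₀ T (L + l) X0 X1 Y a := by
    intro X0 h1 h2
    exact one_exists l L m L₀ (N * T) M hL₀ V k H X X0 hS hK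
      (fun Y v => hM V k H Y v) hsm hno h1 h2
  have hstep' : ∀ X0 : Finset V, ∃ (X1 Y : Finset V) (a : ℕ → V),
      X ⊆ X0 → X0.card + T ≤ X.card + N * T → One H L₀ T (L + l) X0 X1 Y a := by
    intro X0
    by_cases h : X ⊆ X0 ∧ X0.card + T ≤ X.card + N * T
    · obtain ⟨X1, Y, a, h'⟩ := hstep X0 h.1 h.2
      exact ⟨X1, Y, a, fun _ _ => h'⟩
    · obtain ⟨v, -⟩ := H.nonempty X (by omega)
      exact ⟨X0, X0, fun _ => v, fun h1 h2 => absurd ⟨h1, h2⟩ h⟩
  choose g Yf af hg using hstep'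
  let f : ℕ → Finset V := fun n => Nat.rec X (fun _ x => g x) n
  have hf0 : f 0 = X := rfl
  have hfs : ∀ n, f (n + 1) = g (f n) := fun n => rfl
  have hbound : ∀ n, n < N → n * T + T ≤ N * T := by
    intro n hn
    have : (n + 1) * T ≤ N * T := Nat.mul_le_mul_right T hn
    rwa [Nat.add_mul, Nat.one_mul] at this
  have hP : ∀ n, n ≤ N → X ⊆ f n ∧ (f n).card ≤ X.card + n * T := by
    intro n
    induction n with
    | zero => intro _; rw [hf0]; exact ⟨Finset.Subset.refl _, by omega⟩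
    | succ n ih =>
      intro hn
      obtain ⟨h1, h2⟩ := ih (by omega)
      have hb := hbound n (by omega)
      have ho := hg (f n) h1 (by omega)
      rw [hfs]
      refine ⟨h1.trans (ho.sub.trans ho.sub'), ?_⟩
      have := ho.card
      rw [Nat.add_mul, Nat.one_mul]
      omega
  have hO : ∀ n, n < N → One H L₀ T (L + l) (f n) (f (n + 1)) (Yf (f n)) (af (f n)) := by
    intro n hn
    obtain ⟨h1, h2⟩ := hP n hn.le
    have hb := hbound n hn
    rw [hfs]
    exact hg (f n) h1 (by omega)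
  have hNT : ∀ n ≤ N, n * T ≤ N * T := fun n hn => Nat.mul_le_mul_right T hn
  have hcard : ∀ n ≤ N, (f n).card ≤ k := by
    intro n hn
    have := (hP n hn).2
    have := hNT n hn
    omega
  have hcardY : ∀ n < N, (Yf (f n)).card ≤ k := by
    intro n hn
    exact (Finset.card_le_card (hO n hn).sub').trans (hcard (n + 1) hn)
  have hmono : ∀ b c, b ≤ c → c ≤ N → f b ⊆ f c := by
    intro b c hbc hc
    induction c with
    | zero =>
      have : b = 0 := by omega
      subst this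
      exact Finset.Subset.refl _
    | succ c ih =>
      rcases Nat.lt_or_ge b (c + 1) with h1 | h1
      · exact (ih (by omega) (by omega)).trans ((hO c (by omega)).sub.trans (hO c (by omega)).sub')
      · have : b = c + 1 := by omega
        subst this
        exact Finset.Subset.refl _
  obtain ⟨y, hy⟩ := H.nonempty (f N) (hcard N le_rfl)
  have hnear : ∀ b, b < N → Near H.G (H.β (Yf (f b))) (af (f b) 0) (L + l) y := by
    intro b hb
    exact (hO b hb).near y (H.mono _ _ (hmono (b + 1) N hb le_rfl) (hcard N le_rfl) hy)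
  have htl : ∀ b, ∃ p : ℕ → V, b < N → p 0 = af (f b) 0 ∧ p (L + l) = y ∧
      ∀ i < L + l, p i = p (i + 1) ∨ (H.G.Adj (p i) (p (i + 1)) ∧ p (i + 1) ∈ H.β (Yf (f b))) := by
    intro b
    by_cases hb : b < N
    · obtain ⟨p, hp⟩ := seq_of_near (hnear b hb)
      exact ⟨p, fun _ => hp⟩
    · exact ⟨fun _ => y, fun h => absurd h hb⟩
  choose tl htl using htl
  refine ⟨{ X := f, Y := fun b => Yf (f b), a := fun b => af (f b), tl := tl, y := y,
            cardX := hcard, cardY := hcardY, XY := fun b hb => (hO b hb).sub,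
            YX := fun b hb => (hO b hb).sub', ind := fun b hb => (hO b hb).ind,
            t_mem := fun b hb => (hO b hb).t_mem, a_mem := fun b hb => (hO b hb).a_mem,
            a_det := fun b hb => (hO b hb).a_det, a_next := fun b hb => (hO b hb).a_next,
            tl_zero := fun b hb => (htl b hb).1, tl_last := fun b hb => (htl b hb).2.1,
            tl_mem := ?_, tl_step := ?_ }⟩
  · intro b hb p hp
    obtain ⟨h0, -, hs⟩ := htl b hb
    induction p with
    | zero => rw [h0]; exact (hO b hb).t_mem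
    | succ p ih =>
      rcases hs p (by omega) with h | h
      · rw [← h]; exact ih (by omega)
      · exact h.2
  · intro b hb p hp
    rcases (htl b hb).2.2 p hp with h | h
    · exact Or.inl h
    · exact Or.inr h.1

end Pool.Agent.Work.MP_c4d05f_lc.Hav
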