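import Pool.Agent.Work.MP_c4d05f_lc.N.Hav.Sel
import Pool.Agent.Work.MP_c4d05f_lc.N.Hav.Tarm

/-!
# Confinement around a sticky vertex (module `Sticky`, size M)

PROOF. `N` from `sel l 3`, `n = l * N`. Suppose that the conclusion fails. Build by recursion sets
`Z 0 = Y ⊆ Z 1 ⊆ … ⊆ Z N`, `Ext Y (l * i) (Z i)`, and arms `p i` (`i < N`) : at `Z i` (with
`Ext Y n (Z i)`, so `h` is attached at `Z i` by hypothesis, and there is `y ∈ β (Z i)` with
`¬ Near (β X \ {h}) h l y` by assumption). `h` is dead at `Z i` (`HS.Dead.mono`), so `h ∉ β (Z i)`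
and it has a neighbour in `β (Z i)` (`HS.att_white`). `β (Z i) ⊆ β X \ {h}` is connected. `arm_far`
(with `A = β X \ {h}`, `B = β (Z i)`) gives `p i` with `p i 0 = h`, `p i 1, …, p i l ∈ β (Z i)`, an
induced path; put `R i = {p i 1, …, p i l}` and `Z (i+1) = Z i ∪ R i`. Then `sel` gives three
indices with pairwise anticomplete `R`: this is `HasS G l` by definition.

For the recursion it may be convenient to prove first the single step and then to use
`exists_seq`-style recursion on `ℕ` with the property `i ≤ N → …`, or to do induction on `N`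
proving: for all `N' ≤ N` there are functions `Z`, `R`, `p` with the wanted properties for
`i < N'`.
-/

set_option autoImplicit false

namespace Pool.Agent.Work.MP_c4d05f_lc.Hav

/-- **Sticky vertex.** -/
theorem sticky (l : ℕ) : ∃ n : ℕ, ∀ (V : Type) (k : ℕ) (H : HS V k) (X Y : Finset V) (h : V),
    ¬ HasS H.G l → X ⊆ Y → Y.card + n ≤ k → H.Dead Y h →
    (∀ Z, Ext Y n Z → ¬ H.Det Z h) →
    ∃ Z, Ext Y n Z ∧ ∀ y ∈ H.β Z, Near H.G (H.β X \ {h}) h l y := by
  classical
  obtain ⟨N, hN⟩ := sel l 3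
  refine ⟨l * N, ?_⟩
  intro V k H X Y h hS hXY hc hd hdet
  by_contra hcon
  push Not at hcon
  have step : ∀ Z : Finset V, ∃ p : ℕ → V, Ext Y (l * N) Z →
      (IndSeq H.G (l + 1) p ∧ p 0 = h ∧ ∀ i, 1 ≤ i → i ≤ l → p i ∈ H.β Z) := by
    intro Z
    by_cases hZ : Ext Y (l * N) Z
    · obtain ⟨y, hy, hfar⟩ := hcon Z hZ
      have hcZ : Z.card ≤ k := hZ.2.trans hc
      have hdZ : H.Dead Z h := HS.Dead.mono hZ.1 hd
      have hn : h ∉ H.β Z := fun h1 => H.not_dead hcZ h1 hdZ
      obtain ⟨_, _, u, hu, hadj⟩ := H.att_white hcZ (hdet Z hZ) hn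
      have hsub : H.β Z ⊆ H.β X \ {h} := by
        intro x hx
        refine ⟨H.mono X Z (hXY.trans hZ.1) hcZ hx, ?_⟩
        intro hxh
        rw [Set.mem_singleton_iff] at hxh
        rw [hxh] at hx
        exact hn hx
      obtain ⟨p, hp⟩ := arm_far hsub (H.conn Z hcZ) ⟨u, hu, hadj⟩ hy hfar
      exact ⟨p, fun _ => hp⟩
    · exact ⟨fun _ => h, fun h1 => absurd h1 hZ⟩
  choose p hp using step
  let R : Finset V → Finset V := fun Z => (Finset.Icc 1 l).image (p Z)
  have hRc : ∀ Z, (R Z).card ≤ l := by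
    intro Z
    refine Finset.card_image_le.trans ?_
    simp
  let Zs : ℕ → Finset V := fun i => Nat.rec Y (fun _ Z => Z ∪ R Z) i
  have hZ0 : Zs 0 = Y := rfl
  have hZs : ∀ i, Zs (i + 1) = Zs i ∪ R (Zs i) := fun i => rfl
  have hext : ∀ i, Ext Y (l * i) (Zs i) := by
    intro i
    induction i with
    | zero => rw [hZ0]; exact Ext.refl _ _
    | succ i ih =>
      rw [hZs]
      refine ⟨ih.1.trans Finset.subset_union_left, ?_⟩
      have h1 := Finset.card_union_le (Zs i) (R (Zs i))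
      have h2 := hRc (Zs i)
      have h3 := ih.2
      have h4 : l * (i + 1) = l * i + l := by ring
      omega
  have hextN : ∀ i ≤ N, Ext Y (l * N) (Zs i) := fun i hi =>
    (hext i).mono (Nat.mul_le_mul_left l hi)
  obtain ⟨f, hf, hfN, hap⟩ := hN V k H Zs (fun i => R (Zs i))
    (fun i hi => (hextN i hi).2.trans hc)
    (fun i _ => by rw [hZs]; exact Finset.subset_union_left)
    (fun i hi u hu => by
      obtain ⟨a, ha, rfl⟩ := Finset.mem_image.1 hu
      rw [Finset.mem_Icc] at ha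
      exact (hp (Zs i) (hextN i hi.le)).2.2 a ha.1 ha.2)
    (fun i _ => by rw [hZs]; exact Finset.subset_union_right)
    (fun i _ => hRc _)
  apply hS
  refine ⟨h, fun i => p (Zs (f i)), ?_, ?_⟩
  · intro i hi
    have h1 := hp (Zs (f i)) (hextN (f i) (hfN i hi).le)
    exact ⟨h1.1, h1.2.1⟩
  · intro i j hij hj a b ha hal hb hbl
    exact hap i j hij hj _ (Finset.mem_image_of_mem _ (Finset.mem_Icc.2 ⟨ha, hal⟩)) _
      (Finset.mem_image_of_mem _ (Finset.mem_Icc.2 ⟨hb, hbl⟩))

end Pool.Agent.Work.MP_c4d05f_lc.Hav
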