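import Pool.Agent.Work.MP_c4d05f_lc.N.Hav.Nr

/-!
# One step of the walk (module `Wstep`, size M)

The path is `a 0, a 1, …, a n` with `a 0 ∈ β Z`, `a 1 ∉ β Z`, and `a 2, …, a n` detached at `Z`
(the newest vertex is `a 0`).

PROOF. `HS.kill` (two vertices `a 0`, `a 1`, both `Small m`) gives `Z'` with `Ext Z (2 * m) Z'` where
`a 0`, `a 1` are detached. `geod_set` in `β Z` from `a 0` to `β Z' ⊆ β Z`: `x 0 = a 0, …, x d ∈ β Z'`,
`x i ∉ β Z'` for `i < d`, `x i` has no neighbour in `β Z'` for `i + 1 < d`. `d ≥ 2`: `a 0` is not in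
`β Z'` (`d ≠ 0`) and has no neighbour there (`d ≠ 1`). Let `i ≤ d` be maximal with `a 1 ~ x i`
(`i = 0` is possible: `a 1 ~ a 0`); `i ≤ d - 1` since `a 1` is detached at `Z'`.
New path: `a' j = x (d - j)` for `j ≤ d - i` and `a' (d - i + j) = a j` for `j ≥ 1` (`j ≤ n`). It has
`d - i + n + 1 ≥ n + 2` vertices; it is induced: `x` is an induced path, `a 1, …, a n` is one,
`a 1 ∉ β Z ∋ x`, `a 1 ~ x i` and `a 1` is not adjacent to `x (i+1), …, x d`, and `a j`, `j ≥ 2`, is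
detached at `Z`, so apart from all `x ∈ β Z`. Only the first `n + 2` vertices are used.
`a' 0 = x d ∈ β Z'`, `a' 1 = x (d-1) ∉ β Z'` (as `i ≤ d - 1`), in `β Z`, so `Small m`; the `a' j` with
`j ≥ 2` are `x (d-j)` with `d - j + 1 < d`, so detached at `Z'`, or `a 1` (detached by the kill),
or `a j` with `j ≥ 2` (`HS.Det.mono`).
-/

set_option autoImplicit false

namespace Pool.Agent.Work.MP_c4d05f_lc.Hav

/-- **First step of the walk.** Same proof: kill `a 0 = t`, take the last two vertices of the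
shortest path to `β Z'`. -/
theorem walk_first (m : ℕ) (V : Type) (k : ℕ) (H : HS V k) (X : Finset V)
    (hX : X.card + m ≤ k) (hsm : ∀ u ∈ H.β X, H.Small m u) :
    ∃ (Z : Finset V) (a : ℕ → V), Ext X m Z ∧ IndSeq H.G 2 a ∧ a 0 ∈ H.β Z ∧ a 1 ∉ H.β Z ∧
      a 1 ∈ H.β X := by
  obtain ⟨t, ht⟩ := H.nonempty X (by omega)
  obtain ⟨Z, hZ, hd⟩ := H.kill (m := m) 1 (X := X) (by omega) (fun _ => t) (fun _ _ => hsm t ht)
  rw [one_mul] at hZ
  have hZk : Z.card ≤ k := hZ.2.trans hX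
  obtain ⟨z, hz⟩ := H.nonempty Z hZk
  obtain ⟨d, x, h1, h2, h3, h4, h5, -⟩ := geod_set (H.conn X (by omega)) ht
    (B := H.β Z) ⟨z, hz, H.mono X Z hZ.1 hZk hz⟩
  have hd0 : d ≠ 0 := by
    rintro rfl
    rw [h2] at h3
    exact (hd 0 (by omega)).1 h3
  refine ⟨Z, fun i => x (d - i), hZ, h1.rev.mono (by omega), ?_, ?_, ?_⟩
  · exact h3
  · exact h5 (d - 1) (by omega)
  · exact h4 (d - 1) (by omega)

private theorem max_adj (P : ℕ → Prop) (d : ℕ) (h0 : P 0) :
    ∃ i ≤ d, P i ∧ ∀ j, i < j → j ≤ d → ¬ P j := by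
  induction d with
  | zero => exact ⟨0, le_rfl, h0, fun j h1 h2 => absurd h1 (by omega)⟩
  | succ d ih =>
    by_cases h : P (d + 1)
    · exact ⟨d + 1, le_rfl, h, fun j h1 h2 => absurd h1 (by omega)⟩
    · obtain ⟨i, h1, h2, h3⟩ := ih
      refine ⟨i, by omega, h2, fun j h4 h5 => ?_⟩
      rcases Nat.lt_or_ge d j with h6 | h6
      · have : j = d + 1 := by omega
        rw [this]
        exact h
      · exact h3 j h4 h6

/-- **One step of the walk.** -/
theorem walk_step (m n : ℕ) (hn : 1 ≤ n) (V : Type) (k : ℕ) (H : HS V k) (B : Set V)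
    (Z : Finset V) (a : ℕ → V) (hZ : Z.card + 2 * m ≤ k) (hB : H.β Z ⊆ B)
    (hsm : ∀ u ∈ B, H.Small m u) (ha : IndSeq H.G (n + 1) a) (h0 : a 0 ∈ H.β Z)
    (h1 : a 1 ∉ H.β Z) (haB : ∀ j ≤ n, a j ∈ B) (hdet : ∀ j, 2 ≤ j → j ≤ n → H.Det Z (a j)) :
    ∃ (Z' : Finset V) (a' : ℕ → V), Ext Z (2 * m) Z' ∧ IndSeq H.G (n + 2) a' ∧ a' 0 ∈ H.β Z' ∧
      a' 1 ∉ H.β Z' ∧ (∀ j ≤ n + 1, a' j ∈ B) ∧
      ∀ j, 2 ≤ j → j ≤ n + 1 → H.Det Z' (a' j) := by
  obtain ⟨Z', hZ', hk⟩ := H.kill (m := m) 2 (X := Z) hZ a (fun i hi => hsm _ (haB i (by omega)))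
  have hZk : Z'.card ≤ k := hZ'.2.trans hZ
  obtain ⟨z, hz⟩ := H.nonempty Z' hZk
  obtain ⟨d, x, hx, hx0, hxd, hxm, hxb, hxn⟩ := geod_set (H.conn Z (by omega)) h0
    (B := H.β Z') ⟨z, hz, H.mono Z Z' hZ'.1 hZk hz⟩
  have ha01 : H.G.Adj (a 0) (a 1) := ha.adj (by omega)
  have hd0 : d ≠ 0 := by
    rintro rfl
    rw [hx0] at hxd
    exact (hk 0 (by omega)).1 hxd
  have hd1 : d ≠ 1 := by
    rintro rfl
    have h2 := hx.adj (i := 0) (by omega)
    rw [hx0] at h2
    exact (hk 0 (by omega)).2 _ hxd h2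
  obtain ⟨i, hi, hai, himax⟩ := max_adj (fun i => H.G.Adj (a 1) (x i)) d (by
    rw [hx0]
    exact ha01.symm)
  have hid : i ≠ d := by
    rintro rfl
    exact (hk 1 (by omega)).2 _ hxd hai
  set a' : ℕ → V := fun j => if j ≤ d - i then x (d - j) else a (j - (d - i)) with ha'
  have e1 : ∀ j, j ≤ d - i → a' j = x (d - j) := fun j hj => if_pos hj
  have e2 : ∀ j, d - i < j → a' j = a (j - (d - i)) := fun j hj => if_neg (by omega)
  refine ⟨Z', a', hZ', ?_, ?_, ?_, ?_, ?_⟩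
  · intro p q hpq hq
    rcases Nat.lt_or_ge (d - i) q with h2 | h2
    · rw [e2 q h2]
      rcases Nat.lt_or_ge (d - i) p with h3 | h3
      · rw [e2 p h3]
        obtain ⟨h4, h5⟩ := ha (p - (d - i)) (q - (d - i)) (by omega) (by omega)
        refine ⟨h4, ?_⟩
        rw [h5]
        omega
      · rw [e1 p h3]
        have hxp : x (d - p) ∈ H.β Z := hxm _ (by omega)
        rcases Nat.lt_or_ge 1 (q - (d - i)) with h4 | h4
        · have h5 := (hdet (q - (d - i)) (by omega) (by omega)).apart hxp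
          exact ⟨h5.1.symm, iff_of_false (fun h => h5.2 h.symm) (by omega)⟩
        · have h5 : q - (d - i) = 1 := by omega
          rw [h5]
          refine ⟨fun h => h1 (h ▸ hxp), ?_⟩
          rcases Nat.lt_or_ge p (d - i) with h6 | h6
          · exact iff_of_false (fun h => himax (d - p) (by omega) (by omega) h.symm) (by omega)
          · have h7 : d - p = i := by omega
            rw [h7]
            exact iff_of_true hai.symm (by omega)
    · rw [e1 q h2, e1 p (by omega)]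
      obtain ⟨h4, h5⟩ := hx (d - q) (d - p) (by omega) (by omega)
      refine ⟨h4.symm, ?_⟩
      rw [H.G.adj_comm, h5]
      omega
  · rw [e1 0 (by omega)]
    exact hxd
  · rw [e1 1 (by omega)]
    exact hxb _ (by omega)
  · intro j hj
    rcases Nat.lt_or_ge (d - i) j with h2 | h2
    · rw [e2 j h2]
      exact haB _ (by omega)
    · rw [e1 j h2]
      exact hB (hxm _ (by omega))
  · intro j hj2 hj
    rcases Nat.lt_or_ge (d - i) j with h2 | h2
    · rw [e2 j h2]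
      rcases Nat.lt_or_ge 1 (j - (d - i)) with h4 | h4
      · exact (hdet _ (by omega) (by omega)).mono hZ'.1 hZk
      · have h5 : j - (d - i) = 1 := by omega
        rw [h5]
        exact hk 1 (by omega)
    · rw [e1 j h2]
      exact ⟨hxb _ (by omega), fun u hu => hxn (d - j) (by omega) u hu
        (H.mono Z Z' hZ'.1 hZk hu)⟩

end Pool.Agent.Work.MP_c4d05f_lc.Hav
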